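import Mathlib

/-!
# Egyptian fractions: definitions
-/

namespace Pool.Agent.H591R2.Egy

/-- `s` is the set of denominators of an Egyptian fraction representation of `x / y`. -/
def IsEgy (x y : ℕ) (s : Finset ℕ) : Prop :=
  s.Nonempty ∧ (∀ n ∈ s, 0 < n) ∧ ∑ n ∈ s, (1 / (n : ℚ)) = (x : ℚ) / (y : ℚ)

/-- The minimum length of an Egyptian fraction representation of `x / y`. -/
noncomputable def minLen (x y : ℕ) : ℕ := sInf {k | ∃ s, IsEgy x y s ∧ s.card = k}

/-- The minimum, over all Egyptian fraction representations of `x / y`, of the largest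
denominator. -/
noncomputable def minDen (x y : ℕ) : ℕ := sInf {N | ∃ s, IsEgy x y s ∧ s.sup id = N}

/-- The product of the numbers selected by `τ = c`. -/
def pr {N : ℕ} (c : Fin 3) (τ : Fin N → Fin 3) (r : Fin N → ℕ) : ℕ :=
  ∏ i, if τ i = c then r i else 1

/-- No signed solution: two disjoint sub-products of the `r i` never add up to a multiple of
`q`. -/
def NoSol {N : ℕ} (q : ℕ) (r : Fin N → ℕ) : Prop :=
  ∀ τ : Fin N → Fin 3, ¬ q ∣ pr 1 τ r + pr 2 τ r

/-- A balanced signed solution. -/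
def BalSol {N : ℕ} (q : ℕ) (r : Fin N → ℕ) : Prop :=
  ∃ τ : Fin N → Fin 3, q ∣ pr 1 τ r + pr 2 τ r ∧
    (Finset.univ.filter fun i => τ i = 1).card = (Finset.univ.filter fun i => τ i = 2).card

/-- The weights of the items made from a subset sum instance (with multiplier `W`). -/
def wts (W : ℕ) (a : List ℕ) : List ℕ :=
  a.zipIdx.flatMap fun p => [p.1 + W * 4 ^ p.2, W * 4 ^ p.2]

/-- The weight of the target item. -/
def tgt (W : ℕ) (x : List ℕ × ℕ) : ℕ := x.2 + W * ((List.range x.1.length).map fun j => 4 ^ j).sum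

/-- The residues of the items, as a list. -/
def resL (W Q : ℕ) (x : List ℕ × ℕ) : List ℕ :=
  (Q ^ 2 - (1 + Q * tgt W x)) :: (wts W x.1).map fun s => 1 + Q * s

/-- The residues of the items. -/
def res (W Q : ℕ) (x : List ℕ × ℕ) (i : ℕ) : ℕ := (resL W Q x).getD i 1

/-- The subset sum problem. -/
def SubSum (x : List ℕ × ℕ) : Prop := ∃ s : List ℕ, s.Sublist x.1 ∧ s.sum = x.2

/-- `i`-th block of `b` bits of the number `R`. -/
def blk (b R i : ℕ) : ℕ := R / 2 ^ (b * i) % 2 ^ b

/-- The parameters. -/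
def kap (N : ℕ) : ℕ := 12 * N ^ 3 + 1

/-- number of random bits for each item -/
def bb (N : ℕ) : ℕ := 96 * N ^ 3 + 4 * N + 16

/-- the offset exponent -/
def hh (N : ℕ) : ℕ := bb N + 2 * N + 1

/-- the small modulus -/
def QQ (N : ℕ) : ℕ := 3 ^ kap N

/-- The `i`-th number. -/
def mm (N : ℕ) (x : List ℕ × ℕ) (R i : ℕ) : ℕ :=
  res (2 ^ (2 * N)) (QQ N) x i + QQ N ^ 2 * (2 ^ hh N + blk (bb N) R i)

/-- The numerator and the denominator of the instance made from the subset sum instance `x` and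
the random number `R`. -/
def egyInst (N : ℕ) (x : List ℕ × ℕ) (R : ℕ) : ℕ × ℕ :=
  (QQ N ^ 2, ((List.range N).map fun i => mm N x R i).prod)

end Pool.Agent.H591R2.Egy
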