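import Pool.Agent.H591R2.Egy.Defs

/-!
# Egyptian fractions: definitions for the counting argument
-/

namespace Pool.Agent.H591R2.Egy

/-- the contribution of an item of type `c` (`0`: neither, `1`: in `u`, `2`: in `v`) with residue
`r` and cofactors `a`, `b` to the left-hand side -/
def nf (c : Fin 3) (r a b : ℕ) : ℕ := if c = 0 then a else if c = 1 then r else a * b ^ 2

/-- the contribution to the right-hand side -/
def df (c : Fin 3) (r a b : ℕ) : ℕ := if c = 0 then b else if c = 1 then a * b ^ 2 else r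

/-- the congruence satisfied by the cofactors `p i = (a i, b i)` -/
def Cong {N : ℕ} (q : ℕ) (τ : Fin N → Fin 3) (r : Fin N → ℕ) (p : Fin N → ℕ × ℕ) : Prop :=
  q ∣ (∏ i, nf (τ i) (r i) (p i).1 (p i).2) + ∏ i, df (τ i) (r i) (p i).1 (p i).2

/-- `u v ∣ ∏ m i` and `q ∣ u + v` for some positive `u`, `v` -/
def Bad (q y : ℕ) : Prop := ∃ u v : ℕ, 0 < u ∧ 0 < v ∧ u * v ∣ y ∧ q ∣ u + v

end Pool.Agent.H591R2.Egy
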