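import Pool.Agent.H591R2.Egy.Main

/-!
# Consequences
-/

namespace Pool.Agent.H591R2.Egy

open NPC H622R2

/-- `f` can be approximated within the factor `c` in polynomial time: for all `0 < x < y` the output
is a natural number between `f x y` and `c * f x y`. -/
def ApproxPoly (f : ℕ → ℕ → ℕ) (c : ℚ) : Prop :=
  ∃ G : List Bool → List Bool, PolyTime G ∧ ∀ x y : ℕ, 0 < x → x < y →
    ∃ g : ℕ, G (bits (x, y)) = bits g ∧ f x y ≤ g ∧ (g : ℚ) ≤ c * f x y

theorem ratio_mono {a d X Y : ℕ} (h : 2 ^ (a + d) * X ≤ (2 ^ (a + d + 1) + 1) * Y) :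
    2 ^ a * X ≤ (2 ^ (a + 1) + 1) * Y := by
  have h4 : 2 ^ d * (2 ^ a * X) ≤ 2 ^ d * ((2 ^ (a + 1) + 1) * Y) := by
    calc 2 ^ d * (2 ^ a * X) = 2 ^ (a + d) * X := by rw [pow_add]; ring
      _ ≤ (2 ^ (a + d + 1) + 1) * Y := h
      _ ≤ (2 ^ d * (2 ^ (a + 1) + 1)) * Y := by
          refine Nat.mul_le_mul_right _ ?_
          have : 1 ≤ 2 ^ d := Nat.one_le_two_pow
          have e : 2 ^ (a + d + 1) = 2 ^ d * 2 ^ (a + 1) := by
            rw [← pow_add]; congr 1; ring
          rw [e, Nat.mul_add]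
          omega
      _ = 2 ^ d * ((2 ^ (a + 1) + 1) * Y) := by ring
  exact Nat.le_of_mul_le_mul_left h4 (by positivity)

/-- A polynomial-time test separating the two kinds of instances. -/
theorem coRP_of_test (K : ℕ) (T : ℕ × ℕ → Bool) (hT : Poly T)
    (h1 : ∀ x y, 0 < x → x < y → minLen x y ≤ 2 →
      2 ^ K * (x * minDen x y) ≤ (2 ^ (K + 1) + 1) * y → T (x, y) = true)
    (h2 : ∀ x y, 0 < x → x < y → 3 ≤ minLen x y → 3 * y ≤ x * minDen x y → T (x, y) = false)
    {A : Set (List Bool)} (hA : InNP A) : InCoRP A := by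
  obtain ⟨F, p, hF, hF0, hF1, hF2⟩ := reduction_poly hA (K + 1)
  refine ⟨fun z => [T (F z)], p, polyTime_of_poly (hT.comp hF), fun w => ⟨?_, ?_⟩⟩
  · intro hw r _
    obtain ⟨h3, h4⟩ := hF1 w r hw
    obtain ⟨h5, h6⟩ := hF0 w r
    have h7 := h1 _ _ h5 h6 h3 (ratio_mono (a := K) (d := w.length + 1) (by
      have e : K + (w.length + 1) = w.length + (K + 1) := by ring
      rw [e]
      exact h4))
    simp only [Prod.mk.eta] at h7
    simp only [h7]
  · intro hw
    have h3 := hF2 w hw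
    have hfin : Finite {r : List Bool // r.length = p.eval w.length ∧
          ¬ (3 ≤ minLen (F (pairBits w r)).1 (F (pairBits w r)).2 ∧
            3 * (F (pairBits w r)).2 ≤ (F (pairBits w r)).1 *
              minDen (F (pairBits w r)).1 (F (pairBits w r)).2)} := by
      have : Finite {s : List Bool // s.length = p.eval w.length} :=
        inferInstanceAs (Finite (List.Vector Bool (p.eval w.length)))
      exact Finite.of_injective (β := {s : List Bool // s.length = p.eval w.length})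
        (fun s => ⟨s.1, s.2.1⟩) (fun s s' h => by
          simp only [Subtype.mk.injEq] at h
          exact Subtype.ext h)
    have h4 : Nat.card {r : List Bool // r.length = p.eval w.length ∧
        (fun z => [T (F z)]) (pairBits w r) = [true]} ≤
        Nat.card {r : List Bool // r.length = p.eval w.length ∧
          ¬ (3 ≤ minLen (F (pairBits w r)).1 (F (pairBits w r)).2 ∧
            3 * (F (pairBits w r)).2 ≤ (F (pairBits w r)).1 *
              minDen (F (pairBits w r)).1 (F (pairBits w r)).2)} := by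
      refine Nat.card_le_card_of_injective (fun r => ⟨r.1, r.2.1, ?_⟩) ?_
      · rintro ⟨h5, h6⟩
        have h7 := h2 _ _ (hF0 w r.1).1 (hF0 w r.1).2 h5 h6
        have h8 := r.2.2
        simp only [Prod.mk.eta] at h7
        simp [h7] at h8
      · intro s s' h
        simp only [Subtype.mk.injEq] at h
        exact Subtype.ext h
    refine le_trans (Nat.mul_le_mul ?_ h4) h3
    calc 2 = 2 ^ 1 := by norm_num
      _ ≤ 2 ^ (w.length + (K + 1)) := Nat.pow_le_pow_right (by norm_num) (by omega)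

/-- If all of `NP` is in `coRP`, then all of `NP` is in `RP ∩ coRP`. -/
theorem zpp_of_coRP (h : ∀ A : Set (List Bool), InNP A → InCoRP A) (A : Set (List Bool))
    (hA : InNP A) : InRP A ∧ InCoRP A :=
  ⟨InCoRP.compl_inRP (h _ (InCoRP.compl_inNP (h A hA))), h A hA⟩

theorem exists_K {c : ℚ} (hc : c < 3 / 2) : ∃ K : ℕ, c * (2 + 1 / 2 ^ K) < 3 := by
  rcases le_or_gt c 0 with h0 | h0
  · refine ⟨0, ?_⟩
    norm_num
    linarith
  · have h1 : 0 < 3 - 2 * c := by linarith
    obtain ⟨K, hK⟩ := exists_pow_lt_of_lt_one (x := (3 - 2 * c) / c) (y := (1 / 2 : ℚ))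
      (by positivity) (by norm_num)
    refine ⟨K, ?_⟩
    rw [lt_div_iff₀ h0] at hK
    have : (1 : ℚ) / 2 ^ K = (1 / 2) ^ K := by rw [div_pow, one_pow]
    rw [this]
    nlinarith

theorem poly_output {G : List Bool → List Bool} (hG : PolyTime G) :
    Poly (fun x : ℕ × ℕ => (unbits ℕ (G (bits x))).getD 0) :=
  NPC.Poly.optGetD (poly_unbits.comp ((poly_of_polyTime hG).comp R671.poly_bits))
    (NPC.Poly.const _)

theorem len_collapse {c : ℚ} (hc : c < 3 / 2) (h : ApproxPoly minLen c) (A : Set (List Bool))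
    (hA : InNP A) : InRP A ∧ InCoRP A := by
  obtain ⟨G, hG, hG'⟩ := h
  refine zpp_of_coRP (fun A hA => ?_) A hA
  refine coRP_of_test 0 (fun x => decide ((unbits ℕ (G (bits x))).getD 0 < 3))
    (NPC.Poly.decide_lt (poly_output hG) (NPC.Poly.const _)) ?_ ?_ hA
  · intro x y hx hy h1 _
    obtain ⟨g, hg, hg1, hg2⟩ := hG' x y hx hy
    simp only [hg, unbits_bits, Option.getD_some]
    rw [decide_eq_true_eq]
    have h3 : (minLen x y : ℚ) ≤ 2 := by exact_mod_cast h1
    have h4 : (g : ℚ) < 3 := by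
      rcases le_or_gt c 0 with h0 | h0
      · have : c * (minLen x y : ℚ) ≤ 0 := mul_nonpos_of_nonpos_of_nonneg h0 (Nat.cast_nonneg _)
        linarith
      · nlinarith
    exact_mod_cast h4
  · intro x y hx hy h1 _
    obtain ⟨g, hg, hg1, hg2⟩ := hG' x y hx hy
    simp only [hg, unbits_bits, Option.getD_some]
    rw [decide_eq_false_iff_not]
    omega

theorem den_collapse {c : ℚ} (hc : c < 3 / 2) (h : ApproxPoly minDen c) (A : Set (List Bool))
    (hA : InNP A) : InRP A ∧ InCoRP A := by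
  obtain ⟨G, hG, hG'⟩ := h
  obtain ⟨K, hK⟩ := exists_K hc
  refine zpp_of_coRP (fun A hA => ?_) A hA
  refine coRP_of_test K (fun x => decide (x.1 * (unbits ℕ (G (bits x))).getD 0 < 3 * x.2))
    (NPC.Poly.decide_lt (NPC.Poly.mul (NPC.Poly.fst NPC.Poly.id) (poly_output hG))
      (NPC.Poly.mul (NPC.Poly.const _) (NPC.Poly.snd NPC.Poly.id))) ?_ ?_ hA
  · intro x y hx hy _ h1
    obtain ⟨g, hg, hg1, hg2⟩ := hG' x y hx hy
    simp only [hg, unbits_bits, Option.getD_some]
    rw [decide_eq_true_eq]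
    have hx0 : (0 : ℚ) < x := by exact_mod_cast hx
    have hy0 : (0 : ℚ) < y := by exact_mod_cast (by omega : 0 < y)
    have h3 : (2 : ℚ) ^ K * (x * minDen x y) ≤ (2 ^ (K + 1) + 1) * y := by exact_mod_cast h1
    have hp : (0 : ℚ) < 2 ^ K := by positivity
    have h4 : (x : ℚ) * minDen x y ≤ (2 + 1 / 2 ^ K) * y := by
      have e : (2 : ℚ) ^ K * ((2 + 1 / 2 ^ K) * y) = (2 ^ (K + 1) + 1) * y := by
        field_simp
        ring
      rw [← e] at h3
      exact le_of_mul_le_mul_left h3 hp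
    have h5 : (x : ℚ) * g < 3 * y := by
      have h6 : (x : ℚ) * g ≤ c * (x * minDen x y) := by
        calc (x : ℚ) * g ≤ x * (c * minDen x y) := mul_le_mul_of_nonneg_left hg2 hx0.le
          _ = c * (x * minDen x y) := by ring
      rcases le_or_gt c 0 with h0 | h0
      · have : c * ((x : ℚ) * minDen x y) ≤ 0 :=
          mul_nonpos_of_nonpos_of_nonneg h0 (by positivity)
        linarith
      · calc (x : ℚ) * g ≤ c * (x * minDen x y) := h6
          _ ≤ c * ((2 + 1 / 2 ^ K) * y) := mul_le_mul_of_nonneg_left h4 h0.le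
          _ = (c * (2 + 1 / 2 ^ K)) * y := by ring
          _ < 3 * y := mul_lt_mul_of_pos_right hK hy0
    exact_mod_cast h5
  · intro x y hx hy _ h1
    obtain ⟨g, hg, hg1, hg2⟩ := hG' x y hx hy
    simp only [hg, unbits_bits, Option.getD_some]
    rw [decide_eq_false_iff_not]
    have := Nat.mul_le_mul_left x hg1
    omega

theorem poly_test {α : Type} [TEnc α] {P : α → Prop} (h : InPP P) :
    ∃ T : α → Bool, Poly T ∧ ∀ a, T a = true ↔ P a := by
  obtain ⟨V, hV, hV'⟩ := InPP.exists_test h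
  refine ⟨fun a => decide (V (bits a) = [true]),
    NPC.Poly.dec_eq ((poly_of_polyTime hV).comp R671.poly_bits) (NPC.Poly.const _), fun a => ?_⟩
  rw [decide_eq_true_eq]
  exact (hV' a).symm

theorem len_decision
    (h : InPP (fun x : ℕ × ℕ => 0 < x.1 ∧ x.1 < x.2 ∧ minLen x.1 x.2 ≤ 2))
    (A : Set (List Bool)) (hA : InNP A) : InRP A ∧ InCoRP A := by
  obtain ⟨T, hT, hT'⟩ := poly_test h
  refine zpp_of_coRP (fun A hA => ?_) A hA
  refine coRP_of_test 0 T hT ?_ ?_ hA
  · intro x y hx hy h1 _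
    exact (hT' (x, y)).2 ⟨hx, hy, h1⟩
  · intro x y hx hy h1 _
    by_contra hcon
    have h2 := (hT' (x, y)).1 (by simpa using hcon)
    have h3 : minLen x y ≤ 2 := h2.2.2
    omega

theorem den_decision
    (h : InPP (fun x : (ℕ × ℕ) × ℕ => 0 < x.1.1 ∧ x.1.1 < x.1.2 ∧ minDen x.1.1 x.1.2 ≤ x.2))
    (A : Set (List Bool)) (hA : InNP A) : InRP A ∧ InCoRP A := by
  obtain ⟨T, hT, hT'⟩ := poly_test h
  refine zpp_of_coRP (fun A hA => ?_) A hA
  refine coRP_of_test 1 (fun x => T (x, (3 * x.2 - 1) / x.1)) (hT.comp (NPC.Poly.pair NPC.Poly.id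
    (NPC.Poly.div (NPC.Poly.sub (NPC.Poly.mul (NPC.Poly.const _) (NPC.Poly.snd NPC.Poly.id))
      (NPC.Poly.const _)) (NPC.Poly.fst NPC.Poly.id)))) ?_ ?_ hA
  · intro x y hx hy _ h1
    refine (hT' _).2 ⟨hx, hy, ?_⟩
    simp only
    rw [Nat.le_div_iff_mul_le hx, mul_comm]
    omega
  · intro x y hx hy _ h1
    by_contra hcon
    have h2 := (hT' _).1 (by simpa using hcon)
    have h3 : minDen x y ≤ (3 * y - 1) / x := h2.2.2
    rw [Nat.le_div_iff_mul_le hx, mul_comm] at h3
    omega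

/-- The reduction, with Turing machines. -/
theorem reduction {A : Set (List Bool)} (hA : InNP A) (K : ℕ) :
    ∃ (F : List Bool → ℕ × ℕ) (p : Polynomial ℕ), PolyTime (fun z => bits (F z)) ∧
      (∀ w r : List Bool, 0 < (F (pairBits w r)).1 ∧ (F (pairBits w r)).1 < (F (pairBits w r)).2) ∧
      (∀ w r : List Bool, w ∈ A →
        minLen (F (pairBits w r)).1 (F (pairBits w r)).2 ≤ 2 ∧
        2 ^ (w.length + K) * ((F (pairBits w r)).1 *
          minDen (F (pairBits w r)).1 (F (pairBits w r)).2) ≤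
          (2 ^ (w.length + K + 1) + 1) * (F (pairBits w r)).2) ∧
      (∀ w : List Bool, w ∉ A →
        2 ^ (w.length + K) * Nat.card {r : List Bool // r.length = p.eval w.length ∧
          ¬ (3 ≤ minLen (F (pairBits w r)).1 (F (pairBits w r)).2 ∧
            3 * (F (pairBits w r)).2 ≤ (F (pairBits w r)).1 *
              minDen (F (pairBits w r)).1 (F (pairBits w r)).2)} ≤ 2 ^ (p.eval w.length)) := by
  obtain ⟨F, p, hF, h⟩ := reduction_poly hA K
  exact ⟨F, p, polyTime_bits hF, h⟩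

end Pool.Agent.H591R2.Egy
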