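import Pool.Agent.H591R2.Egy.Par
import Pool.Agent.H671R2.SubsetSum
import Pool.Agent.H671R2.Search

/-!
# Hardness of optimal Egyptian fractions
-/

namespace Pool.Agent.H591R2.Egy

open NPC H622R2

/-- The class `RP`: randomised polynomial-time algorithms (the random bits are a second input) which
never accept a nonmember and accept every member with probability at least `1/2`. -/
def InRP (A : Set (List Bool)) : Prop :=
  ∃ (V : List Bool → List Bool) (p : Polynomial ℕ), PolyTime V ∧ ∀ w : List Bool,
    (w ∉ A → ∀ r : List Bool, r.length = p.eval w.length → V (pairBits w r) ≠ [true]) ∧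
    (w ∈ A → 2 ^ (p.eval w.length) ≤ 2 * Nat.card {r : List Bool //
      r.length = p.eval w.length ∧ V (pairBits w r) = [true]})

/-- The class `coRP`: randomised polynomial-time algorithms which accept every member always and
accept every nonmember with probability at most `1/2`. -/
def InCoRP (A : Set (List Bool)) : Prop :=
  ∃ (V : List Bool → List Bool) (p : Polynomial ℕ), PolyTime V ∧ ∀ w : List Bool,
    (w ∈ A → ∀ r : List Bool, r.length = p.eval w.length → V (pairBits w r) = [true]) ∧
    (w ∉ A → 2 * Nat.card {r : List Bool //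
      r.length = p.eval w.length ∧ V (pairBits w r) = [true]} ≤ 2 ^ (p.eval w.length))

/-- The size parameter. -/
noncomputable def NP (P : Polynomial ℕ) (K : ℕ) : Polynomial ℕ :=
  Polynomial.C 3 * P + Polynomial.X + Polynomial.C (K + 20)

/-- The number of random bits. -/
noncomputable def rP (P : Polynomial ℕ) (K : ℕ) : Polynomial ℕ :=
  (Polynomial.C 96 * NP P K ^ 3 + Polynomial.C 4 * NP P K + Polynomial.C 16) * NP P K

theorem rP_eval (P : Polynomial ℕ) (K n : ℕ) :
    (rP P K).eval n = bb ((NP P K).eval n) * (NP P K).eval n := by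
  simp [rP, bb]

theorem sum_lt_sz (l : List ℕ) : l.sum < 2 ^ sz l := by
  induction l with
  | nil => simp
  | cons a l ih =>
    rw [List.sum_cons, sz_list_cons]
    have h1 : a < 2 ^ sz a := by
      have h2 := size_le_sz a
      calc a < 2 ^ a.size := Nat.lt_size_self a
        _ ≤ 2 ^ sz a := Nat.pow_le_pow_right (by norm_num) (by omega)
    have h3 : 2 ^ sz a ≤ 2 ^ (sz a + sz l) := Nat.pow_le_pow_right (by norm_num) (by omega)
    have h4 : 2 ^ sz l ≤ 2 ^ (sz a + sz l) := Nat.pow_le_pow_right (by norm_num) (by omega)
    have h5 : 2 ^ (sz a + sz l + 1) = 2 ^ (sz a + sz l) + 2 ^ (sz a + sz l) := by ring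
    omega

theorem ok_of_sz {N : ℕ} (x : List ℕ × ℕ) (hN : 20 ≤ N) (h : 3 * sz x ≤ N) : Ok N x := by
  obtain ⟨a, t⟩ := x
  rw [sz_pair] at h
  have h1 := length_lt_sz a
  refine ⟨hN, by simp only; omega, ?_⟩
  simp only
  have h2 := sum_lt_sz a
  have h3 : t < 2 ^ sz t := by
    have h2 := size_le_sz t
    calc t < 2 ^ t.size := Nat.lt_size_self t
      _ ≤ 2 ^ sz t := Nat.pow_le_pow_right (by norm_num) (by omega)
  have h4 : 2 ^ sz a ≤ 2 ^ (sz a + sz t) := Nat.pow_le_pow_right (by norm_num) (by omega)
  have h5 : 2 ^ sz t ≤ 2 ^ (sz a + sz t) := Nat.pow_le_pow_right (by norm_num) (by omega)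
  have h6 : 2 ^ (sz a + sz t + 1) = 2 ^ (sz a + sz t) + 2 ^ (sz a + sz t) := by ring
  have h7 : 2 ^ (sz a + sz t + 1) ≤ 2 ^ (2 * N) := Nat.pow_le_pow_right (by norm_num) (by omega)
  omega

/-- The reduction, as a typed polynomial-time function. -/
theorem reduction_poly {A : Set (List Bool)} (hA : InNP A) (K : ℕ) :
    ∃ (F : List Bool → ℕ × ℕ) (p : Polynomial ℕ), Poly F ∧
      (∀ w r : List Bool, 0 < (F (pairBits w r)).1 ∧ (F (pairBits w r)).1 < (F (pairBits w r)).2) ∧
      (∀ w r : List Bool, w ∈ A →
        minLen (F (pairBits w r)).1 (F (pairBits w r)).2 ≤ 2 ∧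
        2 ^ (w.length + K) * ((F (pairBits w r)).1 *
          minDen (F (pairBits w r)).1 (F (pairBits w r)).2) ≤
          (2 ^ (w.length + K + 1) + 1) * (F (pairBits w r)).2) ∧
      (∀ w : List Bool, w ∉ A →
        2 ^ (w.length + K) * Nat.card {r : List Bool // r.length = p.eval w.length ∧
          ¬ (3 ≤ minLen (F (pairBits w r)).1 (F (pairBits w r)).2 ∧
            3 * (F (pairBits w r)).2 ≤ (F (pairBits w r)).1 *
              minDen (F (pairBits w r)).1 (F (pairBits w r)).2)} ≤ 2 ^ (p.eval w.length)) := by
  obtain ⟨f, hf, -, hfA⟩ := R671.SS.hardPr_SubsetSum A hA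
  obtain ⟨P, hP⟩ := PC.length_le hf
  set Nf : List Bool → ℕ := fun w => (NP P K).eval w.length with hNf
  have hN : ∀ w, 20 ≤ Nf w ∧ w.length + K ≤ Nf w ∧ 3 * sz (f w) ≤ Nf w := by
    intro w
    have h1 := hP w
    simp only [bits_length] at h1
    simp only [hNf, NP, Polynomial.eval_add, Polynomial.eval_mul, Polynomial.eval_C,
      Polynomial.eval_X]
    omega
  have hOk : ∀ w, Ok (Nf w) (f w) := fun w => ok_of_sz _ (hN w).1 (hN w).2.2
  have hfP : Poly f := PC.comp (g := f) (f := fun x => x) hf rawOut
  refine ⟨fun z => egyInst (Nf (unpair z).1) (f (unpair z).1) (valB (unpair z).2), rP P K,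
    ?_, ?_, ?_, ?_⟩
  · have h1 : Poly (fun z : List Bool =>
        ((List.replicate (Nf (unpair z).1) (), f (unpair z).1), (unpair z).2)) := by
      refine NPC.Poly.pair (NPC.Poly.pair ?_ ?_) ?_
      · exact UPoly.eval (UPoly.length (NPC.Poly.fst poly_unpair)) _
      · exact hfP.comp (NPC.Poly.fst poly_unpair)
      · exact NPC.Poly.snd poly_unpair
    refine (poly_egyInst.comp h1).congr fun z => ?_
    simp
  · intro w r
    simp only [unpair_pairBits]
    have := inst_lt (hN w).1 (f w) (valB r)
    exact ⟨by omega, this.2⟩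
  · intro w r hw
    simp only [unpair_pairBits]
    have h1 : SubSum (f w) := (hfA w).1 hw
    obtain ⟨h2, h3⟩ := yes_inst (hOk w) h1 (valB r)
    refine ⟨h2, ?_⟩
    set X := (egyInst (Nf w) (f w) (valB r)).1
    set Y := (egyInst (Nf w) (f w) (valB r)).2
    obtain ⟨d, hd⟩ := Nat.exists_eq_add_of_le (hN w).2.1
    rw [hd] at h3
    have h4 : 2 ^ d * (2 ^ (w.length + K) * (X * minDen X Y)) ≤
        2 ^ d * ((2 ^ (w.length + K + 1) + 1) * Y) := by
      calc 2 ^ d * (2 ^ (w.length + K) * (X * minDen X Y))
          = 2 ^ (w.length + K + d) * (X * minDen X Y) := by rw [pow_add 2 (w.length + K) d]; ring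
        _ ≤ (2 ^ (w.length + K + d + 1) + 1) * Y := h3
        _ ≤ (2 ^ d * (2 ^ (w.length + K + 1) + 1)) * Y := by
            refine Nat.mul_le_mul_right _ ?_
            have : 1 ≤ 2 ^ d := Nat.one_le_two_pow
            have e : 2 ^ (w.length + K + d + 1) = 2 ^ d * 2 ^ (w.length + K + 1) := by
              rw [← pow_add]; congr 1; ring
            rw [e, Nat.mul_add]
            omega
        _ = 2 ^ d * ((2 ^ (w.length + K + 1) + 1) * Y) := by ring
    exact Nat.le_of_mul_le_mul_left h4 (by positivity)
  · intro w hw
    have h1 : ¬ SubSum (f w) := fun h => hw ((hfA w).2 h)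
    have h2 := no_inst (hOk w) h1
    simp only [unpair_pairBits]
    rw [rP_eval]
    refine le_trans (Nat.mul_le_mul_right _ ?_) h2
    exact Nat.pow_le_pow_right (by norm_num) (hN w).2.1

/-- The complement of a `coRP` language is in `NP`. -/
theorem InCoRP.compl_inNP {A : Set (List Bool)} (h : InCoRP A) : InNP Aᶜ := by
  obtain ⟨V, p, hV, hV'⟩ := h
  have hVp : Poly V := poly_of_polyTime hV
  set V' : List Bool → Bool := fun z => decide ((unpair z).2.length = p.eval (unpair z).1.length) &&
    decide (¬ V z = [true]) with hV'def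
  have h1 : Poly V' := by
    refine NPC.Poly.and (NPC.Poly.dec_eq (NPC.Poly.length (NPC.Poly.snd poly_unpair))
      (UPoly.toPoly (UPoly.eval (UPoly.length (NPC.Poly.fst poly_unpair)) _))) ?_
    exact NPC.Poly.decide_not (NPC.Poly.dec_eq hVp (NPC.Poly.const _))
  refine ⟨fun z => [V' z], p, polyTime_of_poly h1, fun w => ?_⟩
  constructor
  · intro hw
    have h2 := (hV' w).2 hw
    by_contra hcon
    push Not at hcon
    have h3 : ∀ r : List Bool, r.length = p.eval w.length → V (pairBits w r) = [true] := by
      intro r hr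
      have h4 := hcon r hr.le
      simp only [hV'def, unpair_pairBits, hr, decide_true, Bool.true_and] at h4
      by_contra h5
      exact h4 (by simp [h5])
    have h4 : Nat.card {r : List Bool // r.length = p.eval w.length ∧
        V (pairBits w r) = [true]} = 2 ^ (p.eval w.length) := by
      have h5 : Nat.card {r : List Bool // r.length = p.eval w.length ∧
        V (pairBits w r) = [true]} = Nat.card {r : List Bool // r.length = p.eval w.length} :=
        Nat.card_congr (Equiv.subtypeEquivRight fun r => ⟨fun h => h.1, fun h => ⟨h, h3 r h⟩⟩)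
      rw [h5]
      have h6 : Nat.card (List.Vector Bool (p.eval w.length)) = 2 ^ (p.eval w.length) := by
        rw [Nat.card_eq_fintype_card, card_vector, Fintype.card_bool]
      exact h6
    rw [h4] at h2
    have : 0 < 2 ^ (p.eval w.length) := by positivity
    omega
  · rintro ⟨r, -, hr⟩ hw
    simp only [hV'def, unpair_pairBits, List.cons.injEq, and_true, Bool.and_eq_true,
      decide_eq_true_eq] at hr
    exact hr.2 ((hV' w).1 hw r hr.1)

/-- Swapping the answers. -/
theorem InCoRP.compl_inRP {A : Set (List Bool)} (h : InCoRP Aᶜ) : InRP A := by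
  obtain ⟨V, p, hV, hV'⟩ := h
  have hVp : Poly V := poly_of_polyTime hV
  have h1 : Poly (fun z => decide (¬ V z = [true])) :=
    NPC.Poly.decide_not (NPC.Poly.dec_eq hVp (NPC.Poly.const _))
  refine ⟨fun z => [decide (¬ V z = [true])], p, polyTime_of_poly h1, fun w => ⟨?_, ?_⟩⟩
  · intro hw r hr h2
    have h3 := (hV' w).1 hw r hr
    simp [h3] at h2
  · intro hw
    have h2 := (hV' w).2 (by simpa using hw)
    have hfin : Finite {r : List Bool // r.length = p.eval w.length} :=
      inferInstanceAs (Finite (List.Vector Bool (p.eval w.length)))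
    have h6 : Nat.card {r : List Bool // r.length = p.eval w.length} = 2 ^ (p.eval w.length) := by
      have h6 : Nat.card (List.Vector Bool (p.eval w.length)) = 2 ^ (p.eval w.length) := by
        rw [Nat.card_eq_fintype_card, card_vector, Fintype.card_bool]
      exact h6
    have h7 : Nat.card {r : List Bool // r.length = p.eval w.length} =
        Nat.card {r : List Bool // r.length = p.eval w.length ∧ V (pairBits w r) = [true]} +
        Nat.card {r : List Bool // r.length = p.eval w.length ∧
          [decide (¬ V (pairBits w r) = [true])] = [true]} := by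
      classical
      have := Fintype.ofFinite {r : List Bool // r.length = p.eval w.length}
      have e1 : Nat.card {r : List Bool // r.length = p.eval w.length ∧
          V (pairBits w r) = [true]} = Nat.card {r : {r : List Bool // r.length = p.eval w.length} //
          V (pairBits w r.1) = [true]} :=
        Nat.card_congr (Equiv.subtypeSubtypeEquivSubtypeInter
          (fun r : List Bool => r.length = p.eval w.length)
          (fun r => V (pairBits w r) = [true])).symm
      have e2 : Nat.card {r : List Bool // r.length = p.eval w.length ∧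
          [decide (¬ V (pairBits w r) = [true])] = [true]} =
          Nat.card {r : {r : List Bool // r.length = p.eval w.length} //
          ¬ V (pairBits w r.1) = [true]} := by
        refine (Nat.card_congr (Equiv.subtypeSubtypeEquivSubtypeInter
          (fun r : List Bool => r.length = p.eval w.length)
          (fun r => [decide (¬ V (pairBits w r) = [true])] = [true])).symm).trans ?_
        refine Nat.card_congr (Equiv.subtypeEquivRight fun r => ?_)
        simp
      rw [e1, e2, ← Nat.card_sum]
      exact Nat.card_congr (Equiv.sumCompl _).symm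
    change _ ≤ 2 * Nat.card {r : List Bool // r.length = p.eval w.length ∧
          [decide (¬ V (pairBits w r) = [true])] = [true]}
    omega

end Pool.Agent.H591R2.Egy
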