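import Pool.Agent.H591R2.Egy.Defs2

/-!
# Egyptian fractions: the congruence
-/

namespace Pool.Agent.H591R2.Egy

open Finset

theorem coprime_nf {c : Fin 3} {r a b : ℕ} (hr : Nat.Coprime r 3) (ha : Nat.Coprime a 3)
    (hb : Nat.Coprime b 3) : Nat.Coprime (nf c r a b) 3 := by
  unfold nf
  split_ifs
  · exact ha
  · exact hr
  · exact Nat.Coprime.mul_left ha (hb.pow_left 2)

theorem pr_cast {N κ : ℕ} (r : Fin N → ℕ)
    (hpm : ∀ i, r i % 3 ^ κ = 1 ∨ r i % 3 ^ κ = 3 ^ κ - 1) (c : Fin 3) (τ : Fin N → Fin 3) :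
    ((pr c τ r : ℕ) : ZMod (3 ^ κ)) = 1 ∨ ((pr c τ r : ℕ) : ZMod (3 ^ κ)) = -1 := by
  unfold pr
  rw [Nat.cast_prod]
  refine Finset.prod_induction (M := ZMod (3 ^ κ)) _ (fun x => x = 1 ∨ x = -1) ?_ (Or.inl rfl) ?_
  · rintro x y (rfl | rfl) (rfl | rfl) <;> simp
  · intro i _
    split_ifs
    · have h3 : 0 < 3 ^ κ := by positivity
      rcases hpm i with h | h
      · left
        rw [← ZMod.natCast_mod, h]
        simp
      · right
        rw [← ZMod.natCast_mod, h, Nat.cast_sub h3, ZMod.natCast_self]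
        simp
    · left
      simp

theorem small {N κ B : ℕ} (r : Fin N → ℕ)
    (hpm : ∀ i, r i % 3 ^ κ = 1 ∨ r i % 3 ^ κ = 3 ^ κ - 1)
    (hno : NoSol ((3 ^ κ) ^ 2) r) (hQ : 2 * B ^ (3 * N) < 3 ^ κ) (τ : Fin N → Fin 3)
    (p : Fin N → ℕ × ℕ) (hp : ∀ i, 0 < (p i).1 ∧ 0 < (p i).2)
    (hcop : ∀ i, Nat.Coprime (p i).1 3 ∧ Nat.Coprime (p i).2 3)
    (hB : ∀ i, (p i).1 ≤ B ∧ (p i).2 ≤ B) : ¬ Cong ((3 ^ κ) ^ 2) τ r p := by
  intro hC
  set X : ℕ := ∏ i, if τ i = 1 then 1 else if τ i = 0 then (p i).1 else (p i).1 * (p i).2 ^ 2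
    with hX
  set Y : ℕ := ∏ i, if τ i = 2 then 1 else if τ i = 0 then (p i).2 else (p i).1 * (p i).2 ^ 2
    with hY
  have h3 : ∀ c : Fin 3, c = 0 ∨ c = 1 ∨ c = 2 := by decide
  have e1 : (∏ i, nf (τ i) (r i) (p i).1 (p i).2) = pr 1 τ r * X := by
    rw [hX, pr, ← prod_mul_distrib]
    apply prod_congr rfl
    intro i _
    unfold nf
    rcases h3 (τ i) with h | h | h <;> simp [h]
  have e2 : (∏ i, df (τ i) (r i) (p i).1 (p i).2) = pr 2 τ r * Y := by
    rw [hY, pr, ← prod_mul_distrib]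
    apply prod_congr rfl
    intro i _
    unfold df
    rcases h3 (τ i) with h | h | h <;> simp [h]
  unfold Cong at hC
  rw [e1, e2] at hC
  have hX0 : 0 < X := by
    rw [hX]
    apply prod_pos
    intro i _
    have := hp i
    split_ifs
    · exact one_pos
    · exact this.1
    · exact Nat.mul_pos this.1 (pow_pos this.2 2)
  have hY0 : 0 < Y := by
    rw [hY]
    apply prod_pos
    intro i _
    have := hp i
    split_ifs
    · exact one_pos
    · exact this.2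
    · exact Nat.mul_pos this.1 (pow_pos this.2 2)
  have hfac : ∀ i, 1 ≤ B ^ 3 ∧ (p i).1 ≤ B ^ 3 ∧ (p i).2 ≤ B ^ 3 ∧
      (p i).1 * (p i).2 ^ 2 ≤ B ^ 3 := by
    intro i
    have h1 := hp i
    have h2 := hB i
    have hB1 : 1 ≤ B := by omega
    have hBB : B ≤ B ^ 3 := Nat.le_self_pow (by norm_num) B
    refine ⟨hB1.trans hBB, h2.1.trans hBB, h2.2.trans hBB, ?_⟩
    calc (p i).1 * (p i).2 ^ 2 ≤ B * B ^ 2 :=
          Nat.mul_le_mul h2.1 (Nat.pow_le_pow_left h2.2 2)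
      _ = B ^ 3 := by ring
  have hXB : X ≤ B ^ (3 * N) := by
    calc X ≤ ∏ _i : Fin N, B ^ 3 := by
          rw [hX]
          apply prod_le_prod' 
          intro i _
          have := hfac i
          split_ifs
          · exact this.1
          · exact this.2.1
          · exact this.2.2.2
      _ = B ^ (3 * N) := by
          rw [prod_const, card_univ, Fintype.card_fin, ← pow_mul]
  have hYB : Y ≤ B ^ (3 * N) := by
    calc Y ≤ ∏ _i : Fin N, B ^ 3 := by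
          rw [hY]
          apply prod_le_prod'
          intro i _
          have := hfac i
          split_ifs
          · exact this.1
          · exact this.2.2.1
          · exact this.2.2.2
      _ = B ^ (3 * N) := by
          rw [prod_const, card_univ, Fintype.card_fin, ← pow_mul]
  have hC' : (3 ^ κ) ∣ pr 1 τ r * X + pr 2 τ r * Y :=
    (dvd_pow_self _ (by norm_num)).trans hC
  have hZ : ((pr 1 τ r : ℕ) : ZMod (3 ^ κ)) * X + ((pr 2 τ r : ℕ) : ZMod (3 ^ κ)) * Y = 0 := by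
    have := (ZMod.natCast_eq_zero_iff (pr 1 τ r * X + pr 2 τ r * Y) (3 ^ κ)).2 hC'
    push_cast at this
    exact this
  have hcase : ((X : ℕ) : ZMod (3 ^ κ)) = Y ∨ ((X + Y : ℕ) : ZMod (3 ^ κ)) = 0 := by
    rcases pr_cast r hpm 1 τ with h1 | h1 <;> rcases pr_cast r hpm 2 τ with h2 | h2 <;>
      rw [h1, h2] at hZ
    · right
      push_cast
      rw [one_mul, one_mul] at hZ
      exact hZ
    · left
      rw [one_mul, neg_mul, one_mul, ← sub_eq_add_neg] at hZ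
      exact sub_eq_zero.1 hZ
    · left
      rw [one_mul, neg_mul, one_mul, neg_add_eq_sub] at hZ
      exact (sub_eq_zero.1 hZ).symm
    · right
      push_cast
      rw [neg_mul, neg_mul, one_mul, one_mul, ← neg_add, neg_eq_zero] at hZ
      exact hZ
  have hXY : X = Y := by
    rcases hcase with h | h
    · rw [ZMod.natCast_eq_natCast_iff] at h
      exact Nat.ModEq.eq_of_lt_of_lt h (by omega) (by omega)
    · rw [ZMod.natCast_eq_zero_iff] at h
      have := Nat.le_of_dvd (by omega) h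
      omega
  rw [← hXY, ← add_mul] at hC
  have hXcop : Nat.Coprime X 3 := by
    rw [hX]
    apply Nat.Coprime.prod_left
    intro i _
    split_ifs
    · exact Nat.coprime_one_left 3
    · exact (hcop i).1
    · exact Nat.Coprime.mul_left (hcop i).1 ((hcop i).2.pow_left 2)
  have hcopq : Nat.Coprime ((3 ^ κ) ^ 2) X := by
    rw [← pow_mul]
    exact (hXcop.symm).pow_left _
  exact hno τ (hcopq.dvd_of_dvd_mul_right hC)

theorem prod_update {N : ℕ} (g : Fin N → ℕ × ℕ → ℕ) (p : Fin N → ℕ × ℕ) (i₀ : Fin N)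
    (x : ℕ × ℕ) : ∏ i, g i (Function.update p i₀ x i) =
      g i₀ x * ∏ i ∈ univ.erase i₀, g i (p i) := by
  rw [← mul_prod_erase univ _ (mem_univ i₀), Function.update_self]
  congr 1
  apply prod_congr rfl
  intro i hi
  rw [Function.update_of_ne (ne_of_mem_erase hi)]

theorem isUnit_cast {κ a : ℕ} (ha : Nat.Coprime a 3) : IsUnit ((a : ℕ) : ZMod ((3 ^ κ) ^ 2)) := by
  rw [ZMod.isUnit_iff_coprime, ← pow_mul]
  exact ha.pow_right _

theorem cross {N κ : ℕ} (r : Fin N → ℕ) (hr : ∀ i, Nat.Coprime (r i) 3) (τ : Fin N → Fin 3)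
    (p : Fin N → ℕ × ℕ) (hcop : ∀ i, Nat.Coprime (p i).1 3 ∧ Nat.Coprime (p i).2 3)
    (i₀ : Fin N) (x x' : ℕ × ℕ)
    (h : Cong ((3 ^ κ) ^ 2) τ r (Function.update p i₀ x))
    (h' : Cong ((3 ^ κ) ^ 2) τ r (Function.update p i₀ x')) :
    ((nf (τ i₀) (r i₀) x.1 x.2 : ℕ) : ZMod ((3 ^ κ) ^ 2)) *
        ((df (τ i₀) (r i₀) x'.1 x'.2 : ℕ) : ZMod ((3 ^ κ) ^ 2)) =
      ((nf (τ i₀) (r i₀) x'.1 x'.2 : ℕ) : ZMod ((3 ^ κ) ^ 2)) *
        ((df (τ i₀) (r i₀) x.1 x.2 : ℕ) : ZMod ((3 ^ κ) ^ 2)) := by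
  unfold Cong at h h'
  rw [prod_update (fun i y => nf (τ i) (r i) y.1 y.2) p i₀ x,
    prod_update (fun i y => df (τ i) (r i) y.1 y.2) p i₀ x] at h
  rw [prod_update (fun i y => nf (τ i) (r i) y.1 y.2) p i₀ x',
    prod_update (fun i y => df (τ i) (r i) y.1 y.2) p i₀ x'] at h'
  rw [← ZMod.natCast_eq_zero_iff] at h h'
  push_cast [Nat.cast_add, Nat.cast_mul] at h h'
  have hA : IsUnit (((∏ i ∈ univ.erase i₀, nf (τ i) (r i) (p i).1 (p i).2 : ℕ)) :
      ZMod ((3 ^ κ) ^ 2)) := by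
    apply isUnit_cast
    apply Nat.Coprime.prod_left
    intro i _
    exact coprime_nf (hr i) (hcop i).1 (hcop i).2
  push_cast at hA
  apply hA.mul_right_cancel
  linear_combination ((df (τ i₀) (r i₀) x'.1 x'.2 : ℕ) : ZMod ((3 ^ κ) ^ 2)) * h -
    ((df (τ i₀) (r i₀) x.1 x.2 : ℕ) : ZMod ((3 ^ κ) ^ 2)) * h'

theorem vary1 {N κ : ℕ} (r : Fin N → ℕ) (hr : ∀ i, Nat.Coprime (r i) 3) (τ : Fin N → Fin 3)
    (p : Fin N → ℕ × ℕ) (hcop : ∀ i, Nat.Coprime (p i).1 3 ∧ Nat.Coprime (p i).2 3)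
    (i₀ : Fin N) {a b a' : ℕ} (ha : Nat.Coprime a 3) (hb : Nat.Coprime b 3)
    (ha' : Nat.Coprime a' 3)
    (h : Cong ((3 ^ κ) ^ 2) τ r (Function.update p i₀ (a, b)))
    (h' : Cong ((3 ^ κ) ^ 2) τ r (Function.update p i₀ (a', b))) :
    a ^ 2 ≡ a' ^ 2 [MOD (3 ^ κ) ^ 2] := by
  have hx := cross r hr τ p hcop i₀ (a, b) (a', b) h h'
  have key : ((a : ℕ) : ZMod ((3 ^ κ) ^ 2)) = a' := by
    have hub := isUnit_cast (κ := κ) hb
    have hur := isUnit_cast (κ := κ) (hr i₀)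
    have h3 : ∀ c : Fin 3, c = 0 ∨ c = 1 ∨ c = 2 := by decide
    rcases h3 (τ i₀) with h0 | h0 | h0
    · simp only [nf, df, h0, if_true] at hx
      exact hub.mul_right_cancel hx
    · simp [nf, df, h0] at hx
      have h5 := hur.mul_left_cancel hx
      exact ((hub.pow 2).mul_right_cancel h5).symm
    · simp [nf, df, h0] at hx
      have h5 := hur.mul_right_cancel hx
      exact (hub.pow 2).mul_right_cancel h5
  rw [← ZMod.natCast_eq_natCast_iff]
  push_cast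
  rw [key]

theorem vary2 {N κ : ℕ} (r : Fin N → ℕ) (hr : ∀ i, Nat.Coprime (r i) 3) (τ : Fin N → Fin 3)
    (p : Fin N → ℕ × ℕ) (hcop : ∀ i, Nat.Coprime (p i).1 3 ∧ Nat.Coprime (p i).2 3)
    (i₀ : Fin N) {a b b' : ℕ} (ha : Nat.Coprime a 3) (hb : Nat.Coprime b 3)
    (hb' : Nat.Coprime b' 3)
    (h : Cong ((3 ^ κ) ^ 2) τ r (Function.update p i₀ (a, b)))
    (h' : Cong ((3 ^ κ) ^ 2) τ r (Function.update p i₀ (a, b'))) :
    b ^ 2 ≡ b' ^ 2 [MOD (3 ^ κ) ^ 2] := by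
  have hx := cross r hr τ p hcop i₀ (a, b) (a, b') h h'
  have key : ((b : ℕ) : ZMod ((3 ^ κ) ^ 2)) ^ 2 = (b' : ZMod ((3 ^ κ) ^ 2)) ^ 2 := by
    have hua := isUnit_cast (κ := κ) ha
    have hur := isUnit_cast (κ := κ) (hr i₀)
    have h3 : ∀ c : Fin 3, c = 0 ∨ c = 1 ∨ c = 2 := by decide
    rcases h3 (τ i₀) with h0 | h0 | h0
    · simp only [nf, df, h0, if_true] at hx
      rw [hua.mul_left_cancel hx]
    · simp [nf, df, h0] at hx
      have h5 := hur.mul_left_cancel hx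
      exact (hua.mul_left_cancel h5).symm
    · simp [nf, df, h0] at hx
      have h5 := hur.mul_right_cancel hx
      exact hua.mul_left_cancel h5
  rw [← ZMod.natCast_eq_natCast_iff]
  push_cast
  exact key

end Pool.Agent.H591R2.Egy
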