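import Pool.Agent.H591R2.Egy.Defs2

/-!
# Sums of reciprocals and counting
-/

namespace Pool.Agent.H591R2.Egy

open Finset

theorem harm (b : ℕ) : ∑ z ∈ Finset.Icc (1 : ℕ) (2 ^ b), (1 : ℚ) / (z : ℚ) ≤ b + 1 := by
  induction b with
  | zero => simp
  | succ b ih =>
    have h1 : (2 : ℕ) ^ b ≤ 2 ^ (b + 1) := Nat.pow_le_pow_right (by norm_num) (by omega)
    have h0 : 1 ≤ (2 : ℕ) ^ b := Nat.one_le_pow _ _ (by norm_num)
    have h2 : Finset.Icc (1 : ℕ) (2 ^ (b + 1)) =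
        Finset.Icc 1 (2 ^ b) ∪ Finset.Ioc (2 ^ b) (2 ^ (b + 1)) := by
      ext z
      simp only [Finset.mem_union, Finset.mem_Icc, Finset.mem_Ioc]
      omega
    have h3 : Disjoint (Finset.Icc (1 : ℕ) (2 ^ b)) (Finset.Ioc (2 ^ b) (2 ^ (b + 1))) := by
      rw [Finset.disjoint_left]
      intro z hz hz'
      simp only [Finset.mem_Icc, Finset.mem_Ioc] at hz hz'
      omega
    rw [h2, Finset.sum_union h3]
    have h4 : ∑ z ∈ Finset.Ioc ((2 : ℕ) ^ b) (2 ^ (b + 1)), (1 : ℚ) / (z : ℚ) ≤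
        ∑ z ∈ Finset.Ioc ((2 : ℕ) ^ b) (2 ^ (b + 1)), 1 / (2 : ℚ) ^ b := by
      refine Finset.sum_le_sum fun z hz => ?_
      rw [Finset.mem_Ioc] at hz
      have : (2 : ℚ) ^ b ≤ z := by exact_mod_cast hz.1.le
      exact one_div_le_one_div_of_le (by positivity) this
    have h5 : ∑ z ∈ Finset.Ioc ((2 : ℕ) ^ b) (2 ^ (b + 1)), 1 / (2 : ℚ) ^ b = 1 := by
      rw [Finset.sum_const, Nat.card_Ioc, nsmul_eq_mul]
      have : (2 : ℕ) ^ (b + 1) - 2 ^ b = 2 ^ b := by rw [pow_succ]; omega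
      rw [this]
      push_cast
      field_simp
    push_cast
    linarith

/-- one residue class -/
theorem classSum1 {b q B : ℕ} (hq : 0 < q) (hB : B ≤ q) (S : Finset ℕ)
    (hS : ∀ z ∈ S, B < z ∧ z ≤ 2 ^ b) (hc : ∀ z ∈ S, ∀ z' ∈ S, z ≡ z' [MOD q]) :
    (∑ z ∈ S, (1 : ℚ) / z) * B ≤ b + 2 := by
  classical
  -- `z ↦ z / q` is injective on `S`
  have hinj : Set.InjOn (fun z => z / q) (S : Set ℕ) := by
    intro z hz z' hz' h
    have h1 := hc z hz z' hz'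
    simp only at h
    rw [← Nat.div_add_mod z q, ← Nat.div_add_mod z' q, h, h1]
  have h1 : ∀ z ∈ S, (1 : ℚ) / z * B ≤ if z / q = 0 then 1 else 1 / ((z / q : ℕ) : ℚ) := by
    intro z hz
    have hz1 := hS z hz
    have hzpos : (0 : ℚ) < z := by exact_mod_cast (by omega : 0 < z)
    split_ifs with h0
    · rw [div_mul_eq_mul_div, one_mul, div_le_one hzpos]
      exact_mod_cast hz1.1.le
    · have h2 : (0 : ℚ) < ((z / q : ℕ) : ℚ) := by exact_mod_cast Nat.pos_of_ne_zero h0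
      rw [div_mul_eq_mul_div, one_mul, div_le_div_iff₀ hzpos h2, one_mul]
      have h3 : B * (z / q) ≤ z :=
        (Nat.mul_le_mul_right _ hB).trans (Nat.mul_div_le z q)
      exact_mod_cast h3
  rw [Finset.sum_mul]
  refine (Finset.sum_le_sum h1).trans ?_
  have h2 : ∑ z ∈ S, (if z / q = 0 then (1 : ℚ) else 1 / ((z / q : ℕ) : ℚ)) =
      ∑ j ∈ S.image (fun z => z / q), (if j = 0 then (1 : ℚ) else 1 / (j : ℚ)) := by
    rw [Finset.sum_image hinj]
  rw [h2]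
  have h3 : S.image (fun z => z / q) ⊆ insert 0 (Finset.Icc 1 (2 ^ b)) := by
    intro j hj
    rw [Finset.mem_image] at hj
    obtain ⟨z, hz, rfl⟩ := hj
    rw [Finset.mem_insert, Finset.mem_Icc]
    have := (hS z hz).2
    have h4 : z / q ≤ z := Nat.div_le_self _ _
    rcases Nat.eq_zero_or_pos (z / q) with h5 | h5
    · exact Or.inl h5
    · exact Or.inr ⟨h5, h4.trans this⟩
  refine (Finset.sum_le_sum_of_subset_of_nonneg h3 (fun j _ _ => ?_)).trans ?_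
  · split_ifs <;> positivity
  rw [Finset.sum_insert (by simp)]
  rw [if_pos rfl]
  have h5 : ∑ j ∈ Finset.Icc (1 : ℕ) (2 ^ b), (if j = 0 then (1 : ℚ) else 1 / (j : ℚ)) =
      ∑ z ∈ Finset.Icc (1 : ℕ) (2 ^ b), (1 : ℚ) / (z : ℚ) := by
    refine Finset.sum_congr rfl fun j hj => ?_
    rw [Finset.mem_Icc] at hj
    rw [if_neg (by omega)]
  rw [h5]
  have := harm b
  linarith

theorem classSum {b κ B : ℕ} (hB : B ≤ (3 ^ κ) ^ 2) (S : Finset ℕ)
    (hS : ∀ z ∈ S, B < z ∧ z ≤ 2 ^ b ∧ Nat.Coprime z 3)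
    (hc : ∀ z ∈ S, ∀ z' ∈ S, z ^ 2 ≡ z' ^ 2 [MOD (3 ^ κ) ^ 2]) :
    (∑ z ∈ S, (1 : ℚ) / z) * B ≤ 2 * (b + 2) := by
  classical
  rcases S.eq_empty_or_nonempty with rfl | ⟨z₁, hz₁⟩
  · simp only [Finset.sum_empty, zero_mul]
    positivity
  have hq : 0 < (3 ^ κ) ^ 2 := by positivity
  have hqe : (3 ^ κ) ^ 2 = 3 ^ (κ * 2) := by rw [← pow_mul]
  have key : ∀ z ∈ S, ((3 ^ κ) ^ 2 : ℕ) ∣ (z + z₁) ∨ z ≡ z₁ [MOD (3 ^ κ) ^ 2] := by
    intro z hz
    have h1 := hc z hz z₁ hz₁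
    have h2 : (((3 ^ κ) ^ 2 : ℕ) : ℤ) ∣ ((z : ℤ) - z₁) * (z + z₁) := by
      have := (Nat.modEq_iff_dvd.1 h1.symm)
      push_cast at this ⊢
      have h3 : ((z : ℤ) - z₁) * (z + z₁) = (z : ℤ) ^ 2 - (z₁ : ℤ) ^ 2 := by ring
      rw [h3]
      exact this
    have h3 : ¬ (3 : ℤ) ∣ ((z : ℤ) - z₁) ∨ ¬ (3 : ℤ) ∣ ((z : ℤ) + z₁) := by
      by_contra hcon
      push Not at hcon
      have h4 : (3 : ℤ) ∣ 2 * z := by
        have := dvd_add hcon.1 hcon.2
        have e : (z : ℤ) - z₁ + (z + z₁) = 2 * z := by ring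
        rwa [e] at this
      have h5 : ¬ 3 ∣ z := by
        have := (hS z hz).2.2
        rwa [Nat.coprime_comm, Nat.Prime.coprime_iff_not_dvd (by norm_num)] at this
      omega
    rcases h3 with h3 | h3
    · left
      have h4 : IsCoprime (((3 ^ κ) ^ 2 : ℕ) : ℤ) ((z : ℤ) - z₁) := by
        rw [hqe]
        push_cast
        refine IsCoprime.pow_left ?_
        exact (Int.prime_three.coprime_iff_not_dvd).2 h3
      have h5 := h4.dvd_of_dvd_mul_left h2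
      exact_mod_cast h5
    · right
      have h4 : IsCoprime (((3 ^ κ) ^ 2 : ℕ) : ℤ) ((z : ℤ) + z₁) := by
        rw [hqe]
        push_cast
        refine IsCoprime.pow_left ?_
        exact (Int.prime_three.coprime_iff_not_dvd).2 h3
      have h5 := h4.dvd_of_dvd_mul_right h2
      exact (Nat.modEq_iff_dvd.2 h5).symm
  set S1 := S.filter (fun z => z ≡ z₁ [MOD (3 ^ κ) ^ 2]) with hS1
  set S2 := S.filter (fun z => ¬ z ≡ z₁ [MOD (3 ^ κ) ^ 2]) with hS2
  have h1 := classSum1 (b := b) hq hB S1 (fun z hz => by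
      rw [hS1, Finset.mem_filter] at hz
      exact ⟨(hS z hz.1).1, (hS z hz.1).2.1⟩) (fun z hz z' hz' => by
      rw [hS1, Finset.mem_filter] at hz hz'
      exact hz.2.trans hz'.2.symm)
  have h2 := classSum1 (b := b) hq hB S2 (fun z hz => by
      rw [hS2, Finset.mem_filter] at hz
      exact ⟨(hS z hz.1).1, (hS z hz.1).2.1⟩) (fun z hz z' hz' => by
      rw [hS2, Finset.mem_filter] at hz hz'
      have h3 := (key z hz.1).resolve_right hz.2
      have h4 := (key z' hz'.1).resolve_right hz'.2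
      have h5 : z + z₁ ≡ z' + z₁ [MOD (3 ^ κ) ^ 2] :=
        ((Nat.modEq_zero_iff_dvd.2 h3).trans (Nat.modEq_zero_iff_dvd.2 h4).symm)
      exact Nat.ModEq.add_right_cancel' _ h5)
  have h3 : ∑ z ∈ S, (1 : ℚ) / z = ∑ z ∈ S1, (1 : ℚ) / z + ∑ z ∈ S2, (1 : ℚ) / z := by
    rw [hS1, hS2, Finset.sum_filter_add_sum_filter_not]
  rw [h3, add_mul]
  linarith

theorem countT {b c q r H : ℕ} (hc : 0 < c) (hcA : c ≤ 2 ^ b) (hcop : Nat.Coprime c q) :
    Nat.card {t : Fin (2 ^ b) // c ∣ r + q * (H + (t : ℕ))} * c ≤ 2 * 2 ^ b := by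
  classical
  rw [Nat.card_eq_fintype_card, Fintype.card_subtype]
  -- the map `t ↦ t / c` is injective
  have h1 : (Finset.univ.filter fun t : Fin (2 ^ b) => c ∣ r + q * (H + (t : ℕ))).card ≤
      (Finset.range (2 ^ b / c + 1)).card := by
    refine Finset.card_le_card_of_injOn (fun t => (t : ℕ) / c) ?_ ?_
    · intro t _
      simp only [Finset.coe_range, Set.mem_Iio]
      have : (t : ℕ) / c ≤ 2 ^ b / c := Nat.div_le_div_right t.2.le
      omega
    · intro t ht t' ht' h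
      simp only [Finset.coe_filter, Finset.mem_univ, true_and, Set.mem_ofPred_eq] at ht ht'
      have h2 : q * (H + (t : ℕ)) ≡ q * (H + (t' : ℕ)) [MOD c] := by
        have h3 : r + q * (H + (t : ℕ)) ≡ r + q * (H + (t' : ℕ)) [MOD c] :=
          (Nat.modEq_zero_iff_dvd.2 ht).trans (Nat.modEq_zero_iff_dvd.2 ht').symm
        exact Nat.ModEq.add_left_cancel' _ h3
      have h4 : H + (t : ℕ) ≡ H + (t' : ℕ) [MOD c] :=
        Nat.ModEq.cancel_left_of_coprime hcop h2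
      have h5 : (t : ℕ) ≡ (t' : ℕ) [MOD c] := Nat.ModEq.add_left_cancel' _ h4
      simp only at h
      have h6 : (t : ℕ) = t' := by
        rw [← Nat.div_add_mod (t : ℕ) c, ← Nat.div_add_mod (t' : ℕ) c, h, h5]
      exact Fin.ext h6
  rw [Finset.card_range] at h1
  calc _ ≤ (2 ^ b / c + 1) * c := Nat.mul_le_mul_right _ h1
    _ = 2 ^ b / c * c + c := by ring
    _ ≤ 2 ^ b + 2 ^ b := add_le_add (Nat.div_mul_le_self _ _) hcA
    _ = 2 * 2 ^ b := by ring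

end Pool.Agent.H591R2.Egy
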