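import Pool.Agent.H591R2.Egy.T2
import Pool.Agent.H591R2.Egy.T3
import Pool.Agent.H591R2.Egy.T4

/-!
# The union bound
-/

namespace Pool.Agent.H591R2.Egy

open Finset

/-- isolating one coordinate in a restricted sum over functions -/
theorem iso {α : Type} [Fintype α] {n : ℕ} (w : α → ℚ) (hw : ∀ x, 0 ≤ w x)
    (C : (Fin (n + 1) → α) → Prop) [DecidablePred C] (i₀ : Fin (n + 1)) (K : ℚ)
    (hK : ∀ p' : Fin n → α, ∑ x, (if C (Fin.insertNth (α := fun _ => α) i₀ x p') then w x else 0) ≤ K) :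
    ∑ p : Fin (n + 1) → α, (if C p then ∏ i, w (p i) else 0) ≤ K * (∑ x, w x) ^ n := by
  classical
  rw [← (Fin.insertNthEquiv (fun _ => α) i₀).sum_comp]
  rw [Fintype.sum_prod_type_right]
  rw [Fintype.sum_pow, Finset.mul_sum]
  refine Finset.sum_le_sum fun p' _ => ?_
  have h1 : ∀ x, (if C (Fin.insertNthEquiv (fun _ => α) i₀ (x, p')) then
      ∏ i, w (Fin.insertNthEquiv (fun _ => α) i₀ (x, p') i) else 0) =
      (if C (Fin.insertNth (α := fun _ => α) i₀ x p') then w x else 0) * ∏ j, w (p' j) := by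
    intro x
    have h2 : (Fin.insertNthEquiv (fun _ => α) i₀ (x, p') : Fin (n + 1) → α) =
      Fin.insertNth (α := fun _ => α) i₀ x p' := rfl
    rw [h2]
    split_ifs
    · rw [Fin.prod_univ_succAbove _ i₀]
      simp
    · simp
  simp_rw [h1]
  rw [← Finset.sum_mul]
  exact mul_le_mul_of_nonneg_right (hK p') (Finset.prod_nonneg fun j _ => hw _)

/-- the possible pairs of cofactors -/
def PP (b : ℕ) : Finset (ℕ × ℕ) :=
  ((Finset.Icc 1 (2 ^ b)) ×ˢ (Finset.Icc 1 (2 ^ b))).filter fun x =>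
    x.1 * x.2 ≤ 2 ^ b ∧ Nat.Coprime x.1 3 ∧ Nat.Coprime x.2 3

/-- the weight of a pair of cofactors -/
def wt (b : ℕ) (x : ℕ × ℕ) : ℚ := 2 * 2 ^ b * ((1 / (x.1 : ℚ)) * (1 / (x.2 : ℚ)))

theorem wt_nonneg (b : ℕ) (x : ℕ × ℕ) : 0 ≤ wt b x := by
  unfold wt; positivity

theorem sum_wt (b : ℕ) : ∑ x ∈ PP b, wt b x ≤ 2 * 2 ^ b * ((b : ℚ) + 1) ^ 2 := by
  calc ∑ x ∈ PP b, wt b x
      ≤ ∑ x ∈ (Finset.Icc 1 (2 ^ b)) ×ˢ (Finset.Icc 1 (2 ^ b)), wt b x :=
        Finset.sum_le_sum_of_subset_of_nonneg (Finset.filter_subset _ _)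
          (fun x _ _ => wt_nonneg b x)
    _ = 2 * 2 ^ b * ((∑ z ∈ Finset.Icc (1 : ℕ) (2 ^ b), (1 : ℚ) / (z : ℚ)) *
          ∑ z ∈ Finset.Icc (1 : ℕ) (2 ^ b), (1 : ℚ) / (z : ℚ)) := by
        rw [Finset.sum_mul_sum, Finset.mul_sum, Finset.sum_product]
        refine Finset.sum_congr rfl fun x _ => ?_
        rw [Finset.mul_sum]
        exact Finset.sum_congr rfl fun y _ => rfl
    _ ≤ 2 * 2 ^ b * (((b : ℚ) + 1) * ((b : ℚ) + 1)) := by
        have h := harm b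
        have h0 : (0 : ℚ) ≤ ∑ z ∈ Finset.Icc (1 : ℕ) (2 ^ b), (1 : ℚ) / (z : ℚ) :=
          Finset.sum_nonneg fun _ _ => by positivity
        gcongr
    _ = 2 * 2 ^ b * ((b : ℚ) + 1) ^ 2 := by ring

theorem sum_big1 {b κ B : ℕ} (hB0 : 0 < B) (hB : B ≤ (3 ^ κ) ^ 2) (D : ℕ × ℕ → Prop)
    [DecidablePred D]
    (hD : ∀ a a' c, Nat.Coprime a 3 → Nat.Coprime a' 3 → Nat.Coprime c 3 → D (a, c) → D (a', c) →
      a ^ 2 ≡ a' ^ 2 [MOD (3 ^ κ) ^ 2]) :
    ∑ x ∈ (PP b).filter (fun x => D x ∧ B < x.1), wt b x ≤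
      2 * 2 ^ b * ((b : ℚ) + 1) * (2 * ((b : ℚ) + 2) / B) := by
  have hBq : (0 : ℚ) < B := by exact_mod_cast hB0
  have h1 : (PP b).filter (fun x => D x ∧ B < x.1) ⊆
      ((Finset.Icc 1 (2 ^ b)) ×ˢ (Finset.Icc 1 (2 ^ b))).filter
        (fun x => Nat.Coprime x.1 3 ∧ Nat.Coprime x.2 3 ∧ D x ∧ B < x.1) := by
    intro x hx
    simp only [PP, Finset.mem_filter] at hx ⊢
    tauto
  refine (Finset.sum_le_sum_of_subset_of_nonneg h1 (fun x _ _ => wt_nonneg b x)).trans ?_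
  rw [Finset.sum_filter, Finset.sum_product_right]
  have h2 : ∀ c ∈ Finset.Icc 1 (2 ^ b), (∑ a ∈ Finset.Icc 1 (2 ^ b),
      if Nat.Coprime (a, c).1 3 ∧ Nat.Coprime (a, c).2 3 ∧ D (a, c) ∧ B < (a, c).1 then
        wt b (a, c) else 0) ≤ 2 * 2 ^ b * (1 / (c : ℚ)) * (2 * ((b : ℚ) + 2) / B) := by
    intro c _
    by_cases hc : Nat.Coprime c 3
    · set S := (Finset.Icc 1 (2 ^ b)).filter (fun a => Nat.Coprime a 3 ∧ D (a, c) ∧ B < a)
        with hS
      have h3 := classSum (b := b) hB S (by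
        intro z hz
        simp only [hS, Finset.mem_filter, Finset.mem_Icc] at hz
        tauto) (by
        intro z hz z' hz'
        simp only [hS, Finset.mem_filter, Finset.mem_Icc] at hz hz'
        exact hD z z' c hz.2.1 hz'.2.1 hc hz.2.2.1 hz'.2.2.1)
      rw [← le_div_iff₀ hBq] at h3
      have h4 : (∑ a ∈ Finset.Icc 1 (2 ^ b),
          if Nat.Coprime (a, c).1 3 ∧ Nat.Coprime (a, c).2 3 ∧ D (a, c) ∧ B < (a, c).1 then
          wt b (a, c) else 0) = 2 * 2 ^ b * (1 / (c : ℚ)) * ∑ z ∈ S, (1 : ℚ) / z := by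
        rw [hS, Finset.sum_filter, Finset.mul_sum]
        refine Finset.sum_congr rfl fun a _ => ?_
        by_cases h5 : Nat.Coprime a 3 ∧ D (a, c) ∧ B < a
        · rw [if_pos h5, if_pos ⟨h5.1, hc, h5.2⟩]
          simp only [wt]; ring
        · rw [if_neg h5, if_neg (by tauto), mul_zero]
      rw [h4]
      exact mul_le_mul_of_nonneg_left h3 (by positivity)
    · have h4 : (∑ a ∈ Finset.Icc 1 (2 ^ b),
          if Nat.Coprime (a, c).1 3 ∧ Nat.Coprime (a, c).2 3 ∧ D (a, c) ∧ B < (a, c).1 then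
          wt b (a, c) else 0) = 0 := by
        refine Finset.sum_eq_zero fun a _ => ?_
        simp [hc]
      rw [h4]
      positivity
  refine (Finset.sum_le_sum h2).trans ?_
  rw [← Finset.sum_mul, ← Finset.mul_sum]
  have h := harm b
  gcongr

theorem sum_big2 {b κ B : ℕ} (hB0 : 0 < B) (hB : B ≤ (3 ^ κ) ^ 2) (D : ℕ × ℕ → Prop)
    [DecidablePred D]
    (hD : ∀ a c c', Nat.Coprime a 3 → Nat.Coprime c 3 → Nat.Coprime c' 3 → D (a, c) → D (a, c') →
      c ^ 2 ≡ c' ^ 2 [MOD (3 ^ κ) ^ 2]) :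
    ∑ x ∈ (PP b).filter (fun x => D x ∧ B < x.2), wt b x ≤
      2 * 2 ^ b * ((b : ℚ) + 1) * (2 * ((b : ℚ) + 2) / B) := by
  have h1 := sum_big1 (b := b) (κ := κ) hB0 hB (fun x => D (x.2, x.1))
    (fun a a' c ha ha' hc h h' => hD c a a' hc ha ha' h h')
  refine le_trans (le_of_eq ?_) h1
  refine Finset.sum_nbij' (fun x => (x.2, x.1)) (fun x => (x.2, x.1)) ?_ ?_ ?_ ?_ ?_
  · intro x hx
    simp only [PP, Finset.mem_filter, Finset.mem_product, Finset.mem_Icc] at hx ⊢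
    rw [mul_comm x.2 x.1]
    tauto
  · intro x hx
    simp only [PP, Finset.mem_filter, Finset.mem_product, Finset.mem_Icc] at hx ⊢
    rw [mul_comm x.2 x.1]
    tauto
  · intro x _; rfl
  · intro x _; rfl
  · intro x _
    simp only [wt]
    ring

theorem sum_big {b κ B : ℕ} (hB0 : 0 < B) (hB : B ≤ (3 ^ κ) ^ 2) (D : ℕ × ℕ → Prop)
    [DecidablePred D]
    (hD1 : ∀ a a' c, Nat.Coprime a 3 → Nat.Coprime a' 3 → Nat.Coprime c 3 → D (a, c) → D (a', c) →
      a ^ 2 ≡ a' ^ 2 [MOD (3 ^ κ) ^ 2])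
    (hD2 : ∀ a c c', Nat.Coprime a 3 → Nat.Coprime c 3 → Nat.Coprime c' 3 → D (a, c) → D (a, c') →
      c ^ 2 ≡ c' ^ 2 [MOD (3 ^ κ) ^ 2]) :
    ∑ x ∈ (PP b).filter (fun x => D x ∧ (B < x.1 ∨ B < x.2)), wt b x ≤
      8 * 2 ^ b * ((b : ℚ) + 1) * ((b : ℚ) + 2) / B := by
  have h1 := sum_big1 (b := b) (κ := κ) hB0 hB D hD1
  have h2 := sum_big2 (b := b) (κ := κ) hB0 hB D hD2
  have h3 : (PP b).filter (fun x => D x ∧ (B < x.1 ∨ B < x.2)) =
      (PP b).filter (fun x => D x ∧ B < x.1) ∪ (PP b).filter (fun x => D x ∧ B < x.2) := by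
    ext x
    simp only [Finset.mem_filter, Finset.mem_union]
    tauto
  rw [h3]
  have h4 : ∀ s t : Finset (ℕ × ℕ), ∑ x ∈ s ∪ t, wt b x ≤ ∑ x ∈ s, wt b x + ∑ x ∈ t, wt b x := by
    intro s t
    rw [← Finset.sum_union_inter]
    have : 0 ≤ ∑ x ∈ s ∩ t, wt b x := Finset.sum_nonneg fun x _ => wt_nonneg b x
    linarith
  refine (h4 _ _).trans ((add_le_add h1 h2).trans (le_of_eq ?_))
  ring

theorem card_forall {N A : ℕ} (S : Fin N → Fin A → Prop) [∀ i, DecidablePred (S i)] :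
    (Finset.univ.filter fun t : Fin N → Fin A => ∀ i, S i (t i)).card =
      ∏ i, (Finset.univ.filter fun s => S i s).card := by
  rw [← Fintype.card_piFinset]
  congr 1
  ext t
  simp [Fintype.mem_piFinset]

theorem coprime_of_pm {κ r : ℕ} (hκ : 0 < κ) (h : r % 3 ^ κ = 1 ∨ r % 3 ^ κ = 3 ^ κ - 1) :
    Nat.Coprime r 3 := by
  have h3 : 3 ∣ 3 ^ κ := dvd_pow_self 3 hκ.ne'
  have h1 : r % 3 = r % 3 ^ κ % 3 := (Nat.mod_mod_of_dvd r h3).symm
  have hp : 1 ≤ 3 ^ κ := Nat.one_le_pow _ _ (by norm_num)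
  have h2 : r % 3 ≠ 0 := by
    rcases h with h | h
    · rw [h1, h]; norm_num
    · rw [h1, h]; omega
  rw [Nat.coprime_comm, Nat.Prime.coprime_iff_not_dvd (by norm_num)]
  omega

theorem sum_one {n κ b B : ℕ} (r : Fin (n + 1) → ℕ) (hr : ∀ i, Nat.Coprime (r i) 3)
    (τ : Fin (n + 1) → Fin 3) (hB0 : 0 < B) (hB : B ≤ (3 ^ κ) ^ 2)
    (i₀ : Fin (n + 1)) (C : (Fin (n + 1) → {x // x ∈ PP b}) → Prop) [DecidablePred C]
    (hC : ∀ p, C p → Cong ((3 ^ κ) ^ 2) τ r (fun i => (p i).1) ∧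
      (B < (p i₀).1.1 ∨ B < (p i₀).1.2)) :
    ∑ p : Fin (n + 1) → {x // x ∈ PP b}, (if C p then ∏ i, wt b (p i).1 else 0) ≤
      8 * 2 ^ b * ((b : ℚ) + 1) * ((b : ℚ) + 2) / B * (2 * 2 ^ b * ((b : ℚ) + 1) ^ 2) ^ n := by
  classical
  have h0 : ∑ x : {x // x ∈ PP b}, wt b x.1 ≤ 2 * 2 ^ b * ((b : ℚ) + 1) ^ 2 := by
    rw [Finset.univ_eq_attach, Finset.sum_attach (PP b) (wt b)]
    exact sum_wt b
  refine (iso (fun x : {x // x ∈ PP b} => wt b x.1) (fun x => wt_nonneg b x.1) C i₀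
    (8 * 2 ^ b * ((b : ℚ) + 1) * ((b : ℚ) + 2) / B) ?_).trans ?_
  · intro p'
    set D : ℕ × ℕ → Prop := fun x => Cong ((3 ^ κ) ^ 2) τ r
      (Fin.insertNth (α := fun _ => ℕ × ℕ) i₀ x (fun j => (p' j).1)) with hD
    have hcop : ∀ x ∈ PP b, Nat.Coprime x.1 3 ∧ Nat.Coprime x.2 3 := by
      intro x hx
      simp only [PP, Finset.mem_filter] at hx
      exact hx.2.2
    set p0 : Fin (n + 1) → ℕ × ℕ :=
      Fin.insertNth (α := fun _ => ℕ × ℕ) i₀ (1, 1) (fun j => (p' j).1) with hp0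
    have hp0c : ∀ i, Nat.Coprime (p0 i).1 3 ∧ Nat.Coprime (p0 i).2 3 := by
      intro i
      refine Fin.succAboveCases i₀ ?_ ?_ i
      · rw [hp0, Fin.insertNth_apply_same]
        exact ⟨by norm_num, by norm_num⟩
      · intro j
        rw [hp0, Fin.insertNth_apply_succAbove]
        exact hcop _ (p' j).2
    have hup : ∀ x, Fin.insertNth (α := fun _ => ℕ × ℕ) i₀ x (fun j => (p' j).1) =
        Function.update p0 i₀ x := by
      intro x
      rw [hp0, Fin.update_insertNth]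
    have hb := sum_big (b := b) (κ := κ) hB0 hB D
      (fun a a' c ha ha' hc h h' => by
        rw [hD] at h h'
        simp only [hup] at h h'
        exact vary1 r hr τ p0 hp0c i₀ ha hc ha' h h')
      (fun a c c' ha hc hc' h h' => by
        rw [hD] at h h'
        simp only [hup] at h h'
        exact vary2 r hr τ p0 hp0c i₀ ha hc hc' h h')
    have hb2 : ∑ x ∈ (PP b).filter (fun x => D x ∧ (B < x.1 ∨ B < x.2)), wt b x =
        ∑ x : {x // x ∈ PP b}, (if D x.1 ∧ (B < x.1.1 ∨ B < x.1.2) then wt b x.1 else 0) := by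
      rw [Finset.sum_filter, Finset.univ_eq_attach, Finset.sum_attach (PP b)
        (fun x => if D x ∧ (B < x.1 ∨ B < x.2) then wt b x else 0)]
    rw [hb2] at hb
    refine le_trans ?_ hb
    refine Finset.sum_le_sum fun x _ => ?_
    by_cases hx : C (Fin.insertNth (α := fun _ => {x // x ∈ PP b}) i₀ x p')
    · have h1 := hC _ hx
      rw [Fin.insertNth_apply_same] at h1
      have h2 : (fun i => (Fin.insertNth (α := fun _ => {x // x ∈ PP b}) i₀ x p' i).1) =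
          Fin.insertNth (α := fun _ => ℕ × ℕ) i₀ x.1 (fun j => (p' j).1) := by
        funext i
        refine Fin.succAboveCases i₀ ?_ ?_ i
        · rw [Fin.insertNth_apply_same, Fin.insertNth_apply_same]
        · intro j
          rw [Fin.insertNth_apply_succAbove, Fin.insertNth_apply_succAbove]
      rw [h2] at h1
      rw [if_pos hx, if_pos h1]
    · rw [if_neg hx]
      split_ifs
      · exact wt_nonneg b _
      · exact le_rfl
  · have : (0 : ℚ) ≤ ∑ x : {x // x ∈ PP b}, wt b x.1 :=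
      Finset.sum_nonneg fun x _ => wt_nonneg b x.1
    have hB' : (0 : ℚ) ≤ 8 * 2 ^ b * ((b : ℚ) + 1) * ((b : ℚ) + 2) / B := by positivity
    gcongr

theorem noCount' {N κ b H B : ℕ} (hκ : 0 < κ) (r : Fin N → ℕ)
    (hpm : ∀ i, r i % 3 ^ κ = 1 ∨ r i % 3 ^ κ = 3 ^ κ - 1) (hr : ∀ i, r i < (3 ^ κ) ^ 2)
    (hno : NoSol ((3 ^ κ) ^ 2) r) (hQ : 2 * B ^ (3 * N) < 3 ^ κ) (hN : 0 < N) (hB : 0 < B)
    (hA : ((3 ^ κ) ^ 2 * (H + 2 ^ b)) ^ 2 ≤ (2 ^ b) ^ 3) :
    (Nat.card {t : Fin N → Fin (2 ^ b) //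
      Bad ((3 ^ κ) ^ 2) (∏ i, (r i + (3 ^ κ) ^ 2 * (H + (t i : ℕ))))}) * B
      ≤ 2 ^ (b * N) * (4 * N * 6 ^ N * (b + 2) ^ (2 * N)) := by
  classical
  obtain ⟨n, rfl⟩ : ∃ n, N = n + 1 := ⟨N - 1, by omega⟩
  have hr3 : ∀ i, Nat.Coprime (r i) 3 := fun i => coprime_of_pm hκ (hpm i)
  have hrpos : ∀ i, 0 < r i := fun i => Nat.pos_of_ne_zero fun h => by
    have := hr3 i
    rw [h] at this
    norm_num at this
  have hQ1 : 1 ≤ 3 ^ κ := Nat.one_le_pow _ _ (by norm_num)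
  have hQq : 3 ^ κ ≤ (3 ^ κ) ^ 2 := Nat.le_self_pow (by norm_num) _
  have hBq : B ≤ (3 ^ κ) ^ 2 := by
    have : B ≤ B ^ (3 * (n + 1)) := Nat.le_self_pow (by omega) _
    omega
  set q := (3 ^ κ) ^ 2 with hq
  -- cofactors
  have hw : ∀ t : Fin (n + 1) → Fin (2 ^ b), Bad q (∏ i, (r i + q * (H + (t i : ℕ)))) →
      ∃ (τ : Fin (n + 1) → Fin 3) (p : Fin (n + 1) → {x // x ∈ PP b}),
        Cong q τ r (fun i => (p i).1) ∧
        ∀ i, (p i).1.1 * (p i).1.2 ∣ r i + q * (H + (t i : ℕ)) := by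
    intro t ht
    obtain ⟨τ, p, hp, hc⟩ := cofactors (q := q) (fun i => r i + q * (H + (t i : ℕ))) r
      (fun i => by have := hrpos i; omega) (fun i => by simp [Nat.ModEq]) ht
    have hm3 : ∀ i, Nat.Coprime (r i + q * (H + (t i : ℕ))) 3 := by
      intro i
      have h3 : 3 ∣ q := by
        rw [hq]
        exact dvd_pow (dvd_pow_self 3 hκ.ne') (by norm_num)
      obtain ⟨c, hc⟩ := h3
      rw [hc, mul_assoc]
      rw [Nat.coprime_add_mul_left_left]
      exact hr3 i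
    refine ⟨τ, fun i => ⟨p i, ?_⟩, hc, fun i => (hp i).2.2.1⟩
    obtain ⟨h1, h2, h3, h4⟩ := hp i
    have h5 : (p i).1 * (p i).2 ≤ 2 ^ b := by
      have h6 : r i + q * (H + (t i : ℕ)) ≤ q * (H + 2 ^ b) := by
        have h7 := hr i
        have h8 : q * (H + (t i : ℕ)) + q ≤ q * (H + 2 ^ b) := by
          rw [← Nat.mul_succ]
          exact Nat.mul_le_mul_left _ (by have := (t i).2; omega)
        omega
      have h9 : ((p i).1 * (p i).2) ^ 3 ≤ (2 ^ b) ^ 3 :=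
        h4.trans ((Nat.pow_le_pow_left h6 2).trans hA)
      exact le_of_not_gt fun h => absurd h9 (not_le.2 (Nat.pow_lt_pow_left h (by norm_num)))
    have h6 : (p i).1 ∣ r i + q * (H + (t i : ℕ)) := dvd_trans (dvd_mul_right _ _) h3
    have h7 : (p i).2 ∣ r i + q * (H + (t i : ℕ)) := dvd_trans (dvd_mul_left _ _) h3
    simp only [PP, Finset.mem_filter, Finset.mem_product, Finset.mem_Icc]
    refine ⟨⟨⟨h1, ?_⟩, ⟨h2, ?_⟩⟩, h5, Nat.Coprime.coprime_dvd_left h6 (hm3 i),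
      Nat.Coprime.coprime_dvd_left h7 (hm3 i)⟩
    · exact (Nat.le_mul_of_pos_right _ h2).trans h5
    · exact (Nat.le_mul_of_pos_left _ h1).trans h5
  -- the union bound
  have h1 : (Finset.univ.filter fun t : Fin (n + 1) → Fin (2 ^ b) =>
      Bad q (∏ i, (r i + q * (H + (t i : ℕ))))).card ≤
      ∑ τ : Fin (n + 1) → Fin 3, ∑ p : Fin (n + 1) → {x // x ∈ PP b},
        if Cong q τ r (fun i => (p i).1) then
          ∏ i, (Finset.univ.filter fun s : Fin (2 ^ b) =>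
            (p i).1.1 * (p i).1.2 ∣ r i + q * (H + (s : ℕ))).card else 0 := by
    have h2 : (Finset.univ.filter fun t : Fin (n + 1) → Fin (2 ^ b) =>
      Bad q (∏ i, (r i + q * (H + (t i : ℕ))))) ⊆
      Finset.univ.biUnion fun τ : Fin (n + 1) → Fin 3 => Finset.univ.biUnion
        fun p : Fin (n + 1) → {x // x ∈ PP b} => if Cong q τ r (fun i => (p i).1) then
          (Finset.univ.filter fun t : Fin (n + 1) → Fin (2 ^ b) =>
            ∀ i, (p i).1.1 * (p i).1.2 ∣ r i + q * (H + (t i : ℕ))) else ∅ := by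
      intro t ht
      obtain ⟨τ, p, hc, hd⟩ := hw t (Finset.mem_filter.1 ht).2
      simp only [Finset.mem_biUnion, Finset.mem_univ, true_and]
      refine ⟨τ, p, ?_⟩
      rw [if_pos hc]
      simpa using hd
    refine (Finset.card_le_card h2).trans (Finset.card_biUnion_le.trans ?_)
    refine Finset.sum_le_sum fun τ _ => Finset.card_biUnion_le.trans ?_
    refine Finset.sum_le_sum fun p _ => ?_
    split_ifs
    · exact (card_forall (fun i (s : Fin (2 ^ b)) =>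
        (p i).1.1 * (p i).1.2 ∣ r i + q * (H + (s : ℕ)))).le
    · simp
  -- each factor
  have h2 : ∀ (x : {x // x ∈ PP b}) (i : Fin (n + 1)),
      ((Finset.univ.filter fun s : Fin (2 ^ b) =>
        x.1.1 * x.1.2 ∣ r i + q * (H + (s : ℕ))).card : ℚ) ≤ wt b x.1 := by
    intro x i
    have hx := x.2
    simp only [PP, Finset.mem_filter, Finset.mem_product, Finset.mem_Icc] at hx
    obtain ⟨⟨⟨ha, -⟩, ⟨hb, -⟩⟩, hab, hc1, hc2⟩ := hx
    have h3 := countT (b := b) (c := x.1.1 * x.1.2) (q := q) (r := r i) (H := H)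
      (by positivity) hab (by
        rw [hq]
        exact Nat.Coprime.pow_right _ (Nat.Coprime.pow_right _ (Nat.Coprime.mul_left hc1 hc2)))
    rw [Nat.card_eq_fintype_card, Fintype.card_subtype] at h3
    have h4 : (0 : ℚ) < (x.1.1 : ℚ) * (x.1.2 : ℚ) := by
      have : (0 : ℚ) < x.1.1 := by exact_mod_cast ha
      have : (0 : ℚ) < x.1.2 := by exact_mod_cast hb
      positivity
    have h5 : ((Finset.univ.filter fun s : Fin (2 ^ b) =>
        x.1.1 * x.1.2 ∣ r i + q * (H + (s : ℕ))).card : ℚ) * ((x.1.1 : ℚ) * (x.1.2 : ℚ)) ≤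
        2 * 2 ^ b := by exact_mod_cast h3
    rw [← le_div_iff₀ h4] at h5
    refine h5.trans (le_of_eq ?_)
    unfold wt
    field_simp
  -- sum over `p`
  have h3 : ∀ τ : Fin (n + 1) → Fin 3,
      ∑ p : Fin (n + 1) → {x // x ∈ PP b}, (if Cong q τ r (fun i => (p i).1) then
        ∏ i, wt b (p i).1 else 0) ≤ ((n : ℚ) + 1) *
        (8 * 2 ^ b * ((b : ℚ) + 1) * ((b : ℚ) + 2) / B *
          (2 * 2 ^ b * ((b : ℚ) + 1) ^ 2) ^ n) := by
    intro τ
    have h4 : ∀ p : Fin (n + 1) → {x // x ∈ PP b},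
        (if Cong q τ r (fun i => (p i).1) then ∏ i, wt b (p i).1 else 0) ≤
        ∑ i₀ : Fin (n + 1), (if Cong q τ r (fun i => (p i).1) ∧
          (B < (p i₀).1.1 ∨ B < (p i₀).1.2) then ∏ i, wt b (p i).1 else 0) := by
      intro p
      by_cases hc : Cong q τ r (fun i => (p i).1)
      · have hbig : ∃ i₀, (B < (p i₀).1.1 ∨ B < (p i₀).1.2) := by
          by_contra hcon
          push Not at hcon
          have hx : ∀ i, 0 < (p i).1.1 ∧ 0 < (p i).1.2 ∧ Nat.Coprime (p i).1.1 3 ∧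
              Nat.Coprime (p i).1.2 3 := by
            intro i
            have hx := (p i).2
            simp only [PP, Finset.mem_filter, Finset.mem_product, Finset.mem_Icc] at hx
            exact ⟨hx.1.1.1, hx.1.2.1, hx.2.2.1, hx.2.2.2⟩
          exact small r hpm hno hQ τ (fun i => (p i).1) (fun i => ⟨(hx i).1, (hx i).2.1⟩)
            (fun i => (hx i).2.2) hcon hc
        obtain ⟨i₀, hi₀⟩ := hbig
        rw [if_pos hc]
        refine le_trans (le_of_eq ?_) (Finset.single_le_sum (f := fun i₀ : Fin (n + 1) =>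
          (if Cong q τ r (fun i => (p i).1) ∧
          (B < (p i₀).1.1 ∨ B < (p i₀).1.2) then ∏ i, wt b (p i).1 else 0))
          (fun i _ => ?_) (Finset.mem_univ i₀))
        · rw [if_pos ⟨hc, hi₀⟩]
        · split_ifs
          · exact Finset.prod_nonneg fun j _ => wt_nonneg b _
          · exact le_rfl
      · rw [if_neg hc]
        refine Finset.sum_nonneg fun i _ => ?_
        split_ifs
        · exact Finset.prod_nonneg fun j _ => wt_nonneg b _
        · exact le_rfl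
    refine (Finset.sum_le_sum fun p _ => h4 p).trans ?_
    rw [Finset.sum_comm]
    refine (Finset.sum_le_sum fun i₀ _ => sum_one (κ := κ) r hr3 τ hB hBq i₀
      (fun p => Cong q τ r (fun i => (p i).1) ∧ (B < (p i₀).1.1 ∨ B < (p i₀).1.2))
      (fun p hp => hp)).trans ?_
    rw [Finset.sum_const, Finset.card_univ, Fintype.card_fin, nsmul_eq_mul]
    push_cast
    exact le_rfl
  -- conclusion
  have h4 : ((Finset.univ.filter fun t : Fin (n + 1) → Fin (2 ^ b) =>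
      Bad q (∏ i, (r i + q * (H + (t i : ℕ))))).card : ℚ) ≤ 3 ^ (n + 1) * (((n : ℚ) + 1) *
        (8 * 2 ^ b * ((b : ℚ) + 1) * ((b : ℚ) + 2) / B *
          (2 * 2 ^ b * ((b : ℚ) + 1) ^ 2) ^ n)) := by
    have h5 : ((Finset.univ.filter fun t : Fin (n + 1) → Fin (2 ^ b) =>
      Bad q (∏ i, (r i + q * (H + (t i : ℕ))))).card : ℚ) ≤
      ∑ τ : Fin (n + 1) → Fin 3, ∑ p : Fin (n + 1) → {x // x ∈ PP b},
        if Cong q τ r (fun i => (p i).1) then
          ∏ i, wt b (p i).1 else 0 := by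
      refine (Nat.cast_le.2 h1).trans ?_
      push_cast
      refine Finset.sum_le_sum fun τ _ => Finset.sum_le_sum fun p _ => ?_
      split_ifs
      · exact Finset.prod_le_prod (fun i _ => by positivity) fun i _ => h2 (p i) i
      · exact le_rfl
    refine h5.trans ((Finset.sum_le_sum fun τ _ => h3 τ).trans (le_of_eq ?_))
    rw [Finset.sum_const, Finset.card_univ, Fintype.card_fun, Fintype.card_fin, Fintype.card_fin,
      nsmul_eq_mul]
    push_cast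
    ring
  rw [Nat.card_eq_fintype_card, Fintype.card_subtype]
  have hBq' : (0 : ℚ) < B := by exact_mod_cast hB
  have h5 : ((Finset.univ.filter fun t : Fin (n + 1) → Fin (2 ^ b) =>
      Bad q (∏ i, (r i + q * (H + (t i : ℕ))))).card : ℚ) * B ≤
      ((2 ^ (b * (n + 1)) * (4 * (n + 1) * 6 ^ (n + 1) * (b + 2) ^ (2 * (n + 1))) : ℕ) : ℚ) := by
    refine (mul_le_mul_of_nonneg_right h4 hBq'.le).trans ?_
    have h6 : 3 ^ (n + 1) * (((n : ℚ) + 1) *
        (8 * 2 ^ b * ((b : ℚ) + 1) * ((b : ℚ) + 2) / B *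
          (2 * 2 ^ b * ((b : ℚ) + 1) ^ 2) ^ n)) * B =
        2 ^ (b * (n + 1)) * (4 * (n + 1) * 6 ^ (n + 1) *
          (((b : ℚ) + 1) ^ (2 * n + 1) * ((b : ℚ) + 2))) := by
      have e1 : (6 : ℚ) ^ (n + 1) = 2 ^ (n + 1) * 3 ^ (n + 1) := by
        rw [← mul_pow]; norm_num
      have e2 : ((2 : ℚ) ^ (b * (n + 1))) = (2 ^ b) ^ n * 2 ^ b := by
        rw [pow_mul, pow_succ]
      have e3 : (2 * 2 ^ b * ((b : ℚ) + 1) ^ 2) ^ n =
          2 ^ n * (2 ^ b) ^ n * ((b : ℚ) + 1) ^ (2 * n) := by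
        rw [mul_pow, mul_pow, pow_mul]
      rw [e1, e2, e3, pow_succ ((b : ℚ) + 1) (2 * n), pow_succ (2 : ℚ) n]
      generalize (2 : ℚ) ^ n = X1
      generalize ((2 : ℚ) ^ b) ^ n = X2
      generalize (2 : ℚ) ^ b = X3
      generalize ((b : ℚ) + 1) ^ (2 * n) = X4
      field_simp
      ring
    rw [h6]
    push_cast
    have h7 : ((b : ℚ) + 1) ^ (2 * n + 1) * ((b : ℚ) + 2) ≤ ((b : ℚ) + 2) ^ (2 * (n + 1)) := by
      rw [show 2 * (n + 1) = (2 * n + 1) + 1 by ring, pow_succ _ (2 * n + 1)]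
      have : ((b : ℚ) + 1) ^ (2 * n + 1) ≤ ((b : ℚ) + 2) ^ (2 * n + 1) := by
        gcongr; linarith
      gcongr
    gcongr
  exact_mod_cast h5

end Pool.Agent.H591R2.Egy
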