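import Pool.Agent.H591R2.Egy.Defs2

/-!
# T6: the positive instances
-/

namespace Pool.Agent.H591R2.Egy

open Finset

namespace T6

theorem pow_lin {x : ℝ} (hx : 0 ≤ x) (N : ℕ) (hN : 2 * (N : ℝ) * x ≤ 1) :
    ∀ k : ℕ, k ≤ N → (1 + x) ^ k ≤ 1 + 2 * k * x := by
  intro k
  induction k with
  | zero => intro _; simp
  | succ k ih =>
    intro hk
    have h1 := ih (by omega)
    have hkN : (k : ℝ) ≤ N := by exact_mod_cast (by omega : k ≤ N)
    have h2 : 2 * (k : ℝ) * x ≤ 1 := by nlinarith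
    have h3 : 2 * (k : ℝ) * x * x ≤ 1 * x := mul_le_mul_of_nonneg_right h2 hx
    have h0 : 0 ≤ 1 + x := by linarith
    rw [pow_succ]
    push_cast
    calc (1 + x) ^ k * (1 + x) ≤ (1 + 2 * k * x) * (1 + x) := mul_le_mul_of_nonneg_right h1 h0
      _ ≤ 1 + 2 * (k + 1) * x := by nlinarith

theorem key {N b h k : ℕ} (hN : 2 ≤ N) (hh : b + 2 * N + 1 ≤ h) (hk : k ≤ N) :
    ((2 : ℝ) ^ h + 2 ^ b) ^ k * 2 ^ N ≤ (2 ^ N + 1) * (2 ^ h) ^ k := by
  have h2h : (0 : ℝ) < 2 ^ h := by positivity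
  have h2N : (0 : ℝ) < 2 ^ N := by positivity
  set x : ℝ := 2 ^ b / 2 ^ h with hx
  have hx0 : 0 ≤ x := by positivity
  have e1 : (2 : ℝ) ^ h + 2 ^ b = 2 ^ h * (1 + x) := by
    rw [hx]; field_simp
  have hxle : x * (2 * (2 ^ N * 2 ^ N)) ≤ 1 := by
    have h3 : (2 : ℝ) ^ b * (2 * (2 ^ N * 2 ^ N)) ≤ 2 ^ h := by
      have : (2 : ℝ) ^ b * (2 * (2 ^ N * 2 ^ N)) = 2 ^ (b + 2 * N + 1) := by
        rw [pow_succ, pow_add, mul_comm 2 N, pow_mul]; ring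
      rw [this]
      exact pow_le_pow_right₀ (by norm_num) hh
    rw [hx, div_mul_eq_mul_div, div_le_one h2h]
    exact h3
  have hN2 : (N : ℝ) ≤ 2 ^ N := by
    have : N < 2 ^ N := Nat.lt_two_pow_self
    exact_mod_cast this.le
  have h4 : 2 * (N : ℝ) * x * 2 ^ N ≤ 1 := by nlinarith [mul_nonneg hx0 h2N.le]
  have h1N : (1 : ℝ) ≤ 2 ^ N := one_le_pow₀ (by norm_num)
  have h5 : 2 * (N : ℝ) * x ≤ 1 := by
    have : 2 * (N : ℝ) * x * 1 ≤ 2 * (N : ℝ) * x * 2 ^ N :=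
      mul_le_mul_of_nonneg_left h1N (by positivity)
    linarith
  have h6 := pow_lin hx0 N h5 k hk
  have hkN : (k : ℝ) ≤ N := by exact_mod_cast hk
  have h7 : (1 + x) ^ k * 2 ^ N ≤ 2 ^ N + 1 := by
    calc (1 + x) ^ k * 2 ^ N ≤ (1 + 2 * k * x) * 2 ^ N := mul_le_mul_of_nonneg_right h6 h2N.le
      _ ≤ (1 + 2 * N * x) * 2 ^ N := by
        apply mul_le_mul_of_nonneg_right _ h2N.le
        nlinarith
      _ = 2 ^ N + 2 * N * x * 2 ^ N := by ring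
      _ ≤ 2 ^ N + 1 := by linarith
  rw [e1, mul_pow]
  calc (2 ^ h) ^ k * (1 + x) ^ k * 2 ^ N = (2 ^ h) ^ k * ((1 + x) ^ k * 2 ^ N) := by ring
    _ ≤ (2 ^ h) ^ k * (2 ^ N + 1) := mul_le_mul_of_nonneg_left h7 (by positivity)
    _ = (2 ^ N + 1) * (2 ^ h) ^ k := by ring

theorem pr_eq {N : ℕ} (c : Fin 3) (τ : Fin N → Fin 3) (m : Fin N → ℕ) :
    pr c τ m = ∏ i ∈ Finset.univ.filter (fun i => τ i = c), m i := by
  rw [pr, Finset.prod_filter]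

theorem pr_modEq {N q : ℕ} (c : Fin 3) (τ : Fin N → Fin 3) (m r : Fin N → ℕ)
    (h : ∀ i, m i ≡ r i [MOD q]) : pr c τ m ≡ pr c τ r [MOD q] := by
  unfold pr
  induction (Finset.univ : Finset (Fin N)) using Finset.induction_on with
  | empty => simp [Nat.ModEq]
  | insert a s ha ih =>
    rw [Finset.prod_insert ha, Finset.prod_insert ha]
    refine Nat.ModEq.mul ?_ ih
    split_ifs
    · exact h a
    · exact Nat.ModEq.refl _

theorem side {N q h b : ℕ} (hN : 2 ≤ N) (hh : b + 2 * N + 1 ≤ h) (c c' : Fin 3)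
    (τ : Fin N → Fin 3) (m : Fin N → ℕ)
    (hlo : ∀ i, q * 2 ^ h ≤ m i) (hup : ∀ i, m i ≤ q * (2 ^ h + 2 ^ b))
    (hk : (Finset.univ.filter fun i => τ i = c).card =
      (Finset.univ.filter fun i => τ i = c').card) :
    2 ^ N * pr c τ m ≤ (2 ^ N + 1) * pr c' τ m := by
  set k := (Finset.univ.filter fun i => τ i = c).card with hkd
  have hkN : k ≤ N := by
    rw [hkd]
    exact (Finset.card_le_univ _).trans (by simp)
  have h1 : pr c τ m ≤ (q * (2 ^ h + 2 ^ b)) ^ k := by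
    rw [pr_eq]
    exact Finset.prod_le_pow_card _ _ _ fun i _ => hup i
  have h2 : (q * 2 ^ h) ^ k ≤ pr c' τ m := by
    rw [pr_eq, hk]
    exact Finset.pow_card_le_prod _ _ _ fun i _ => hlo i
  have h3 := key (b := b) (h := h) (k := k) hN hh hkN
  have h3' : (2 ^ h + 2 ^ b) ^ k * 2 ^ N ≤ (2 ^ N + 1) * (2 ^ h) ^ k := by
    exact_mod_cast h3
  calc 2 ^ N * pr c τ m ≤ 2 ^ N * (q * (2 ^ h + 2 ^ b)) ^ k := Nat.mul_le_mul_left _ h1
    _ = q ^ k * ((2 ^ h + 2 ^ b) ^ k * 2 ^ N) := by rw [mul_pow]; ring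
    _ ≤ q ^ k * ((2 ^ N + 1) * (2 ^ h) ^ k) := Nat.mul_le_mul_left _ h3'
    _ = (2 ^ N + 1) * (q * 2 ^ h) ^ k := by rw [mul_pow]; ring
    _ ≤ (2 ^ N + 1) * pr c' τ m := Nat.mul_le_mul_left _ h2

end T6

theorem yes {N q h b : ℕ} (hN : 2 ≤ N) (hh : b + 2 * N + 1 ≤ h) (r t : Fin N → ℕ)
    (hr : ∀ i, r i < q) (ht : ∀ i, t i < 2 ^ b) (hs : BalSol q r) :
    ∃ u v : ℕ, 0 < u ∧ 0 < v ∧ u * v ∣ ∏ i, (r i + q * (2 ^ h + t i)) ∧ q ∣ u + v ∧
      2 ^ N * u ≤ (2 ^ N + 1) * v ∧ 2 ^ N * v ≤ (2 ^ N + 1) * u := by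
  obtain ⟨τ, hdvd, hk⟩ := hs
  have hq : 0 < q := lt_of_le_of_lt (Nat.zero_le _) (hr ⟨0, by omega⟩)
  set m : Fin N → ℕ := fun i => r i + q * (2 ^ h + t i) with hm
  have hlo : ∀ i, q * 2 ^ h ≤ m i := fun i => by
    have : q * (2 ^ h + t i) = q * 2 ^ h + q * t i := by ring
    simp only [hm, this]; omega
  have hup : ∀ i, m i ≤ q * (2 ^ h + 2 ^ b) := fun i => by
    have h1 := hr i
    have h2 : q * (t i + 1) ≤ q * 2 ^ b := Nat.mul_le_mul_left _ (ht i)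
    have h3 : q * (2 ^ h + t i) = q * 2 ^ h + q * t i := by ring
    have h4 : q * (2 ^ h + 2 ^ b) = q * 2 ^ h + q * 2 ^ b := by ring
    have h5 : q * (t i + 1) = q * t i + q := by ring
    simp only [hm, h3, h4]
    omega
  have hpos : ∀ i, 0 < m i := fun i => lt_of_lt_of_le (by positivity) (hlo i)
  have hprpos : ∀ c, 0 < pr c τ m := fun c => by
    refine Finset.prod_pos fun i _ => ?_
    split_ifs
    · exact hpos i
    · exact one_pos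
  refine ⟨pr 1 τ m, pr 2 τ m, hprpos 1, hprpos 2, ?_, ?_, ?_, ?_⟩
  · rw [pr, pr, ← Finset.prod_mul_distrib]
    refine Finset.prod_dvd_prod_of_dvd _ _ fun i _ => ?_
    change _ ∣ m i
    by_cases h1 : τ i = 1
    · simp [h1]
    · by_cases h2 : τ i = 2
      · simp [h2]
      · simp [h1, h2]
  · have hmr : ∀ i, m i ≡ r i [MOD q] := fun i => by
      simp only [hm]
      exact (Nat.modEq_iff_dvd' (by omega)).2 (by simp) |>.symm
    have h1 : pr 1 τ m + pr 2 τ m ≡ pr 1 τ r + pr 2 τ r [MOD q] :=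
      (T6.pr_modEq 1 τ m r hmr).add (T6.pr_modEq 2 τ m r hmr)
    exact (Nat.modEq_zero_iff_dvd).1 (h1.trans ((Nat.modEq_zero_iff_dvd).2 hdvd))
  · exact T6.side hN hh 1 2 τ m hlo hup hk
  · exact T6.side hN hh 2 1 τ m hlo hup hk.symm

end Pool.Agent.H591R2.Egy
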