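import Pool.Agent.H591R2.Egy.Defs2

/-!
# Egyptian fractions, task T7: subset sum digits (helper594)
-/

namespace Pool.Agent.H591R2.Egy

open Finset

/-! ### Splitting the index set -/

theorem t7_prod_odd {M : Type*} [CommMonoid M] (f : ℕ → M) (n : ℕ) :
    ∏ i ∈ range (2 * n + 1), f i = f 0 * ∏ j ∈ range n, (f (2 * j + 1) * f (2 * j + 2)) := by
  induction n with
  | zero => simp
  | succ n ih =>
    rw [show 2 * (n + 1) + 1 = (2 * n + 1) + 1 + 1 by ring, prod_range_succ, prod_range_succ, ih,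
      prod_range_succ]
    rw [mul_assoc, mul_assoc]

theorem t7_prod_split {M : Type*} [CommMonoid M] (f : ℕ → M) (n N : ℕ) (h : 2 * n + 1 ≤ N) :
    ∏ i ∈ range N, f i = f 0 * (∏ j ∈ range n, (f (2 * j + 1) * f (2 * j + 2))) *
      ∏ k ∈ range (N - (2 * n + 1)), f (2 * n + 1 + k) := by
  obtain ⟨m, rfl⟩ := Nat.exists_eq_add_of_le h
  rw [prod_range_add, t7_prod_odd, Nat.add_sub_cancel_left]

theorem t7_sum_split {M : Type*} [AddCommMonoid M] (f : ℕ → M) (n N : ℕ) (h : 2 * n + 1 ≤ N) :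
    ∑ i ∈ range N, f i = f 0 + (∑ j ∈ range n, (f (2 * j + 1) + f (2 * j + 2))) +
      ∑ k ∈ range (N - (2 * n + 1)), f (2 * n + 1 + k) := by
  have := t7_prod_split (M := Multiplicative M) f n N h
  exact this

/-! ### The entries of `res` -/

theorem t7_flat {α : Type*} (f g : α → ℕ) (l : List α) (j : ℕ) :
    (l.flatMap fun p => [f p, g p])[2 * j]? = (l[j]?).map f ∧
    (l.flatMap fun p => [f p, g p])[2 * j + 1]? = (l[j]?).map g := by
  induction l generalizing j with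
  | nil => simp
  | cons a l ih =>
    cases j with
    | zero => simp
    | succ j =>
      have := ih j
      rw [List.flatMap_cons]
      simp only [List.cons_append, List.nil_append, List.getElem?_cons_succ]
      rw [show 2 * (j + 1) = 2 * j + 1 + 1 by ring]
      simpa using this

theorem t7_wts (W : ℕ) (a : List ℕ) (j : ℕ) (hj : j < a.length) :
    (wts W a)[2 * j]? = some (a.getD j 0 + W * 4 ^ j) ∧
    (wts W a)[2 * j + 1]? = some (W * 4 ^ j) := by
  have h := t7_flat (fun p : ℕ × ℕ => p.1 + W * 4 ^ p.2) (fun p : ℕ × ℕ => W * 4 ^ p.2)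
    a.zipIdx j
  have h1 : a.zipIdx[j]? = some (a.getD j 0, j) := by
    rw [List.getElem?_zipIdx]
    rw [List.getElem?_eq_getElem hj]
    simp [hj]
  rw [h1] at h
  exact h

theorem t7_wts_len (W : ℕ) (a : List ℕ) : (wts W a).length = 2 * a.length := by
  rw [wts, List.length_flatMap]
  simp
  ring

theorem t7_res_zero (W Q : ℕ) (x : List ℕ × ℕ) : res W Q x 0 = Q ^ 2 - (1 + Q * tgt W x) := by
  simp [res, resL]

theorem t7_res_odd (W Q : ℕ) (x : List ℕ × ℕ) (j : ℕ) (hj : j < x.1.length) :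
    res W Q x (2 * j + 1) = 1 + Q * (x.1.getD j 0 + W * 4 ^ j) := by
  rw [res, resL, List.getD_eq_getElem?_getD, List.getElem?_cons_succ, List.getElem?_map,
    (t7_wts W x.1 j hj).1]
  rfl

theorem t7_res_even (W Q : ℕ) (x : List ℕ × ℕ) (j : ℕ) (hj : j < x.1.length) :
    res W Q x (2 * j + 2) = 1 + Q * (W * 4 ^ j) := by
  rw [res, resL, List.getD_eq_getElem?_getD, List.getElem?_cons_succ, List.getElem?_map,
    (t7_wts W x.1 j hj).2]
  rfl

theorem t7_res_big (W Q : ℕ) (x : List ℕ × ℕ) (i : ℕ) (hi : 2 * x.1.length + 1 ≤ i) :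
    res W Q x i = 1 := by
  rw [res, resL, List.getD_eq_default]
  simp [t7_wts_len]
  omega

/-! ### Products modulo `Q ^ 2` -/

theorem t7_prod_one_add {R : Type*} [CommRing R] (θ : R) (hθ : θ ^ 2 = 0) (s : ℕ → R) (n : ℕ) :
    ∏ j ∈ range n, (1 + θ * s j) = 1 + θ * ∑ j ∈ range n, s j := by
  induction n with
  | zero => simp
  | succ n ih =>
    rw [prod_range_succ, ih, sum_range_succ]
    linear_combination (s n * ∑ j ∈ range n, s j) * hθ

/-- sum of the weights of the items (other than the target) of type `c` -/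
def t7S (W : ℕ) (a : List ℕ) (τ : ℕ → Fin 3) (c : Fin 3) : ℕ :=
  ∑ j ∈ range a.length, ((if τ (2 * j + 1) = c then a.getD j 0 + W * 4 ^ j else 0) +
    (if τ (2 * j + 2) = c then W * 4 ^ j else 0))

theorem t7_pr (N W Q : ℕ) (x : List ℕ × ℕ) (hN : 2 * x.1.length + 1 ≤ N)
    (hQ : 1 + Q * tgt W x ≤ Q ^ 2) (τ : ℕ → Fin 3) (c : Fin 3) :
    ((pr c (fun i : Fin N => τ i) (fun i : Fin N => res W Q x i) : ℕ) : ZMod (Q ^ 2)) =
      (if τ 0 = c then -(1 + (Q : ZMod (Q ^ 2)) * (tgt W x : ℕ)) else 1) *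
        (1 + (Q : ZMod (Q ^ 2)) * (t7S W x.1 τ c : ℕ)) := by
  have hθ : (Q : ZMod (Q ^ 2)) ^ 2 = 0 := by
    rw [← Nat.cast_pow]; exact ZMod.natCast_self _
  have h1 : pr c (fun i : Fin N => τ i) (fun i : Fin N => res W Q x i) =
      ∏ i ∈ range N, (if τ i = c then res W Q x i else 1) := by
    rw [pr, Finset.prod_range]
  rw [h1, t7_prod_split _ _ _ hN]
  have h2 : ∏ k ∈ range (N - (2 * x.1.length + 1)),
      (if τ (2 * x.1.length + 1 + k) = c then res W Q x (2 * x.1.length + 1 + k) else 1) = 1 := by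
    refine prod_eq_one fun k _ => ?_
    rw [t7_res_big W Q x _ (by omega)]
    simp
  rw [h2, mul_one, Nat.cast_mul, Nat.cast_prod]
  congr 1
  · split_ifs
    · rw [t7_res_zero, Nat.cast_sub hQ]
      push_cast
      rw [hθ]; ring
    · simp
  · rw [t7S, Nat.cast_sum, ← t7_prod_one_add _ hθ]
    refine prod_congr rfl fun j hj => ?_
    rw [mem_range] at hj
    rw [t7_res_odd W Q x j hj, t7_res_even W Q x j hj]
    split_ifs
    · push_cast
      linear_combination (((x.1.getD j 0 : ℕ) : ZMod (Q ^ 2)) + (W : ZMod (Q ^ 2)) * 4 ^ j) *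
        ((W : ZMod (Q ^ 2)) * 4 ^ j) * hθ
    · push_cast; ring
    · push_cast; ring
    · push_cast; ring

/-! ### Sublists and subsets of indices -/

theorem t7_sub_to_fun (s a : List ℕ) (h : s.Sublist a) : ∃ ε : ℕ → Bool,
    s.sum = ∑ j ∈ range a.length, (if ε j then a.getD j 0 else 0) := by
  induction h with
  | slnil => exact ⟨fun _ => false, by simp⟩
  | @cons l₁ l₂ a _ ih =>
    obtain ⟨ε, hε⟩ := ih
    refine ⟨fun j => match j with | 0 => false | j + 1 => ε j, ?_⟩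
    rw [List.length_cons, sum_range_succ', hε]
    simp
  | @cons_cons l₁ l₂ a _ ih =>
    obtain ⟨ε, hε⟩ := ih
    refine ⟨fun j => match j with | 0 => true | j + 1 => ε j, ?_⟩
    rw [List.length_cons, sum_range_succ', List.sum_cons, hε]
    simp [add_comm]

theorem t7_fun_to_sub (a : List ℕ) (ε : ℕ → Bool) : ∃ s : List ℕ, s.Sublist a ∧
    s.sum = ∑ j ∈ range a.length, (if ε j then a.getD j 0 else 0) := by
  induction a generalizing ε with
  | nil => exact ⟨[], List.Sublist.refl _, by simp⟩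
  | cons b a ih =>
    obtain ⟨s, hs, hsum⟩ := ih (fun j => ε (j + 1))
    by_cases h : ε 0 = true
    · refine ⟨b :: s, hs.cons_cons b, ?_⟩
      rw [List.length_cons, sum_range_succ', List.sum_cons, hsum]
      simp [h, add_comm]
    · refine ⟨s, hs.cons b, ?_⟩
      rw [List.length_cons, sum_range_succ', hsum]
      simp [h]

theorem t7_sum_list (a : List ℕ) : a.sum = ∑ j ∈ range a.length, a.getD j 0 := by
  induction a with
  | nil => simp
  | cons b a ih =>
    rw [List.length_cons, sum_range_succ', List.sum_cons, ih]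
    simp [add_comm]

/-! ### Powers of four -/

/-- `∑_{j<n} 4^j` -/
def t7G (n : ℕ) : ℕ := ((List.range n).map fun j => 4 ^ j).sum

theorem t7G_succ (n : ℕ) : t7G (n + 1) = t7G n + 4 ^ n := by
  rw [t7G, List.sum_range_succ]; rfl

theorem t7G_eq (n : ℕ) : 3 * t7G n + 1 = 4 ^ n := by
  induction n with
  | zero => rfl
  | succ n ih => rw [t7G_succ, pow_succ]; omega

theorem t7G_sum (n : ℕ) : t7G n = ∑ j ∈ range n, 4 ^ j := by
  induction n with
  | zero => rfl
  | succ n ih => rw [t7G_succ, sum_range_succ, ih]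

theorem t7_tgt (W : ℕ) (x : List ℕ × ℕ) : tgt W x = x.2 + W * t7G x.1.length := rfl

theorem t7_digits (n : ℕ) (c : ℕ → ℤ) (hc : ∀ j < n, -3 ≤ c j ∧ c j ≤ 3)
    (h : ∑ j ∈ range n, c j * 4 ^ j = 0) : ∀ j < n, c j = 0 := by
  induction n generalizing c with
  | zero => intro j hj; omega
  | succ n ih =>
    rw [sum_range_succ'] at h
    have h1 : ∑ j ∈ range n, c (j + 1) * 4 ^ (j + 1) = 4 * ∑ j ∈ range n, c (j + 1) * 4 ^ j := by
      rw [mul_sum]
      exact sum_congr rfl fun j _ => by ring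
    rw [h1] at h
    have h0 := hc 0 (by omega)
    have h2 : c 0 = 0 := by
      simp only [pow_zero, mul_one] at h
      omega
    have h3 : ∑ j ∈ range n, c (j + 1) * 4 ^ j = 0 := by
      simp only [pow_zero, mul_one] at h
      omega
    have h4 := ih (fun j => c (j + 1)) (fun j hj => hc (j + 1) (by omega)) h3
    intro j hj
    cases j with
    | zero => exact h2
    | succ j => exact h4 j (by omega)

theorem t7_core (n : ℕ) (a : ℕ → ℕ) (W t : ℕ) (e f : ℕ → ℤ)
    (he : ∀ j < n, -1 ≤ e j ∧ e j ≤ 1) (hf : ∀ j < n, -1 ≤ f j ∧ f j ≤ 1)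
    (hW : ∑ j ∈ range n, a j + t < W)
    (h : (t : ℤ) + W * ∑ j ∈ range n, 4 ^ j =
      ∑ j ∈ range n, (e j * (a j + W * 4 ^ j) + f j * (W * 4 ^ j))) :
    (t : ℤ) = ∑ j ∈ range n, e j * a j ∧ ∀ j < n, e j = 0 ∨ e j = 1 := by
  have h1 : (t : ℤ) - ∑ j ∈ range n, e j * a j =
      W * ∑ j ∈ range n, (e j + f j - 1) * 4 ^ j := by
    have h2 : ∑ j ∈ range n, (e j * ((a j : ℤ) + W * 4 ^ j) + f j * (W * 4 ^ j)) =
        ∑ j ∈ range n, e j * a j + W * ∑ j ∈ range n, (e j + f j - 1) * 4 ^ j +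
          W * ∑ j ∈ range n, 4 ^ j := by
      rw [mul_sum, mul_sum, ← sum_add_distrib, ← sum_add_distrib]
      exact sum_congr rfl fun j _ => by ring
    rw [h2] at h
    linarith
  have h3 : |(t : ℤ) - ∑ j ∈ range n, e j * a j| < W := by
    have h4 : |∑ j ∈ range n, e j * (a j : ℤ)| ≤ ∑ j ∈ range n, (a j : ℤ) := by
      refine (abs_sum_le_sum_abs _ _).trans (sum_le_sum fun j hj => ?_)
      rw [mem_range] at hj
      rw [abs_mul, Nat.abs_cast]
      have : |e j| ≤ 1 := abs_le.mpr (he j hj)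
      nlinarith [Int.natCast_nonneg (a j)]
    have h5 : |(t : ℤ) - ∑ j ∈ range n, e j * a j| ≤ |(t : ℤ)| + |∑ j ∈ range n, e j * (a j : ℤ)| :=
      abs_sub _ _
    have h6 : ((∑ j ∈ range n, a j + t : ℕ) : ℤ) < W := by exact_mod_cast hW
    push_cast at h6
    rw [Nat.abs_cast] at h5
    linarith
  have hWpos : (0 : ℤ) < W := lt_of_le_of_lt (abs_nonneg _) h3
  have h7 : ∑ j ∈ range n, (e j + f j - 1) * 4 ^ j = 0 := by
    rw [h1, abs_mul, abs_of_pos hWpos] at h3
    have h8 : |∑ j ∈ range n, (e j + f j - 1) * 4 ^ j| < 1 := by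
      by_contra hcon
      push Not at hcon
      nlinarith
    exact Int.abs_lt_one_iff.mp h8
  rw [h7, mul_zero] at h1
  refine ⟨by linarith, fun j hj => ?_⟩
  have h9 := t7_digits n (fun j => e j + f j - 1) (fun j hj => by
    have := he j hj
    have := hf j hj
    constructor <;> omega) h7 j hj
  have h10 := he j hj
  have h11 := hf j hj
  omega

/-! ### Bounds -/

theorem t7_tgt_lt {W Q : ℕ} (x : List ℕ × ℕ) (hW : x.1.sum + x.2 < W)
    (hQ : W * 4 ^ (x.1.length + 1) < Q) : tgt W x + 1 < Q := by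
  rw [t7_tgt]
  have h1 := t7G_eq x.1.length
  have h2 : 4 ^ (x.1.length + 1) = 12 * t7G x.1.length + 4 := by rw [pow_succ, ← h1]; ring
  rw [h2, show W * (12 * t7G x.1.length + 4) = 12 * (W * t7G x.1.length) + 4 * W by ring] at hQ
  generalize W * t7G x.1.length = V at *
  omega

theorem t7_S_bound (W : ℕ) (a : List ℕ) (τ : ℕ → Fin 3) :
    t7S W a τ 1 + t7S W a τ 2 ≤ a.sum + 2 * (W * t7G a.length) := by
  rw [t7_sum_list, t7G_sum, mul_sum, mul_sum, t7S, t7S, ← sum_add_distrib, ← sum_add_distrib]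
  refine sum_le_sum fun j _ => ?_
  have h1 : ∀ c : Fin 3, ∀ u : ℕ, (if c = 1 then u else 0) + (if c = 2 then u else 0) ≤ u := by
    intro c u
    fin_cases c <;> simp
  have h2 := h1 (τ (2 * j + 1)) (a.getD j 0 + W * 4 ^ j)
  have h3 := h1 (τ (2 * j + 2)) (W * 4 ^ j)
  omega

theorem t7_solve (W : ℕ) (x : List ℕ × ℕ) (hW : x.1.sum + x.2 < W) (τ : ℕ → Fin 3) (c c' : Fin 3)
    (_hcc : c = 1 ∧ c' = 2 ∨ c = 2 ∧ c' = 1)
    (h : tgt W x + t7S W x.1 τ c = t7S W x.1 τ c') : SubSum x := by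
  let ind : Fin 3 → ℤ := fun d => (if d = c' then 1 else 0) - (if d = c then 1 else 0)
  have hind : ∀ d, -1 ≤ ind d ∧ ind d ≤ 1 := by
    intro d
    simp only [ind]
    split_ifs <;> simp
  have hcore := t7_core x.1.length (fun j => x.1.getD j 0) W x.2
    (fun j => ind (τ (2 * j + 1))) (fun j => ind (τ (2 * j + 2)))
    (fun j _ => hind _) (fun j _ => hind _) (by rw [← t7_sum_list]; exact hW) ?_
  · obtain ⟨h1, h2⟩ := hcore
    obtain ⟨s, hs, hsum⟩ := t7_fun_to_sub x.1 (fun j => decide (ind (τ (2 * j + 1)) = 1))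
    refine ⟨s, hs, ?_⟩
    have h3 : ((s.sum : ℕ) : ℤ) = (x.2 : ℤ) := by
      rw [h1, hsum]
      push_cast
      refine sum_congr rfl fun j hj => ?_
      rw [mem_range] at hj
      rcases h2 j hj with h4 | h4
      · rw [h4]; simp
      · rw [h4]; simp
    exact_mod_cast h3
  · rw [t7_tgt, t7G_sum] at h
    have h' : (((x.2 + W * ∑ j ∈ range x.1.length, 4 ^ j) + t7S W x.1 τ c : ℕ) : ℤ) =
        (t7S W x.1 τ c' : ℕ) := by exact_mod_cast h
    simp only [t7S] at h'
    push_cast at h'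
    have h5 : ∀ d : Fin 3, ∀ u : ℤ, ind d * u = (if d = c' then u else 0) - (if d = c then u else 0) := by
      intro d u
      simp only [ind]
      split_ifs <;> ring
    simp only [h5]
    have h6 : ∀ (A B C D : ℕ → ℤ), ∑ j ∈ range x.1.length, (A j - B j + (C j - D j)) =
        ∑ j ∈ range x.1.length, (A j + C j) - ∑ j ∈ range x.1.length, (B j + D j) := by
      intro A B C D
      rw [← sum_sub_distrib]
      exact sum_congr rfl fun j _ => by ring
    rw [h6]
    linarith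

theorem noSol_res {N W Q : ℕ} (x : List ℕ × ℕ) (hN : 3 * x.1.length + 2 ≤ N)
    (hW : x.1.sum + x.2 < W) (hQ : W * 4 ^ (x.1.length + 1) < Q) (hx : ¬ SubSum x) :
    NoSol (Q ^ 2) (fun i : Fin N => res W Q x i) := by
  intro τ0 hdvd
  apply hx
  -- extend `τ`
  let τ : ℕ → Fin 3 := fun i => if h : i < N then τ0 ⟨i, h⟩ else 0
  have hτ : τ0 = fun i : Fin N => τ i := by
    funext i
    simp [τ]
  rw [hτ] at hdvd
  have hT := t7_tgt_lt x hW hQ
  have hQ1 : 1 + Q * tgt W x ≤ Q ^ 2 := by nlinarith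
  have hS := t7_S_bound W x.1 τ
  have hG := t7G_eq x.1.length
  have hall : tgt W x + (t7S W x.1 τ 1 + t7S W x.1 τ 2) < Q := by
    rw [t7_tgt]
    have h2 : 4 ^ (x.1.length + 1) = 12 * t7G x.1.length + 4 := by rw [pow_succ, ← hG]; ring
    rw [h2] at hQ
    nlinarith
  have hQ4 : 4 < Q := by
    have h2 : 4 ^ (x.1.length + 1) = 12 * t7G x.1.length + 4 := by rw [pow_succ, ← hG]; ring
    rw [h2] at hQ
    have : 1 ≤ W := by omega
    nlinarith
  rw [← CharP.cast_eq_zero_iff (ZMod (Q ^ 2)) (Q ^ 2)] at hdvd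
  rw [Nat.cast_add, t7_pr N W Q x (by omega) hQ1, t7_pr N W Q x (by omega) hQ1] at hdvd
  have hθ : (Q : ZMod (Q ^ 2)) ^ 2 = 0 := by
    rw [← Nat.cast_pow]; exact ZMod.natCast_self _
  have hτ0 : τ 0 = 0 ∨ τ 0 = 1 ∨ τ 0 = 2 := by
    generalize τ 0 = c
    fin_cases c <;> simp
  -- conclusion from `Q * (z) = 0`
  have hcancel : ∀ z : ℤ, (Q : ZMod (Q ^ 2)) * (z : ZMod (Q ^ 2)) = 0 → |z| < Q → z = 0 := by
    intro z hz hlt
    have h1 : ((Q ^ 2 : ℕ) : ℤ) ∣ (Q : ℤ) * z := by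
      rw [← ZMod.intCast_zmod_eq_zero_iff_dvd]
      push_cast
      exact hz
    push_cast at h1
    rw [pow_two] at h1
    have h2 : (Q : ℤ) ∣ z := Int.dvd_of_mul_dvd_mul_left (by positivity) h1
    exact Int.eq_zero_of_abs_lt_dvd h2 hlt
  rcases hτ0 with h0 | h0 | h0
  · exfalso
    rw [h0] at hdvd
    simp only [show (0 : Fin 3) = 1 ↔ False by decide, show (0 : Fin 3) = 2 ↔ False by decide,
      if_false, one_mul] at hdvd
    have h1 : ((Q ^ 2 : ℕ) : ℤ) ∣ 2 + Q * ((t7S W x.1 τ 1 : ℕ) + (t7S W x.1 τ 2 : ℕ)) := by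
      rw [← ZMod.intCast_zmod_eq_zero_iff_dvd]
      push_cast
      rw [← hdvd]; ring
    have h2 : (Q : ℤ) ∣ 2 + Q * ((t7S W x.1 τ 1 : ℕ) + (t7S W x.1 τ 2 : ℕ)) :=
      dvd_trans (by push_cast; exact dvd_pow_self _ (by norm_num)) h1
    have h3 : (Q : ℤ) ∣ 2 := (Int.dvd_add_left (dvd_mul_right _ _)).mp h2
    have h4 := Int.le_of_dvd (by norm_num) h3
    omega
  · rw [h0] at hdvd
    simp only [if_true, show (1 : Fin 3) = 2 ↔ False by decide, if_false, one_mul] at hdvd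
    refine t7_solve W x hW τ 1 2 (Or.inl ⟨rfl, rfl⟩) ?_
    have h1 := hcancel ((t7S W x.1 τ 2 : ℕ) - (tgt W x : ℕ) - (t7S W x.1 τ 1 : ℕ)) ?_ ?_
    · omega
    · push_cast
      linear_combination hdvd + ((tgt W x : ℕ) : ZMod (Q ^ 2)) * ((t7S W x.1 τ 1 : ℕ) : ZMod (Q ^ 2)) * hθ
    · rw [abs_lt]; constructor <;> omega
  · rw [h0] at hdvd
    simp only [if_true, show (2 : Fin 3) = 1 ↔ False by decide, if_false, one_mul] at hdvd
    refine t7_solve W x hW τ 2 1 (Or.inr ⟨rfl, rfl⟩) ?_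
    have h1 := hcancel ((t7S W x.1 τ 1 : ℕ) - (tgt W x : ℕ) - (t7S W x.1 τ 2 : ℕ)) ?_ ?_
    · omega
    · push_cast
      linear_combination hdvd + ((tgt W x : ℕ) : ZMod (Q ^ 2)) * ((t7S W x.1 τ 2 : ℕ) : ZMod (Q ^ 2)) * hθ
    · rw [abs_lt]; constructor <;> omega

theorem res_bounds {W κ : ℕ} (x : List ℕ × ℕ) (hW : x.1.sum + x.2 < W)
    (hQ : W * 4 ^ (x.1.length + 1) < 3 ^ κ) (i : ℕ) :
    res W (3 ^ κ) x i < (3 ^ κ) ^ 2 ∧
      (res W (3 ^ κ) x i % 3 ^ κ = 1 ∨ res W (3 ^ κ) x i % 3 ^ κ = 3 ^ κ - 1) := by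
  generalize 3 ^ κ = Q at *
  have hT := t7_tgt_lt x hW hQ
  have hG := t7G_eq x.1.length
  have h2 : 4 ^ (x.1.length + 1) = 12 * t7G x.1.length + 4 := by rw [pow_succ, ← hG]; ring
  have hQ4 : 4 < Q := by
    rw [h2] at hQ
    have : 1 ≤ W := by omega
    nlinarith
  have hgen : ∀ s : ℕ, s < Q → 1 + Q * s < Q ^ 2 ∧ (1 + Q * s) % Q = 1 := by
    intro s hs
    constructor
    · nlinarith
    · rw [Nat.add_mul_mod_self_left]
      exact Nat.mod_eq_of_lt (by omega)
  have hj4 : ∀ j < x.1.length, 4 ^ j ≤ 4 ^ x.1.length := fun j hj =>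
    Nat.pow_le_pow_right (by norm_num) hj.le
  rcases Nat.eq_zero_or_pos i with rfl | hi
  · rw [t7_res_zero]
    obtain ⟨d, hd⟩ : ∃ d, Q = tgt W x + 1 + d := ⟨Q - (tgt W x + 1), by omega⟩
    have h3 : Q ^ 2 - (1 + Q * tgt W x) = (Q - 1) + Q * d := by
      have h4 : Q ^ 2 = Q * tgt W x + Q + Q * d := by
        rw [pow_two]; nth_rewrite 2 [hd]; ring
      omega
    rw [h3]
    constructor
    · have h4 : Q ^ 2 = Q * tgt W x + Q + Q * d := by
        rw [pow_two]; nth_rewrite 2 [hd]; ring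
      omega
    · right
      rw [Nat.add_mul_mod_self_left]
      exact Nat.mod_eq_of_lt (by omega)
  · by_cases hbig : 2 * x.1.length + 1 ≤ i
    · rw [t7_res_big W Q x i hbig]
      refine ⟨by nlinarith, Or.inl (Nat.mod_eq_of_lt (by omega))⟩
    · push Not at hbig
      rcases Nat.even_or_odd' i with ⟨j, hj | hj⟩
      · -- i = 2 j, j ≥ 1
        obtain ⟨k, rfl⟩ : ∃ k, j = k + 1 := ⟨j - 1, by omega⟩
        have hk : k < x.1.length := by omega
        have : i = 2 * k + 2 := by omega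
        rw [this, t7_res_even W Q x k hk]
        have h5 : W * 4 ^ k < Q := by
          have := hj4 k hk
          rw [← hG] at this
          rw [h2] at hQ
          have : 1 ≤ W := by omega
          nlinarith
        exact ⟨(hgen _ h5).1, Or.inl (hgen _ h5).2⟩
      · have hk : j < x.1.length := by omega
        rw [hj, t7_res_odd W Q x j hk]
        have h6 : x.1.getD j 0 ≤ x.1.sum := by
          rw [List.getD_eq_getElem _ _ hk]
          exact List.single_le_sum (by simp) _ (List.getElem_mem hk)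
        have h5 : x.1.getD j 0 + W * 4 ^ j < Q := by
          have := hj4 j hk
          rw [← hG] at this
          rw [h2] at hQ
          have : 1 ≤ W := by omega
          nlinarith
        exact ⟨(hgen _ h5).1, Or.inl (hgen _ h5).2⟩

/-! ### Positive instances -/

/-- the type of the item `i` for the subset `ε` -/
def t7ty (n : ℕ) (ε : ℕ → Bool) (i : ℕ) : Fin 3 :=
  if i = 0 then 2
  else if i ≤ 2 * n then
    (if ε ((i - 1) / 2) then (if i % 2 = 1 then 1 else 0) else (if i % 2 = 1 then 0 else 1))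
  else if i = 2 * n + 1 then 1
  else if i ≤ 3 * n + 1 then 2
  else 0

theorem t7ty_odd (n : ℕ) (ε : ℕ → Bool) (j : ℕ) (hj : j < n) :
    t7ty n ε (2 * j + 1) = if ε j then 1 else 0 := by
  have e1 : ¬ (2 * j + 1 = 0) := by omega
  have e2 : 2 * j + 1 ≤ 2 * n := by omega
  have e3 : (2 * j + 1) % 2 = 1 := by omega
  have e4 : (2 * j + 1 - 1) / 2 = j := by omega
  rw [t7ty, if_neg e1, if_pos e2, e4, if_pos e3, if_pos e3]

theorem t7ty_even (n : ℕ) (ε : ℕ → Bool) (j : ℕ) (hj : j < n) :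
    t7ty n ε (2 * j + 2) = if ε j then 0 else 1 := by
  have e1 : ¬ (2 * j + 2 = 0) := by omega
  have e2 : 2 * j + 2 ≤ 2 * n := by omega
  have e3 : ¬ ((2 * j + 2) % 2 = 1) := by omega
  have e4 : (2 * j + 2 - 1) / 2 = j := by omega
  rw [t7ty, if_neg e1, if_pos e2, e4, if_neg e3, if_neg e3]

theorem t7ty_big0 (n : ℕ) (ε : ℕ → Bool) : t7ty n ε (2 * n + 1 + 0) = 1 := by
  have e1 : ¬ (2 * n + 1 + 0 = 0) := by omega
  have e2 : ¬ (2 * n + 1 + 0 ≤ 2 * n) := by omega
  have e3 : 2 * n + 1 + 0 = 2 * n + 1 := by omega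
  rw [t7ty, if_neg e1, if_neg e2, if_pos e3]

theorem t7ty_big1 (n : ℕ) (ε : ℕ → Bool) (k : ℕ) (hk : k < n) :
    t7ty n ε (2 * n + 1 + (k + 1)) = 2 := by
  have e1 : ¬ (2 * n + 1 + (k + 1) = 0) := by omega
  have e2 : ¬ (2 * n + 1 + (k + 1) ≤ 2 * n) := by omega
  have e3 : ¬ (2 * n + 1 + (k + 1) = 2 * n + 1) := by omega
  have e4 : 2 * n + 1 + (k + 1) ≤ 3 * n + 1 := by omega
  rw [t7ty, if_neg e1, if_neg e2, if_neg e3, if_pos e4]

theorem t7ty_big2 (n : ℕ) (ε : ℕ → Bool) (k : ℕ) :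
    t7ty n ε (2 * n + 1 + (n + k + 1)) = 0 := by
  have e1 : ¬ (2 * n + 1 + (n + k + 1) = 0) := by omega
  have e2 : ¬ (2 * n + 1 + (n + k + 1) ≤ 2 * n) := by omega
  have e3 : ¬ (2 * n + 1 + (n + k + 1) = 2 * n + 1) := by omega
  have e4 : ¬ (2 * n + 1 + (n + k + 1) ≤ 3 * n + 1) := by omega
  rw [t7ty, if_neg e1, if_neg e2, if_neg e3, if_neg e4]

theorem t7_count (n N : ℕ) (hN : 3 * n + 2 ≤ N) (ε : ℕ → Bool) (c : Fin 3) (hc : c = 1 ∨ c = 2) :
    (Finset.univ.filter fun i : Fin N => t7ty n ε i = c).card = n + 1 := by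
  rw [card_filter, ← Finset.sum_range (fun i => if t7ty n ε i = c then 1 else 0),
    t7_sum_split _ n N (by omega)]
  have h3 : ∑ k ∈ range (N - (2 * n + 1)), (if t7ty n ε (2 * n + 1 + k) = c then 1 else 0) =
      if c = 1 then 1 else n := by
    obtain ⟨m, hm⟩ := Nat.exists_eq_add_of_le hN
    have hr : N - (2 * n + 1) = (n + m) + 1 := by omega
    rw [hr, sum_range_succ', sum_range_add]
    have h4 : ∑ k ∈ range n, (if t7ty n ε (2 * n + 1 + (k + 1)) = c then 1 else 0) =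
        if c = 2 then n else 0 := by
      rw [sum_congr rfl (g := fun _ => if c = 2 then 1 else 0)]
      · split_ifs <;> simp
      · intro k hk
        rw [mem_range] at hk
        rw [t7ty_big1 n ε k hk]
        simp only [eq_comm]
    have h5 : ∑ k ∈ range m, (if t7ty n ε (2 * n + 1 + (n + k + 1)) = c then 1 else 0) = 0 := by
      refine sum_eq_zero fun k _ => ?_
      rw [t7ty_big2, if_neg]
      rcases hc with rfl | rfl <;> decide
    rw [h4, h5, t7ty_big0]
    rcases hc with rfl | rfl <;> simp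
  rw [h3]
  have h6 : ∑ j ∈ range n, ((if t7ty n ε (2 * j + 1) = c then 1 else 0) +
      (if t7ty n ε (2 * j + 2) = c then 1 else 0)) = if c = 1 then n else 0 := by
    rw [sum_congr rfl (g := fun _ => if c = 1 then 1 else 0)]
    · split_ifs <;> simp
    · intro j hj
      rw [mem_range] at hj
      rw [t7ty_odd n ε j hj, t7ty_even n ε j hj]
      rcases hc with rfl | rfl <;> by_cases h : ε j = true <;> simp [h]
  rw [h6]
  have h7 : t7ty n ε 0 = 2 := rfl
  rw [h7]
  rcases hc with rfl | rfl <;> simp [add_comm]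

theorem balSol_res {N W Q : ℕ} (x : List ℕ × ℕ) (hN : 3 * x.1.length + 2 ≤ N)
    (hQ : 1 + Q * tgt W x ≤ Q ^ 2) (hx : SubSum x) :
    BalSol (Q ^ 2) (fun i : Fin N => res W Q x i) := by
  obtain ⟨s, hs, hsum⟩ := hx
  obtain ⟨ε, hε⟩ := t7_sub_to_fun s x.1 hs
  refine ⟨fun i : Fin N => t7ty x.1.length ε i, ?_, ?_⟩
  · rw [← CharP.cast_eq_zero_iff (ZMod (Q ^ 2)) (Q ^ 2)]
    rw [Nat.cast_add, t7_pr N W Q x (by omega) hQ, t7_pr N W Q x (by omega) hQ]
    have h0 : t7ty x.1.length ε 0 = 2 := rfl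
    have h1 : t7S W x.1 (t7ty x.1.length ε) 1 = tgt W x := by
      rw [t7_tgt, t7G_sum, ← hsum, hε, mul_sum, t7S, ← sum_add_distrib]
      refine sum_congr rfl fun j hj => ?_
      rw [mem_range] at hj
      rw [t7ty_odd _ ε j hj, t7ty_even _ ε j hj]
      by_cases h : ε j = true <;> simp [h]
    have h2 : t7S W x.1 (t7ty x.1.length ε) 2 = 0 := by
      rw [t7S]
      refine sum_eq_zero fun j hj => ?_
      rw [mem_range] at hj
      rw [t7ty_odd _ ε j hj, t7ty_even _ ε j hj]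
      by_cases h : ε j = true <;> simp [h]
    rw [h0, h1, h2]
    simp only [if_true, show (2 : Fin 3) = 1 ↔ False by decide, if_false, one_mul]
    simp
  · rw [t7_count _ N hN ε 1 (Or.inl rfl), t7_count _ N hN ε 2 (Or.inr rfl)]

end Pool.Agent.H591R2.Egy
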