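import Pool.Agent.H591R2.Egy.Defs2
import Pool.Agent.NPC.Num

/-!
# Random strings
-/

namespace Pool.Agent.H591R2.Egy

open Finset NPC

theorem valB_inj : ∀ (s s' : List Bool), s.length = s'.length → valB s = valB s' → s = s'
  | [], [], _, _ => rfl
  | [], _ :: _, h, _ => by simp at h
  | _ :: _, [], h, _ => by simp at h
  | a :: s, a' :: s', h, h' => by
    simp only [valB_cons] at h'
    have h1 : a = a' := by
      cases a <;> cases a' <;> simp_all <;> omega
    subst h1
    have h2 : valB s = valB s' := by omega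
    rw [valB_inj s s' (by simpa using h) h2]

/-- strings and numbers -/
theorem bij_strings (L : ℕ) : Function.Bijective
    (fun s : {s : List Bool // s.length = L} => (⟨valB s.1, by
      have := valB_lt s.1
      rw [s.2] at this
      exact this⟩ : Fin (2 ^ L))) := by
  have : Fintype {s : List Bool // s.length = L} := inferInstanceAs (Fintype (List.Vector Bool L))
  rw [Fintype.bijective_iff_injective_and_card]
  constructor
  · intro s s' h
    simp only [Fin.mk.injEq] at h
    exact Subtype.ext (valB_inj _ _ (by rw [s.2, s'.2]) h)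
  · rw [Fintype.card_fin]
    have h1 := card_vector (α := Bool) L
    rw [Fintype.card_bool] at h1
    rw [← h1]
    exact Fintype.card_congr (Equiv.refl _)

theorem card_strings (b N : ℕ) (P : (ℕ → ℕ) → Prop) (hP : ∀ f g : ℕ → ℕ,
      (∀ i < N, f i = g i) → (P f ↔ P g)) :
    Nat.card {s : List Bool // s.length = b * N ∧ P (fun i => blk b (NPC.valB s) i)} =
      Nat.card {t : Fin N → Fin (2 ^ b) // P (fun i => if h : i < N then (t ⟨i, h⟩ : ℕ) else 0)} := by
  let e1 := Equiv.ofBijective _ (bij_strings (b * N))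
  have hpow : 2 ^ (b * N) = (2 ^ b) ^ N := pow_mul 2 b N
  let e2 : Fin (2 ^ (b * N)) ≃ (Fin N → Fin (2 ^ b)) :=
    (finCongr hpow).trans finFunctionFinEquiv.symm
  let e := e1.trans e2
  have he : ∀ (s : {s : List Bool // s.length = b * N}) (i : Fin N),
      ((e s i : Fin (2 ^ b)) : ℕ) = blk b (valB s.1) i := by
    intro s i
    have h1 : ((e s i : Fin (2 ^ b)) : ℕ) = valB s.1 / (2 ^ b) ^ (i : ℕ) % 2 ^ b := rfl
    rw [h1, blk, pow_mul]
  refine Nat.card_congr ?_
  refine (Equiv.subtypeSubtypeEquivSubtypeInter (fun s : List Bool => s.length = b * N)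
    (fun s => P (fun i => blk b (valB s) i))).symm.trans ?_
  refine Equiv.subtypeEquiv e ?_
  intro s
  refine hP _ _ fun i hi => ?_
  rw [dif_pos hi, he]

end Pool.Agent.H591R2.Egy
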