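import Pool.Agent.H591R2.Egy.Defs2
import Pool.Agent.H591R2.Poly1

/-!
# T9: the instances are computed in polynomial time
-/

namespace Pool.Agent.H591R2.Egy

open Pool.Agent.NPC Pool.Agent.NPC.R591

namespace T9Aux

variable {α : Type} [TEnc α] {N : α → ℕ} {x : α → List ℕ × ℕ} {W Q : α → ℕ}

theorem prod_poly {l : α → List ℕ} (hl : NPC.Poly l) : NPC.Poly (fun a => (l a).prod) := by
  have hb : NPC.Poly (fun a => ((l a).sum + 1) ^ (l a).length) :=
    Poly.npow (by fun_prop) (UPoly.length hl)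
  refine (foldrU (s := fun _ => 1) (F := fun _ x acc => x * acc) hl (NPC.Poly.const 1)
    (by fun_prop) hb 2 ?_).congr fun a => ?_
  · intro a k hk
    refine sz_nat_mono_le ?_
    have h1 : ((l a).drop k).foldr (fun x acc => x * acc) 1 = ((l a).drop k).prod := rfl
    rw [h1]
    have h2 : ((l a).drop k).prod ≤ ((l a).sum + 1) ^ ((l a).drop k).length := by
      apply List.prod_le_pow_card
      intro y hy
      have := List.single_le_sum (fun _ _ => Nat.zero_le _) y (List.mem_of_mem_drop hy)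
      omega
    refine h2.trans (Nat.pow_le_pow_right (by omega) ?_)
    rw [List.length_drop]
    omega
  · rfl

theorem u_min {i : α → ℕ} (hi : NPC.Poly i) (hN : UPoly N) : UPoly (fun a => min (i a) (N a)) :=
  UPoly.of_le (Poly.min hi hN.toPoly) hN (fun _ => min_le_right _ _)

theorem u_cube (hN : UPoly N) (c : ℕ) : UPoly (fun a => c * N a ^ 3) := by
  have h : UPoly (fun a => c * (N a * N a * N a)) :=
    UPoly.mul (UPoly.const c) (UPoly.mul (UPoly.mul hN hN) hN)
  have e : (fun a => c * (N a * N a * N a)) = fun a => c * N a ^ 3 := by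
    funext a; ring
  rwa [e] at h

theorem u_kap (hN : UPoly N) : UPoly (fun a => kap (N a)) :=
  UPoly.add (u_cube hN 12) (UPoly.const 1)

theorem u_bb (hN : UPoly N) : UPoly (fun a => bb (N a)) :=
  UPoly.add (UPoly.add (u_cube hN 96) (UPoly.mul (UPoly.const 4) hN)) (UPoly.const 16)

theorem u_hh (hN : UPoly N) : UPoly (fun a => hh (N a)) :=
  UPoly.add (UPoly.add (u_bb hN) (UPoly.mul (UPoly.const 2) hN)) (UPoly.const 1)

theorem p_QQ (hN : UPoly N) : NPC.Poly (fun a => QQ (N a)) :=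
  Poly.npow (NPC.Poly.const 3) (u_kap hN)

theorem p_sq {Q : α → ℕ} (hQ : NPC.Poly Q) : NPC.Poly (fun a => Q a ^ 2) :=
  (show NPC.Poly (fun a => Q a * Q a) by fun_prop).congr fun a => by ring

theorem blk_poly (hN : UPoly N) {i R : α → ℕ} (hi : UPoly i) (hR : NPC.Poly R) :
    NPC.Poly (fun a => blk (bb (N a)) (R a) (i a)) := by
  have h1 : NPC.Poly (fun a => 2 ^ (bb (N a) * i a)) :=
    Poly.npow (NPC.Poly.const 2) (UPoly.mul (u_bb hN) hi)
  have h2 : NPC.Poly (fun a => 2 ^ (bb (N a))) := Poly.npow (NPC.Poly.const 2) (u_bb hN)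
  exact Poly.mod (Poly.div hR h1) h2

theorem tgt_poly (hW : NPC.Poly W) (hx : NPC.Poly x) : NPC.Poly (fun a => tgt (W a) (x a)) := by
  have h1 : UPoly (fun p : α × ℕ => min p.2 (x p.1).1.length) :=
    u_min (by fun_prop) (UPoly.length (by fun_prop))
  have h2 : NPC.Poly (fun p : α × ℕ => 4 ^ (min p.2 (x p.1).1.length)) :=
    Poly.npow (NPC.Poly.const 4) h1
  have h3 : NPC.Poly (fun a => List.range (x a).1.length) := (UPoly.length (by fun_prop)).range
  have h4 : NPC.Poly (fun a => (List.range (x a).1.length).map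
      fun j => 4 ^ (min j (x a).1.length)) := NPC.Poly.map h3 h2
  have h5 : NPC.Poly (fun a => (x a).2 + W a * ((List.range (x a).1.length).map
      fun j => 4 ^ (min j (x a).1.length)).sum) := by fun_prop
  refine h5.congr fun a => ?_
  unfold tgt
  congr 3
  apply List.map_congr_left
  intro j hj
  rw [List.mem_range] at hj
  rw [min_eq_left hj.le]

theorem wts_poly (hW : NPC.Poly W) {l : α → List ℕ} (hl : NPC.Poly l) :
    NPC.Poly (fun a => wts (W a) (l a)) := by
  have h1 : UPoly (fun p : α × (ℕ × ℕ) => min p.2.2 (l p.1).length) :=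
    u_min (by fun_prop) (UPoly.length (by fun_prop))
  have h2 : NPC.Poly (fun p : α × (ℕ × ℕ) => 4 ^ (min p.2.2 (l p.1).length)) :=
    Poly.npow (NPC.Poly.const 4) h1
  have h3 : NPC.Poly (fun p : α × (ℕ × ℕ) => [p.2.1 + W p.1 * 4 ^ (min p.2.2 (l p.1).length),
      W p.1 * 4 ^ (min p.2.2 (l p.1).length)]) := by fun_prop
  have h4 : NPC.Poly (fun a => (l a).zipIdx.flatMap fun p =>
      [p.1 + W a * 4 ^ (min p.2 (l a).length), W a * 4 ^ (min p.2 (l a).length)]) :=
    NPC.Poly.flatMap (by fun_prop) h3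
  refine h4.congr fun a => ?_
  unfold wts
  rw [List.flatMap_def, List.flatMap_def]
  congr 1
  apply List.map_congr_left
  intro p hp
  have := List.snd_lt_of_mem_zipIdx hp
  rw [min_eq_left (by omega)]

theorem res_poly (hW : NPC.Poly W) (hQ : NPC.Poly Q) (hx : NPC.Poly x) {i : α → ℕ}
    (hi : NPC.Poly i) : NPC.Poly (fun a => res (W a) (Q a) (x a) (i a)) := by
  have h1 := tgt_poly hW hx
  have h2 : NPC.Poly (fun a => wts (W a) (x a).1) := wts_poly hW (by fun_prop)
  have h3 := p_sq hQ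
  have h4 : NPC.Poly (fun a => Q a ^ 2 - (1 + Q a * tgt (W a) (x a))) :=
    Poly.sub h3 (Poly.add (NPC.Poly.const 1) (Poly.mul hQ h1))
  have h5 : NPC.Poly (fun a => (wts (W a) (x a).1).map fun s => 1 + Q a * s) :=
    NPC.Poly.map (F := fun a s => 1 + Q a * s) h2 (by fun_prop)
  have h6 : NPC.Poly (fun a => resL (W a) (Q a) (x a)) := Poly.cons h4 h5
  exact Poly.getD h6 hi (NPC.Poly.const 1)

theorem mm_poly (hN : UPoly N) (hx : NPC.Poly x) {R i : α → ℕ} (hR : NPC.Poly R)
    (hi : UPoly i) : NPC.Poly (fun a => mm (N a) (x a) (R a) (i a)) := by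
  have h1 : NPC.Poly (fun a => 2 ^ (2 * N a)) :=
    Poly.npow (NPC.Poly.const 2) (UPoly.mul (UPoly.const 2) hN)
  have h2 : NPC.Poly (fun a => 2 ^ hh (N a)) := Poly.npow (NPC.Poly.const 2) (u_hh hN)
  have h3 := p_QQ hN
  exact Poly.add (res_poly h1 h3 hx hi.toPoly)
    (Poly.mul (p_sq h3) (Poly.add h2 (blk_poly hN hi hR)))

theorem egy_poly (hN : UPoly N) (hx : NPC.Poly x) {R : α → ℕ} (hR : NPC.Poly R) :
    NPC.Poly (fun a => egyInst (N a) (x a) (R a)) := by
  have h1 : NPC.Poly (fun p : α × ℕ => mm (N p.1) (x p.1) (R p.1) (min p.2 (N p.1))) :=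
    mm_poly (hN.comp (by fun_prop)) (by fun_prop) (by fun_prop)
      (u_min (by fun_prop) (hN.comp (by fun_prop)))
  have h2 : NPC.Poly (fun a => (List.range (N a)).map fun i =>
      mm (N a) (x a) (R a) (min i (N a))) := NPC.Poly.map hN.range h1
  have h3 := prod_poly h2
  have h4 := Poly.pair (p_sq (p_QQ hN)) h3
  refine h4.congr fun a => ?_
  unfold egyInst
  congr 2
  apply List.map_congr_left
  intro i hi
  rw [List.mem_range] at hi
  rw [min_eq_left hi.le]

end T9Aux

open T9Aux in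
theorem poly_egyInst : NPC.Poly (fun z : (List Unit × (List ℕ × ℕ)) × List Bool =>
    egyInst z.1.1.length z.1.2 (NPC.valB z.2)) :=
  egy_poly (UPoly.length (by fun_prop)) (by fun_prop) (Poly.valBits (by fun_prop))

end Pool.Agent.H591R2.Egy
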