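import Pool.Agent.H591R2.Egy.T1
import Pool.Agent.H591R2.Egy.T5
import Pool.Agent.H591R2.Egy.T6
import Pool.Agent.H591R2.Egy.T7
import Pool.Agent.H591R2.Egy.T8
import Pool.Agent.H591R2.Egy.T9

/-!
# The parameters
-/

namespace Pool.Agent.H591R2.Egy

open Finset NPC

/-- the conditions on the parameter `N` -/
def Ok (N : ℕ) (x : List ℕ × ℕ) : Prop :=
  20 ≤ N ∧ 3 * x.1.length + 2 ≤ N ∧ x.1.sum + x.2 < 2 ^ (2 * N)

theorem cube_le {N : ℕ} (hN : 20 ≤ N) : 96 * N ^ 3 + 4 * N + 18 ≤ 2 ^ N := by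
  induction N, hN using Nat.le_induction with
  | base => norm_num
  | succ N hN ih =>
    have h1 : 96 * (N + 1) ^ 3 + 4 * (N + 1) + 18 ≤ 2 * (96 * N ^ 3 + 4 * N + 18) := by
      obtain ⟨k, rfl⟩ := Nat.exists_eq_add_of_le hN
      ring_nf
      nlinarith [sq_nonneg (k : ℤ), pow_nonneg (Nat.zero_le k) 3, pow_nonneg (Nat.zero_le k) 2]
    calc _ ≤ 2 * (96 * N ^ 3 + 4 * N + 18) := h1
      _ ≤ 2 * 2 ^ N := Nat.mul_le_mul_left _ ih
      _ = 2 ^ (N + 1) := by rw [pow_succ, mul_comm]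

theorem Q_big {N : ℕ} : 2 * (2 ^ (4 * N ^ 2)) ^ (3 * N) < QQ N := by
  unfold QQ kap
  rw [← pow_mul, ← pow_succ']
  have : 4 * N ^ 2 * (3 * N) + 1 = 12 * N ^ 3 + 1 := by ring
  rw [this]
  exact Nat.pow_lt_pow_left (by norm_num) (by omega)

theorem W_lt {N : ℕ} {x : List ℕ × ℕ} (h : Ok N x) :
    2 ^ (2 * N) * 4 ^ (x.1.length + 1) < QQ N := by
  obtain ⟨h1, h2, h3⟩ := h
  have h4 : (4 : ℕ) ^ (x.1.length + 1) = 2 ^ (2 * (x.1.length + 1)) := by
    rw [pow_mul]; norm_num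
  rw [h4, ← pow_add]
  have h5 : 2 * N + 2 * (x.1.length + 1) ≤ kap N := by
    unfold kap
    have : N ≤ N ^ 3 := Nat.le_self_pow (by norm_num) N
    omega
  calc 2 ^ (2 * N + 2 * (x.1.length + 1)) ≤ 2 ^ kap N := Nat.pow_le_pow_right (by norm_num) h5
    _ < 3 ^ kap N := Nat.pow_lt_pow_left (by norm_num) (by unfold kap; omega)

theorem A_big {N : ℕ} :
    ((3 ^ kap N) ^ 2 * (2 ^ hh N + 2 ^ bb N)) ^ 2 ≤ (2 ^ bb N) ^ 3 := by
  have h1 : 2 ^ hh N + 2 ^ bb N ≤ 2 ^ (bb N + 2 * N + 2) := by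
    have e1 : 2 ^ bb N ≤ 2 ^ hh N := Nat.pow_le_pow_right (by norm_num) (by unfold hh; omega)
    have e2 : 2 ^ (bb N + 2 * N + 2) = 2 ^ hh N + 2 ^ hh N := by
      unfold hh; ring
    omega
  have h2 : (3 ^ kap N) ^ 4 ≤ 2 ^ (8 * kap N) := by
    rw [← pow_mul, mul_comm, pow_mul, pow_mul]
    exact Nat.pow_le_pow_left (by norm_num) _
  calc ((3 ^ kap N) ^ 2 * (2 ^ hh N + 2 ^ bb N)) ^ 2
      ≤ ((3 ^ kap N) ^ 2 * 2 ^ (bb N + 2 * N + 2)) ^ 2 :=
        Nat.pow_le_pow_left (Nat.mul_le_mul_left _ h1) _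
    _ = (3 ^ kap N) ^ 4 * 2 ^ (2 * (bb N + 2 * N + 2)) := by
        rw [mul_pow, ← pow_mul (3 ^ kap N) 2 2, ← pow_mul 2 (bb N + 2 * N + 2) 2,
          mul_comm (bb N + 2 * N + 2) 2]
    _ ≤ 2 ^ (8 * kap N) * 2 ^ (2 * (bb N + 2 * N + 2)) := Nat.mul_le_mul_right _ h2
    _ = 2 ^ (8 * kap N + 2 * (bb N + 2 * N + 2)) := by rw [pow_add]
    _ ≤ 2 ^ (bb N * 3) := by
        refine Nat.pow_le_pow_right (by norm_num) ?_
        unfold bb kap
        omega
    _ = (2 ^ bb N) ^ 3 := by rw [pow_mul]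

theorem fail_small {N : ℕ} (hN : 20 ≤ N) :
    2 ^ N * (4 * N * 6 ^ N * (bb N + 2) ^ (2 * N)) ≤ 2 ^ (4 * N ^ 2) := by
  have h1 : bb N + 2 ≤ 2 ^ N := by
    have := cube_le hN
    unfold bb; omega
  have h2 : (6 : ℕ) ^ N ≤ 2 ^ (3 * N) := by
    rw [pow_mul]; exact Nat.pow_le_pow_left (by norm_num) _
  have h3 : N ≤ 2 ^ N := Nat.lt_two_pow_self.le
  calc 2 ^ N * (4 * N * 6 ^ N * (bb N + 2) ^ (2 * N))
      ≤ 2 ^ N * (2 ^ 2 * 2 ^ N * 2 ^ (3 * N) * (2 ^ N) ^ (2 * N)) := by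
        gcongr
        norm_num
    _ = 2 ^ (N + (2 + N + 3 * N + N * (2 * N))) := by
        rw [pow_add, pow_add, pow_add, pow_add, pow_mul 2 N (2 * N)]
    _ ≤ 2 ^ (4 * N ^ 2) := by
        refine Nat.pow_le_pow_right (by norm_num) ?_
        nlinarith

theorem prod_range_eq (N : ℕ) (f : ℕ → ℕ) :
    ((List.range N).map f).prod = ∏ i : Fin N, f i := by
  induction N with
  | zero => simp
  | succ N ih => rw [List.range_succ, List.map_append, List.prod_append, ih, Fin.prod_univ_castSucc]; simp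

theorem QQ_three {N : ℕ} : 3 ≤ QQ N := by
  unfold QQ kap
  calc 3 = 3 ^ 1 := by norm_num
    _ ≤ 3 ^ (12 * N ^ 3 + 1) := Nat.pow_le_pow_right (by norm_num) (by omega)

theorem res_cop {N : ℕ} {x : List ℕ × ℕ} (h : Ok N x) (i : ℕ) :
    Nat.Coprime (res (2 ^ (2 * N)) (QQ N) x i) 3 :=
  coprime_of_pm (κ := kap N) (by unfold kap; omega) (res_bounds x h.2.2 (W_lt h) i).2

theorem mm_cop {N : ℕ} {x : List ℕ × ℕ} (h : Ok N x) (R i : ℕ) :
    Nat.Coprime (mm N x R i) 3 := by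
  unfold mm
  have h3 : 3 ∣ QQ N ^ 2 := dvd_pow (dvd_pow_self 3 (by unfold kap; omega)) (by norm_num)
  obtain ⟨c, hc⟩ := h3
  rw [hc, mul_assoc, Nat.coprime_add_mul_left_left]
  exact res_cop h i

theorem inst_cop {N : ℕ} {x : List ℕ × ℕ} (h : Ok N x) (R : ℕ) :
    Nat.Coprime (egyInst N x R).1 (egyInst N x R).2 := by
  unfold egyInst
  simp only
  rw [prod_range_eq]
  have h1 : ∀ i : Fin N, Nat.Coprime (QQ N ^ 2) (mm N x R i) := by
    intro i
    refine Nat.Coprime.pow_left _ ?_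
    unfold QQ
    exact Nat.Coprime.pow_left _ (mm_cop h R i).symm
  exact Nat.Coprime.prod_right fun i _ => h1 i

theorem mm_ge (N : ℕ) (x : List ℕ × ℕ) (R i : ℕ) : QQ N ^ 2 * 2 ^ hh N ≤ mm N x R i := by
  unfold mm
  rw [Nat.mul_add]
  omega

theorem inst_lt {N : ℕ} (hN : 20 ≤ N) (x : List ℕ × ℕ) (R : ℕ) :
    2 < (egyInst N x R).1 ∧ (egyInst N x R).1 < (egyInst N x R).2 := by
  unfold egyInst
  simp only
  have h3 := QQ_three (N := N)
  have h4 : QQ N ≤ QQ N ^ 2 := Nat.le_self_pow (by norm_num) _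
  refine ⟨by omega, ?_⟩
  rw [prod_range_eq]
  obtain ⟨n, rfl⟩ : ∃ n, N = n + 1 := ⟨N - 1, by omega⟩
  rw [Fin.prod_univ_succ]
  have h5 := mm_ge (n + 1) x R ((0 : Fin (n + 1)) : ℕ)
  have h6 : 1 ≤ ∏ i : Fin n, mm (n + 1) x R (i.succ : ℕ) := by
    refine Finset.one_le_prod' fun i _ => ?_
    have := mm_ge (n + 1) x R ((i.succ : Fin (n + 1)) : ℕ)
    have h7 : 0 < QQ (n + 1) ^ 2 * 2 ^ hh (n + 1) := by positivity
    omega
  have h7 : 2 ≤ 2 ^ hh (n + 1) := by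
    calc 2 = 2 ^ 1 := by norm_num
      _ ≤ 2 ^ hh (n + 1) := Nat.pow_le_pow_right (by norm_num) (by unfold hh bb; omega)
  have h8 : QQ (n + 1) ^ 2 * 2 ≤ QQ (n + 1) ^ 2 * 2 ^ hh (n + 1) := Nat.mul_le_mul_left _ h7
  have h9 : mm (n + 1) x R ((0 : Fin (n + 1)) : ℕ) * 1 ≤ mm (n + 1) x R ((0 : Fin (n + 1)) : ℕ) *
    ∏ i : Fin n, mm (n + 1) x R (i.succ : ℕ) := Nat.mul_le_mul_left _ h6
  omega

/-- Positive instances. -/
theorem yes_inst {N : ℕ} {x : List ℕ × ℕ} (h : Ok N x) (hx : SubSum x) (R : ℕ) :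
    minLen (egyInst N x R).1 (egyInst N x R).2 ≤ 2 ∧
      2 ^ N * ((egyInst N x R).1 * minDen (egyInst N x R).1 (egyInst N x R).2) ≤
        (2 ^ (N + 1) + 1) * (egyInst N x R).2 := by
  have hlt := inst_lt h.1 x R
  have hcop := inst_cop h R
  have hb : 1 + QQ N * tgt (2 ^ (2 * N)) x ≤ QQ N ^ 2 := by
    have h1 := (res_bounds x h.2.2 (W_lt h) 0)
    -- the target is less than `Q`
    have h2 : tgt (2 ^ (2 * N)) x < QQ N := by
      refine lt_of_le_of_lt ?_ (W_lt h)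
      unfold tgt
      have h3 : x.2 ≤ 2 ^ (2 * N) := by have := h.2.2; omega
      have h4 : ∀ n : ℕ, 1 + ((List.range n).map fun j => 4 ^ j).sum ≤ 4 ^ (n + 1) := by
        intro n
        induction n with
        | zero => simp
        | succ n ih =>
          rw [List.range_succ, List.map_append, List.sum_append]
          simp only [List.map_cons, List.map_nil, List.sum_cons, List.sum_nil]
          have : 4 ^ (n + 1 + 1) = 4 * 4 ^ (n + 1) := by ring
          have : 4 ^ (n + 1) = 4 * 4 ^ n := by ring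
          omega
      calc x.2 + 2 ^ (2 * N) * ((List.range x.1.length).map fun j => 4 ^ j).sum
          ≤ 2 ^ (2 * N) * 1 + 2 ^ (2 * N) * ((List.range x.1.length).map fun j => 4 ^ j).sum := by
            omega
        _ = 2 ^ (2 * N) * (1 + ((List.range x.1.length).map fun j => 4 ^ j).sum) := by ring
        _ ≤ _ := Nat.mul_le_mul_left _ (h4 _)
    have h3 := QQ_three (N := N)
    calc 1 + QQ N * tgt (2 ^ (2 * N)) x ≤ QQ N + QQ N * tgt (2 ^ (2 * N)) x := by omega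
      _ = QQ N * (tgt (2 ^ (2 * N)) x + 1) := by ring
      _ ≤ QQ N * QQ N := Nat.mul_le_mul_left _ h2
      _ = QQ N ^ 2 := by ring
  have hs := balSol_res x h.2.1 hb hx
  obtain ⟨u, v, hu, hv, huv, hd, h1, h2⟩ := yes (h := hh N) (b := bb N) (by have := h.1; omega)
    (by unfold hh; omega) (fun i : Fin N => res (2 ^ (2 * N)) (QQ N) x i)
    (fun i : Fin N => blk (bb N) R i) (fun i => (res_bounds x h.2.2 (W_lt h) i).1)
    (fun i => Nat.mod_lt _ (by positivity)) hs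
  have huv' : u * v ∣ (egyInst N x R).2 := by
    unfold egyInst
    simp only
    rw [prod_range_eq]
    exact huv
  obtain ⟨h3, h4⟩ := le_two hlt.1 hlt.2 hcop hu hv huv' hd
  refine ⟨h3, ?_⟩
  set X := (egyInst N x R).1
  set Y := (egyInst N x R).2
  set D := minDen X Y
  have hm : 0 < min u v := lt_min hu hv
  have h5 : 2 ^ N * (u + v) ≤ (2 ^ (N + 1) + 1) * min u v := by
    rcases le_total u v with h6 | h6
    · rw [min_eq_left h6]
      calc 2 ^ N * (u + v) = 2 ^ N * u + 2 ^ N * v := by ring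
        _ ≤ 2 ^ N * u + (2 ^ N + 1) * u := by omega
        _ = (2 ^ (N + 1) + 1) * u := by ring
    · rw [min_eq_right h6]
      calc 2 ^ N * (u + v) = 2 ^ N * u + 2 ^ N * v := by ring
        _ ≤ (2 ^ N + 1) * v + 2 ^ N * v := by omega
        _ = (2 ^ (N + 1) + 1) * v := by ring
  have h6 : min u v * (2 ^ N * (X * D)) ≤ min u v * ((2 ^ (N + 1) + 1) * Y) := by
    calc min u v * (2 ^ N * (X * D)) = 2 ^ N * (min u v * (X * D)) := by ring
      _ ≤ 2 ^ N * (Y * (u + v)) := Nat.mul_le_mul_left _ h4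
      _ = Y * (2 ^ N * (u + v)) := by ring
      _ ≤ Y * ((2 ^ (N + 1) + 1) * min u v) := Nat.mul_le_mul_left _ h5
      _ = min u v * ((2 ^ (N + 1) + 1) * Y) := by ring
  exact Nat.le_of_mul_le_mul_left h6 hm

/-- Negative instances. -/
theorem no_inst {N : ℕ} {x : List ℕ × ℕ} (h : Ok N x) (hx : ¬ SubSum x) :
    2 ^ N * Nat.card {s : List Bool // s.length = bb N * N ∧
      ¬ (3 ≤ minLen (egyInst N x (valB s)).1 (egyInst N x (valB s)).2 ∧
        3 * (egyInst N x (valB s)).2 ≤ (egyInst N x (valB s)).1 *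
          minDen (egyInst N x (valB s)).1 (egyInst N x (valB s)).2)} ≤ 2 ^ (bb N * N) := by
  have hno := noSol_res x h.2.1 h.2.2 (W_lt h) hx
  have hcount := noCount' (κ := kap N) (b := bb N) (H := 2 ^ hh N) (B := 2 ^ (4 * N ^ 2))
    (by unfold kap; omega) (fun i : Fin N => res (2 ^ (2 * N)) (QQ N) x i)
    (fun i => (res_bounds x h.2.2 (W_lt h) i).2) (fun i => (res_bounds x h.2.2 (W_lt h) i).1)
    hno Q_big (by have := h.1; omega) (by positivity) A_big
  set P : (ℕ → ℕ) → Prop := fun f =>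
    Bad (QQ N ^ 2) (∏ i : Fin N, (res (2 ^ (2 * N)) (QQ N) x i + QQ N ^ 2 * (2 ^ hh N + f i)))
    with hP
  have h1 := card_strings (bb N) N P (by
    intro f g hfg
    have : ∀ i : Fin N, f i = g i := fun i => hfg i i.2
    simp only [hP, this])
  have h2 : Nat.card {s : List Bool // s.length = bb N * N ∧
      ¬ (3 ≤ minLen (egyInst N x (valB s)).1 (egyInst N x (valB s)).2 ∧
        3 * (egyInst N x (valB s)).2 ≤ (egyInst N x (valB s)).1 *
          minDen (egyInst N x (valB s)).1 (egyInst N x (valB s)).2)} ≤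
      Nat.card {s : List Bool // s.length = bb N * N ∧ P (fun i => blk (bb N) (valB s) i)} := by
    have hfin : Finite {s : List Bool // s.length = bb N * N ∧
        P (fun i => blk (bb N) (valB s) i)} := by
      have : Finite {s : List Bool // s.length = bb N * N} :=
        inferInstanceAs (Finite (List.Vector Bool (bb N * N)))
      exact Finite.of_injective (β := {s : List Bool // s.length = bb N * N})
        (fun s => ⟨s.1, s.2.1⟩) (fun s s' h => by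
          simp only [Subtype.mk.injEq] at h
          exact Subtype.ext h)
    refine Nat.card_le_card_of_injective (fun s => ⟨s.1, s.2.1, ?_⟩) ?_
    · by_contra hcon
      refine s.2.2 (three_le (inst_lt h.1 x _).1 (inst_lt h.1 x _).2 (inst_cop h _) ?_)
      intro hbad
      apply hcon
      simp only [hP]
      unfold egyInst at hbad
      simp only at hbad
      rw [prod_range_eq] at hbad
      exact hbad
    · intro s s' h
      simp only [Subtype.mk.injEq] at h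
      exact Subtype.ext h
  have h3 : Nat.card {t : Fin N → Fin (2 ^ bb N) //
      P (fun i => if h : i < N then (t ⟨i, h⟩ : ℕ) else 0)} =
      Nat.card {t : Fin N → Fin (2 ^ bb N) //
      Bad ((3 ^ kap N) ^ 2) (∏ i : Fin N, (res (2 ^ (2 * N)) (QQ N) x i +
        (3 ^ kap N) ^ 2 * (2 ^ hh N + (t i : ℕ))))} := by
    refine Nat.card_congr (Equiv.subtypeEquivRight fun t => ?_)
    simp only [hP]
    have : ∀ i : Fin N, (if h : (i : ℕ) < N then (t ⟨i, h⟩ : ℕ) else 0) = (t i : ℕ) := by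
      intro i
      rw [dif_pos i.2]
    simp only [this]
    rfl
  rw [h1, h3] at h2
  refine (Nat.mul_le_mul_left _ h2).trans ?_
  set C := Nat.card {t : Fin N → Fin (2 ^ bb N) //
      Bad ((3 ^ kap N) ^ 2) (∏ i : Fin N, (res (2 ^ (2 * N)) (QQ N) x i +
        (3 ^ kap N) ^ 2 * (2 ^ hh N + (t i : ℕ))))} with hC
  have h4 := fail_small h.1
  have h5 : 2 ^ N * C * 2 ^ (4 * N ^ 2) ≤ 2 ^ (bb N * N) * 2 ^ (4 * N ^ 2) := by
    calc 2 ^ N * C * 2 ^ (4 * N ^ 2) = 2 ^ N * (C * 2 ^ (4 * N ^ 2)) := by ring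
      _ ≤ 2 ^ N * (2 ^ (bb N * N) * (4 * N * 6 ^ N * (bb N + 2) ^ (2 * N))) :=
        Nat.mul_le_mul_left _ hcount
      _ = 2 ^ (bb N * N) * (2 ^ N * (4 * N * 6 ^ N * (bb N + 2) ^ (2 * N))) := by ring
      _ ≤ _ := Nat.mul_le_mul_left _ h4
  exact Nat.le_of_mul_le_mul_right h5 (by positivity)

end Pool.Agent.H591R2.Egy
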