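import Pool.Agent.H591R2.Egy.Defs2
import Pool.Agent.H671R2.PolyAuto

/-!
# Stubs (statements only)
-/

namespace Pool.Agent.H591R2.Egy

open Finset

/-! ### T1: two-term Egyptian fractions -/

theorem exists_isEgy {x y : ℕ} (hx : 0 < x) (hxy : x < y) : ∃ s, IsEgy x y s := by
  sorry

theorem three_le {x y : ℕ} (hx : 2 < x) (hxy : x < y) (hc : Nat.Coprime x y)
    (hno : ¬ Bad x y) : 3 ≤ minLen x y ∧ 3 * y ≤ x * minDen x y := by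
  sorry

theorem le_two {x y u v : ℕ} (hx : 2 < x) (hxy : x < y) (hc : Nat.Coprime x y)
    (hu : 0 < u) (hv : 0 < v) (huv : u * v ∣ y) (hd : x ∣ u + v) :
    minLen x y ≤ 2 ∧ min u v * (x * minDen x y) ≤ y * (u + v) := by
  sorry

/-! ### T2: cofactors -/

theorem distrib {N : ℕ} (m : Fin N → ℕ) (hm : ∀ i, 0 < m i) {u v : ℕ}
    (h : u * v ∣ ∏ i, m i) : ∃ uu vv ww : Fin N → ℕ, (∀ i, uu i * vv i * ww i = m i) ∧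
      ∏ i, uu i = u ∧ ∏ i, vv i = v := by
  sorry

theorem cofactors {N q : ℕ} (m r : Fin N → ℕ) (hm : ∀ i, 0 < m i)
    (hmr : ∀ i, m i ≡ r i [MOD q]) (h : Bad q (∏ i, m i)) :
    ∃ (τ : Fin N → Fin 3) (p : Fin N → ℕ × ℕ),
      (∀ i, 0 < (p i).1 ∧ 0 < (p i).2 ∧ (p i).1 * (p i).2 ∣ m i ∧
        ((p i).1 * (p i).2) ^ 3 ≤ m i ^ 2) ∧ Cong q τ r p := by
  sorry

/-! ### T3: the congruence -/

theorem small {N κ B : ℕ} (r : Fin N → ℕ)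
    (hpm : ∀ i, r i % 3 ^ κ = 1 ∨ r i % 3 ^ κ = 3 ^ κ - 1)
    (hno : NoSol ((3 ^ κ) ^ 2) r) (hQ : 2 * B ^ (3 * N) < 3 ^ κ) (τ : Fin N → Fin 3)
    (p : Fin N → ℕ × ℕ) (hp : ∀ i, 0 < (p i).1 ∧ 0 < (p i).2)
    (hcop : ∀ i, Nat.Coprime (p i).1 3 ∧ Nat.Coprime (p i).2 3)
    (hB : ∀ i, (p i).1 ≤ B ∧ (p i).2 ≤ B) : ¬ Cong ((3 ^ κ) ^ 2) τ r p := by
  sorry

theorem vary1 {N κ : ℕ} (r : Fin N → ℕ) (hr : ∀ i, Nat.Coprime (r i) 3) (τ : Fin N → Fin 3)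
    (p : Fin N → ℕ × ℕ) (hcop : ∀ i, Nat.Coprime (p i).1 3 ∧ Nat.Coprime (p i).2 3)
    (i₀ : Fin N) {a b a' : ℕ} (ha : Nat.Coprime a 3) (hb : Nat.Coprime b 3)
    (ha' : Nat.Coprime a' 3)
    (h : Cong ((3 ^ κ) ^ 2) τ r (Function.update p i₀ (a, b)))
    (h' : Cong ((3 ^ κ) ^ 2) τ r (Function.update p i₀ (a', b))) :
    a ^ 2 ≡ a' ^ 2 [MOD (3 ^ κ) ^ 2] := by
  sorry

theorem vary2 {N κ : ℕ} (r : Fin N → ℕ) (hr : ∀ i, Nat.Coprime (r i) 3) (τ : Fin N → Fin 3)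
    (p : Fin N → ℕ × ℕ) (hcop : ∀ i, Nat.Coprime (p i).1 3 ∧ Nat.Coprime (p i).2 3)
    (i₀ : Fin N) {a b b' : ℕ} (ha : Nat.Coprime a 3) (hb : Nat.Coprime b 3)
    (hb' : Nat.Coprime b' 3)
    (h : Cong ((3 ^ κ) ^ 2) τ r (Function.update p i₀ (a, b)))
    (h' : Cong ((3 ^ κ) ^ 2) τ r (Function.update p i₀ (a, b'))) :
    b ^ 2 ≡ b' ^ 2 [MOD (3 ^ κ) ^ 2] := by
  sorry

/-! ### T4: sums of reciprocals and counting -/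

theorem harm (b : ℕ) : ∑ z ∈ Finset.Icc (1 : ℕ) (2 ^ b), (1 : ℚ) / (z : ℚ) ≤ b + 1 := by
  sorry

theorem classSum {b κ B : ℕ} (hB : B ≤ (3 ^ κ) ^ 2) (S : Finset ℕ)
    (hS : ∀ z ∈ S, B < z ∧ z ≤ 2 ^ b ∧ Nat.Coprime z 3)
    (hc : ∀ z ∈ S, ∀ z' ∈ S, z ^ 2 ≡ z' ^ 2 [MOD (3 ^ κ) ^ 2]) :
    (∑ z ∈ S, (1 : ℚ) / z) * B ≤ 2 * (b + 2) := by
  sorry

theorem countT {b c q r H : ℕ} (hc : 0 < c) (hcA : c ≤ 2 ^ b) (hcop : Nat.Coprime c q) :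
    Nat.card {t : Fin (2 ^ b) // c ∣ r + q * (H + (t : ℕ))} * c ≤ 2 * 2 ^ b := by
  sorry

/-! ### T5: the union bound -/

theorem noCount {N κ b H B : ℕ} (hκ : 0 < κ) (r : Fin N → ℕ) (hr : ∀ i, r i < (3 ^ κ) ^ 2)
    (hpm : ∀ i, r i % 3 ^ κ = 1 ∨ r i % 3 ^ κ = 3 ^ κ - 1)
    (hno : NoSol ((3 ^ κ) ^ 2) r) (hQ : 2 * B ^ (3 * N) < 3 ^ κ) (hN : 0 < N) (hB : 0 < B)
    (hA : ((3 ^ κ) ^ 2 * (H + 2 ^ b)) ^ 2 ≤ (2 ^ b) ^ 3) :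
    (Nat.card {t : Fin N → Fin (2 ^ b) //
      Bad ((3 ^ κ) ^ 2) (∏ i, (r i + (3 ^ κ) ^ 2 * (H + (t i : ℕ))))}) * B
      ≤ 2 ^ (b * N) * (4 * N * 6 ^ N * (b + 2) ^ (2 * N)) := by
  sorry

/-! ### T6: the positive instances -/

theorem yes {N q h b : ℕ} (hN : 2 ≤ N) (hh : b + 2 * N + 1 ≤ h) (r t : Fin N → ℕ)
    (hr : ∀ i, r i < q) (ht : ∀ i, t i < 2 ^ b) (hs : BalSol q r) :
    ∃ u v : ℕ, 0 < u ∧ 0 < v ∧ u * v ∣ ∏ i, (r i + q * (2 ^ h + t i)) ∧ q ∣ u + v ∧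
      2 ^ N * u ≤ (2 ^ N + 1) * v ∧ 2 ^ N * v ≤ (2 ^ N + 1) * u := by
  sorry

/-! ### T7: subset sum -/

theorem balSol_res {N W Q : ℕ} (x : List ℕ × ℕ) (hN : 3 * x.1.length + 2 ≤ N)
    (hQ : 1 + Q * tgt W x ≤ Q ^ 2) (hx : SubSum x) :
    BalSol (Q ^ 2) (fun i : Fin N => res W Q x i) := by
  sorry

theorem noSol_res {N W Q : ℕ} (x : List ℕ × ℕ) (hN : 3 * x.1.length + 2 ≤ N)
    (hW : x.1.sum + x.2 < W) (hQ : W * 4 ^ (x.1.length + 1) < Q) (hx : ¬ SubSum x) :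
    NoSol (Q ^ 2) (fun i : Fin N => res W Q x i) := by
  sorry

theorem res_bounds {W κ : ℕ} (x : List ℕ × ℕ) (hW : x.1.sum + x.2 < W)
    (hQ : W * 4 ^ (x.1.length + 1) < 3 ^ κ) (i : ℕ) :
    res W (3 ^ κ) x i < (3 ^ κ) ^ 2 ∧
      (res W (3 ^ κ) x i % 3 ^ κ = 1 ∨ res W (3 ^ κ) x i % 3 ^ κ = 3 ^ κ - 1) := by
  sorry

/-! ### T8: random strings -/

theorem card_strings (b N : ℕ) (P : (ℕ → ℕ) → Prop) (hP : ∀ f g : ℕ → ℕ,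
      (∀ i < N, f i = g i) → (P f ↔ P g)) :
    Nat.card {s : List Bool // s.length = b * N ∧ P (fun i => blk b (NPC.valB s) i)} =
      Nat.card {t : Fin N → Fin (2 ^ b) // P (fun i => if h : i < N then (t ⟨i, h⟩ : ℕ) else 0)} := by
  sorry

/-! ### T9: polynomial time -/

theorem poly_egyInst : NPC.Poly (fun z : (List Unit × (List ℕ × ℕ)) × List Bool =>
    egyInst z.1.1.length z.1.2 (NPC.valB z.2)) := by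
  sorry

end Pool.Agent.H591R2.Egy
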