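import Pool.Agent.H591R2.Egy.Defs2

/-!
# Egyptian fractions with two terms
-/

namespace Pool.Agent.H591R2.Egy

open Finset

theorem single_le {s : Finset ℕ} {n : ℕ} (hn : n ∈ s) {z : ℚ}
    (hs : ∑ n ∈ s, (1 / (n : ℚ)) = z) : 1 / (n : ℚ) ≤ z := by
  rw [← hs]
  exact Finset.single_le_sum (f := fun n : ℕ => 1 / (n : ℚ)) (fun i _ => by positivity) hn

theorem exists_isEgy {x y : ℕ} (hx : 0 < x) (hxy : x < y) : ∃ s, IsEgy x y s := by
  induction x using Nat.strong_induction_on generalizing y with
  | _ x ih =>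
    obtain ⟨n, h1, h2⟩ : ∃ n, y ≤ n * x ∧ n * x < y + x := by
      refine ⟨(y + x - 1) / x, ?_, ?_⟩
      · have h3 := Nat.div_add_mod (y + x - 1) x
        have h4 := Nat.mod_lt (y + x - 1) hx
        rw [mul_comm] at h3
        omega
      · have h3 := Nat.div_mul_le_self (y + x - 1) x
        omega
    have hn : 1 < n := by
      by_contra hcon
      have : n * x ≤ 1 * x := Nat.mul_le_mul_right _ (by omega)
      omega
    have hn0 : (0 : ℚ) < n := by exact_mod_cast (by omega : 0 < n)
    have hy0 : (0 : ℚ) < y := by exact_mod_cast (by omega : 0 < y)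
    rcases Nat.eq_or_lt_of_le h1 with h3 | h3
    · refine ⟨{n}, Finset.singleton_nonempty _, ?_, ?_⟩
      · intro m hm
        rw [Finset.mem_singleton] at hm
        omega
      · rw [Finset.sum_singleton, div_eq_div_iff hn0.ne' hy0.ne']
        rw [h3]
        push_cast
        ring
    · have h4 : n * x - y < x := by omega
      have h5 : 0 < n * x - y := by omega
      have h6 : n * x - y < y * n := by
        have : y * 1 ≤ y * n := Nat.mul_le_mul_left _ (by omega)
        omega
      obtain ⟨s, hs1, hs2, hs3⟩ := ih (n * x - y) h4 h5 h6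
      rw [Nat.cast_sub h1] at hs3
      push_cast at hs3
      have hns : n ∉ s := by
        intro hmem
        have h7 := single_le hmem hs3
        rw [div_le_div_iff₀ hn0 (by positivity)] at h7
        have h8 : (y : ℚ) ≤ n * x - y := by
          have : (y : ℚ) * n ≤ (n * x - y) * n := by linarith
          exact le_of_mul_le_mul_right this hn0
        have h9 : ((n * x : ℕ) : ℚ) < ((y + x : ℕ) : ℚ) := by exact_mod_cast h2
        have h10 : (x : ℚ) < y := by exact_mod_cast hxy
        push_cast at h9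
        linarith
      refine ⟨insert n s, Finset.insert_nonempty _ _, ?_, ?_⟩
      · intro m hm
        rw [Finset.mem_insert] at hm
        rcases hm with rfl | hm
        · omega
        · exact hs2 m hm
      · rw [Finset.sum_insert hns, hs3]
        field_simp
        ring

theorem minLen_spec {x y : ℕ} (hx : 0 < x) (hxy : x < y) :
    ∃ s, IsEgy x y s ∧ s.card = minLen x y := by
  obtain ⟨s, hs⟩ := exists_isEgy hx hxy
  exact Nat.sInf_mem (s := {k | ∃ s, IsEgy x y s ∧ s.card = k}) ⟨s.card, s, hs, rfl⟩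

theorem minDen_spec {x y : ℕ} (hx : 0 < x) (hxy : x < y) :
    ∃ s, IsEgy x y s ∧ s.sup id = minDen x y := by
  obtain ⟨s, hs⟩ := exists_isEgy hx hxy
  exact Nat.sInf_mem (s := {k | ∃ s, IsEgy x y s ∧ s.sup id = k}) ⟨s.sup id, s, hs, rfl⟩

/-- A representation with at most two terms gives a divisor pair. -/
theorem bad_of_card {x y : ℕ} (hx : 2 < x) (hy : 0 < y) (hc : Nat.Coprime x y)
    {s : Finset ℕ} (hs : IsEgy x y s) (hcard : s.card ≤ 2) : Bad x y := by
  obtain ⟨hne, hpos, hsum⟩ := hs
  have hy0 : (0 : ℚ) < y := by exact_mod_cast hy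
  have hcard0 : 0 < s.card := hne.card_pos
  rcases (by omega : s.card = 1 ∨ s.card = 2) with h1 | h2
  · obtain ⟨n, rfl⟩ := Finset.card_eq_one.1 h1
    rw [Finset.sum_singleton] at hsum
    have hn : 0 < n := hpos n (Finset.mem_singleton_self _)
    have hn0 : (0 : ℚ) < n := by exact_mod_cast hn
    rw [div_eq_div_iff hn0.ne' hy0.ne'] at hsum
    have h3 : 1 * y = x * n := by exact_mod_cast hsum
    have h4 : x ∣ y := ⟨n, by omega⟩
    have h5 : x = 1 := by
      have := Nat.Coprime.eq_one_of_dvd hc h4
      exact this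
    omega
  · obtain ⟨a, b, hab, rfl⟩ := Finset.card_eq_two.1 h2
    rw [Finset.sum_pair hab] at hsum
    have ha : 0 < a := hpos a (by simp)
    have hb : 0 < b := hpos b (by simp)
    have ha0 : (0 : ℚ) < a := by exact_mod_cast ha
    have hb0 : (0 : ℚ) < b := by exact_mod_cast hb
    have h3 : y * (a + b) = x * (a * b) := by
      have : (y : ℚ) * (a + b) = x * (a * b) := by
        field_simp at hsum
        linarith
      exact_mod_cast this
    obtain ⟨d, u, v, hd, hcop, hau, hbv⟩ := Nat.exists_coprime' (m := a) (n := b)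
      (Nat.gcd_pos_of_pos_left _ ha)
    have hu : 0 < u := Nat.pos_of_ne_zero (by rintro rfl; simp at hau; omega)
    have hv : 0 < v := Nat.pos_of_ne_zero (by rintro rfl; simp at hbv; omega)
    have h4 : y * (u + v) = x * d * (u * v) := by
      have : d * (y * (u + v)) = d * (x * d * (u * v)) := by
        calc d * (y * (u + v)) = y * (a + b) := by rw [hau, hbv]; ring
          _ = x * (a * b) := h3
          _ = d * (x * d * (u * v)) := by rw [hau, hbv]; ring
      exact Nat.eq_of_mul_eq_mul_left hd this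
    refine ⟨u, v, hu, hv, ?_, ?_⟩
    · have h5 : Nat.Coprime (u * v) (u + v) := by
        apply Nat.Coprime.mul_left
        · rw [Nat.coprime_self_add_right]; exact hcop
        · rw [Nat.coprime_add_self_right]; exact hcop.symm
      exact h5.dvd_of_dvd_mul_right ⟨x * d, by rw [h4]; ring⟩
    · exact hc.dvd_of_dvd_mul_left ⟨d * (u * v), by rw [h4]; ring⟩

theorem three_le {x y : ℕ} (hx : 2 < x) (hxy : x < y) (hc : Nat.Coprime x y)
    (hno : ¬ Bad x y) : 3 ≤ minLen x y ∧ 3 * y ≤ x * minDen x y := by
  have hy : 0 < y := by omega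
  constructor
  · obtain ⟨s, hs, hcard⟩ := minLen_spec (by omega : 0 < x) hxy
    by_contra hcon
    exact hno (bad_of_card hx hy hc hs (by omega))
  · obtain ⟨s, hs, hsup⟩ := minDen_spec (by omega : 0 < x) hxy
    have h3 : 3 ≤ s.card := by
      by_contra hcon
      exact hno (bad_of_card hx hy hc hs (by omega))
    obtain ⟨⟨n0, hn0⟩, hpos, hsum⟩ := hs
    set D := minDen x y with hD
    have hle : ∀ n ∈ s, n ≤ D := by
      intro n hn
      rw [← hsup]
      exact Finset.le_sup (f := id) hn
    have hD0 : (0 : ℚ) < D := by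
      exact_mod_cast lt_of_lt_of_le (hpos n0 hn0) (hle n0 hn0)
    have hy0 : (0 : ℚ) < y := by exact_mod_cast hy
    have h4 : (s.card : ℚ) * (1 / (D : ℚ)) ≤ ∑ n ∈ s, (1 / (n : ℚ)) := by
      rw [← nsmul_eq_mul]
      refine Finset.card_nsmul_le_sum _ _ _ fun n hn => ?_
      have h5 : (0 : ℚ) < n := by exact_mod_cast hpos n hn
      have h6 : (n : ℚ) ≤ D := by exact_mod_cast hle n hn
      exact one_div_le_one_div_of_le h5 h6
    have h5 : (3 : ℚ) * (1 / (D : ℚ)) ≤ (x : ℚ) / y := by
      rw [← hsum]
      refine le_trans ?_ h4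
      have : (3 : ℚ) ≤ s.card := by exact_mod_cast h3
      gcongr
    rw [mul_one_div, div_le_div_iff₀ hD0 hy0] at h5
    exact_mod_cast h5

theorem le_two {x y u v : ℕ} (hx : 2 < x) (hxy : x < y) (hc : Nat.Coprime x y)
    (hu : 0 < u) (hv : 0 < v) (huv : u * v ∣ y) (hd : x ∣ u + v) :
    minLen x y ≤ 2 ∧ min u v * (x * minDen x y) ≤ y * (u + v) := by
  have hy : 0 < y := by omega
  obtain ⟨w, hw⟩ := hd
  obtain ⟨z, hz⟩ := huv
  have hw0 : 0 < w := Nat.pos_of_ne_zero (by rintro rfl; simp at hw; omega)
  have hz0 : 0 < z := Nat.pos_of_ne_zero (by rintro rfl; simp at hz; omega)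
  have hne : u ≠ v := by
    rintro rfl
    have h1 : x ∣ u * 2 := ⟨w, by rw [← hw]; ring⟩
    have h2 : Nat.Coprime x u := Nat.Coprime.coprime_dvd_right
      (⟨u * z, by rw [hz]; ring⟩ : u ∣ y) hc
    have h3 : x ∣ 2 := h2.dvd_of_dvd_mul_left h1
    have := Nat.le_of_dvd (by norm_num) h3
    omega
  have hne' : v * z * w ≠ u * z * w := by
    intro h
    have h1 : v * (z * w) = u * (z * w) := by rw [← mul_assoc, ← mul_assoc]; exact h
    exact hne (Nat.eq_of_mul_eq_mul_right (by positivity) h1).symm
  have hs : IsEgy x y {v * z * w, u * z * w} := by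
    refine ⟨Finset.insert_nonempty _ _, ?_, ?_⟩
    · intro n hn
      simp only [Finset.mem_insert, Finset.mem_singleton] at hn
      rcases hn with rfl | rfl <;> positivity
    · rw [Finset.sum_pair hne']
      have hx' : (0 : ℚ) < x := by exact_mod_cast (by omega : 0 < x)
      have hu' : (0 : ℚ) < u := by exact_mod_cast hu
      have hv' : (0 : ℚ) < v := by exact_mod_cast hv
      have hw' : (0 : ℚ) < w := by exact_mod_cast hw0
      have hz' : (0 : ℚ) < z := by exact_mod_cast hz0
      have h1 : (u : ℚ) + v = x * w := by exact_mod_cast hw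
      rw [hz]
      push_cast
      field_simp
      linarith
  constructor
  · have h0 : minLen x y ≤ ({v * z * w, u * z * w} : Finset ℕ).card :=
      Nat.sInf_le ⟨_, hs, rfl⟩
    exact h0.trans Finset.card_le_two
  · have h1 : minDen x y ≤ ({v * z * w, u * z * w} : Finset ℕ).sup id :=
      Nat.sInf_le ⟨_, hs, rfl⟩
    refine (Nat.mul_le_mul_left _ (Nat.mul_le_mul_left _ h1)).trans ?_
    have h2 : ({v * z * w, u * z * w} : Finset ℕ).sup id = max (v * z * w) (u * z * w) := by
      simp [Finset.sup_insert]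
    rw [h2]
    rcases le_total (v * z * w) (u * z * w) with h3 | h3
    · rw [max_eq_right h3]
      calc min u v * (x * (u * z * w)) ≤ v * (x * (u * z * w)) :=
            Nat.mul_le_mul_right _ (min_le_right _ _)
        _ = u * v * z * (x * w) := by ring
        _ = y * (u + v) := by rw [← hz, ← hw]
        _ ≤ _ := le_rfl
    · rw [max_eq_left h3]
      calc min u v * (x * (v * z * w)) ≤ u * (x * (v * z * w)) :=
            Nat.mul_le_mul_right _ (min_le_left _ _)
        _ = u * v * z * (x * w) := by ring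
        _ = y * (u + v) := by rw [← hz, ← hw]
        _ ≤ _ := le_rfl

end Pool.Agent.H591R2.Egy
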