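import Pool.Agent.H591R2.Egy.Defs2

/-!
# Cofactors
-/

namespace Pool.Agent.H591R2.Egy

open Finset

theorem distrib3 : ∀ {N : ℕ} (m : Fin N → ℕ) (_ : ∀ i, 0 < m i) {u v w : ℕ}
    (_ : u * v * w = ∏ i, m i), ∃ uu vv ww : Fin N → ℕ, (∀ i, uu i * vv i * ww i = m i) ∧
      ∏ i, uu i = u ∧ ∏ i, vv i = v ∧ ∏ i, ww i = w := by
  intro N
  induction N with
  | zero =>
    intro m _ u v w h
    simp only [Finset.univ_eq_empty, Finset.prod_empty] at h
    have h1 : u * v = 1 := Nat.eq_one_of_mul_eq_one_right h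
    have h2 : w = 1 := Nat.eq_one_of_mul_eq_one_left h
    have h3 : u = 1 := Nat.eq_one_of_mul_eq_one_right h1
    have h4 : v = 1 := Nat.eq_one_of_mul_eq_one_left h1
    exact ⟨fun _ => 1, fun _ => 1, fun _ => 1, fun i => i.elim0, by simp [h3], by simp [h4],
      by simp [h2]⟩
  | succ N ih =>
    intro m hm u v w h
    rw [Fin.prod_univ_succ] at h
    have hm0 := hm 0
    have h1 : m 0 ∣ u * (v * w) := by
      rw [← mul_assoc, h]
      exact dvd_mul_right _ _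
    obtain ⟨u1, c, ⟨u2, hu2⟩, hc, h2⟩ := exists_dvd_and_dvd_of_dvd_mul h1
    obtain ⟨v1, w1, ⟨v2, hv2⟩, ⟨w2, hw2⟩, h3⟩ := exists_dvd_and_dvd_of_dvd_mul hc
    have h4 : u2 * v2 * w2 = ∏ i : Fin N, m i.succ := by
      have h5 : m 0 * (u2 * v2 * w2) = m 0 * ∏ i : Fin N, m i.succ := by
        rw [← h, hu2, hv2, hw2, h2, h3]
        ring
      exact Nat.eq_of_mul_eq_mul_left hm0 h5
    obtain ⟨uu, vv, ww, hh, hu, hv, hw⟩ := ih (fun i => m i.succ) (fun i => hm _) h4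
    refine ⟨Fin.cons u1 uu, Fin.cons v1 vv, Fin.cons w1 ww, ?_, ?_, ?_, ?_⟩
    · intro i
      refine Fin.cases ?_ ?_ i
      · simp only [Fin.cons_zero]
        rw [h2, h3]; ring
      · intro j
        simp only [Fin.cons_succ]
        exact hh j
    · rw [Fin.prod_univ_succ]
      simp only [Fin.cons_zero, Fin.cons_succ]
      rw [hu, hu2]
    · rw [Fin.prod_univ_succ]
      simp only [Fin.cons_zero, Fin.cons_succ]
      rw [hv, hv2]
    · rw [Fin.prod_univ_succ]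
      simp only [Fin.cons_zero, Fin.cons_succ]
      rw [hw, hw2]

theorem distrib {N : ℕ} (m : Fin N → ℕ) (hm : ∀ i, 0 < m i) {u v : ℕ}
    (h : u * v ∣ ∏ i, m i) : ∃ uu vv ww : Fin N → ℕ, (∀ i, uu i * vv i * ww i = m i) ∧
      ∏ i, uu i = u ∧ ∏ i, vv i = v := by
  obtain ⟨w, hw⟩ := h
  obtain ⟨uu, vv, ww, h1, h2, h3, _⟩ := distrib3 m hm hw.symm
  exact ⟨uu, vv, ww, h1, h2, h3⟩

/-- the choice for one item -/
theorem one_item {u v w m : ℕ} (hm : 0 < m) (h : u * v * w = m) :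
    ∃ (c : Fin 3) (x : ℕ × ℕ) (k : ℕ), 0 < x.1 ∧ 0 < x.2 ∧ x.1 * x.2 ∣ m ∧
      (x.1 * x.2) ^ 3 ≤ m ^ 2 ∧ u * k = nf c m x.1 x.2 ∧ v * k = df c m x.1 x.2 := by
  have hu : 0 < u := Nat.pos_of_ne_zero (by rintro rfl; simp at h; omega)
  have hv : 0 < v := Nat.pos_of_ne_zero (by rintro rfl; simp at h; omega)
  have hw : 0 < w := Nat.pos_of_ne_zero (by rintro rfl; simp at h; omega)
  have key : ∀ a b big : ℕ, a ≤ big → b ≤ big → a * b * big = m → (a * b) ^ 3 ≤ m ^ 2 := by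
    intro a b big ha hb hab
    rw [← hab]
    calc (a * b) ^ 3 = (a * b) ^ 2 * (a * b) := by ring
      _ ≤ (a * b) ^ 2 * (big * big) := Nat.mul_le_mul_left _ (Nat.mul_le_mul ha hb)
      _ = (a * b * big) ^ 2 := by ring
  by_cases h0 : u ≤ w ∧ v ≤ w
  · refine ⟨0, (u, v), 1, hu, hv, ⟨w, h.symm⟩, key u v w h0.1 h0.2 h, ?_, ?_⟩
    · simp [nf]
    · simp [df]
  by_cases h1 : w ≤ u ∧ v ≤ u
  · refine ⟨1, (w, v), w * v, hw, hv, ⟨u, by rw [← h]; ring⟩,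
      key w v u h1.1 h1.2 (by rw [← h]; ring), ?_, ?_⟩
    · simp only [nf]
      rw [← h]
      simp only [Fin.isValue, one_ne_zero, if_false, if_true]
      ring
    · simp only [df]
      simp only [Fin.isValue, one_ne_zero, if_false, if_true]
      ring
  have h2 : w ≤ v ∧ u ≤ v := by
    push Not at h0 h1
    omega
  refine ⟨2, (w, u), w * u, hw, hu, ⟨v, by rw [← h]; ring⟩,
      key w u v h2.1 h2.2 (by rw [← h]; ring), ?_, ?_⟩
  · simp only [nf]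
    have e1 : (2 : Fin 3) ≠ 0 := by decide
    have e2 : (2 : Fin 3) ≠ 1 := by decide
    rw [if_neg e1, if_neg e2]
    ring
  · simp only [df]
    have e1 : (2 : Fin 3) ≠ 0 := by decide
    have e2 : (2 : Fin 3) ≠ 1 := by decide
    rw [if_neg e1, if_neg e2, ← h]
    ring

theorem nf_modEq {q m r : ℕ} (h : m ≡ r [MOD q]) (c : Fin 3) (a b : ℕ) :
    nf c m a b ≡ nf c r a b [MOD q] := by
  unfold nf
  split_ifs
  · rfl
  · exact h
  · rfl

theorem df_modEq {q m r : ℕ} (h : m ≡ r [MOD q]) (c : Fin 3) (a b : ℕ) :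
    df c m a b ≡ df c r a b [MOD q] := by
  unfold df
  split_ifs
  · rfl
  · rfl
  · exact h

theorem prod_modEq {N q : ℕ} (f g : Fin N → ℕ) (h : ∀ i, f i ≡ g i [MOD q]) :
    ∏ i, f i ≡ ∏ i, g i [MOD q] := by
  rw [← ZMod.natCast_eq_natCast_iff]
  push_cast
  refine Finset.prod_congr rfl fun i _ => ?_
  exact (ZMod.natCast_eq_natCast_iff _ _ _).2 (h i)

theorem cofactors {N q : ℕ} (m r : Fin N → ℕ) (hm : ∀ i, 0 < m i)
    (hmr : ∀ i, m i ≡ r i [MOD q]) (h : Bad q (∏ i, m i)) :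
    ∃ (τ : Fin N → Fin 3) (p : Fin N → ℕ × ℕ),
      (∀ i, 0 < (p i).1 ∧ 0 < (p i).2 ∧ (p i).1 * (p i).2 ∣ m i ∧
        ((p i).1 * (p i).2) ^ 3 ≤ m i ^ 2) ∧ Cong q τ r p := by
  obtain ⟨u, v, hu, hv, huv, hq⟩ := h
  obtain ⟨uu, vv, ww, h1, h2, h3⟩ := distrib m hm huv
  choose τ p k hk using fun i => one_item (hm i) (h1 i)
  refine ⟨τ, p, fun i => ⟨(hk i).1, (hk i).2.1, (hk i).2.2.1, (hk i).2.2.2.1⟩, ?_⟩
  have h4 : q ∣ (∏ i, nf (τ i) (m i) (p i).1 (p i).2) + ∏ i, df (τ i) (m i) (p i).1 (p i).2 := by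
    have e1 : ∏ i, nf (τ i) (m i) (p i).1 (p i).2 = u * ∏ i, k i := by
      rw [← h2, ← Finset.prod_mul_distrib]
      exact Finset.prod_congr rfl fun i _ => (hk i).2.2.2.2.1.symm
    have e2 : ∏ i, df (τ i) (m i) (p i).1 (p i).2 = v * ∏ i, k i := by
      rw [← h3, ← Finset.prod_mul_distrib]
      exact Finset.prod_congr rfl fun i _ => (hk i).2.2.2.2.2.symm
    rw [e1, e2, ← add_mul]
    exact Dvd.dvd.mul_right hq _
  unfold Cong
  have h5 : (∏ i, nf (τ i) (m i) (p i).1 (p i).2) + ∏ i, df (τ i) (m i) (p i).1 (p i).2 ≡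
      (∏ i, nf (τ i) (r i) (p i).1 (p i).2) + ∏ i, df (τ i) (r i) (p i).1 (p i).2 [MOD q] :=
    Nat.ModEq.add (prod_modEq _ _ fun i => nf_modEq (hmr i) _ _ _)
      (prod_modEq _ _ fun i => df_modEq (hmr i) _ _ _)
  exact Nat.modEq_zero_iff_dvd.1 (h5.symm.trans (Nat.modEq_zero_iff_dvd.2 h4))

end Pool.Agent.H591R2.Egy
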